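import Pool.Agent.Lib.MP_1c0d65_gt.D.Lin1
import Pool.Agent.Lib.MP_1c0d65_gt.A.Reg

/-! Finite conformal atlases with a conformal metric; the definitions used for uniformisation. -/

namespace Pool.Agent.Lib.MP_21f752_an.U

open Set Filter Topology Metric Pool.Agent.Lib.MP_1c0d65_gt
open scoped ContDiff Laplacian UpperHalfPlane

noncomputable section

/-- A finite holomorphic atlas onto discs of radius four, the discs of radius one covering, with
the metric `exp (2 lam i) |dz|²` in the chart `i`. -/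
structure Atl (M : Type) [TopologicalSpace M] where
  ι : Type
  [fin : Fintype ι]
  e : ι → OpenPartialHomeomorph M ℂ
  tgt : ∀ i, (e i).target = ball 0 4
  cov : ∀ x, ∃ i, x ∈ (e i).source ∧ ‖e i x‖ < 1
  hol : ∀ i j x, x ∈ (e i).source → x ∈ (e j).source →
    AnalyticAt ℂ (e j ∘ (e i).symm) (e i x)
  lam : ι → ℂ → ℝ
  lam_sm : ∀ i, ContDiffOn ℝ ∞ (lam i) (ball 0 4)
  lam_tr : ∀ i j x, x ∈ (e i).source → x ∈ (e j).source → Real.exp (lam i (e i x)) =
    Real.exp (lam j (e j x)) * ‖deriv (e j ∘ (e i).symm) (e i x)‖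

attribute [instance] Atl.fin

/-- the cut-off with radii one and two -/
def be : ContDiffBump (0 : ℂ) := ⟨1, 2, one_pos, one_lt_two⟩

/-- the cut-off with radii two and three -/
def et : ContDiffBump (0 : ℂ) := ⟨2, 3, two_pos, by norm_num⟩

/-- the inner Cauchy transform of the parametrix -/
def pG (f : ℂ → ℝ) (z : ℂ) : ℂ := et z • A.T (fun s => (f s : ℂ)) z

/-- the real part of this function is the parametrix of the flat Laplace operator -/
def pY (f : ℂ → ℝ) (z : ℂ) : ℂ := A.T (fun s => starRingEnd ℂ (pG f s)) z / 4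

/-- eight times the complex derivative of the parametrix -/
def pZ (f : ℂ → ℝ) (z : ℂ) : ℂ := A.S (fun s => starRingEnd ℂ (pG f s)) z + pG f z

/-- the antilinear derivative of a real function -/
def dbar (a : ℂ → ℝ) (z : ℂ) : ℂ :=
  ((fderiv ℝ a z 1 : ℝ) + Complex.I * (fderiv ℝ a z Complex.I : ℝ)) / 2

/-- twice the complex derivative of a real function -/
def grd (a : ℂ → ℝ) (z : ℂ) : ℂ := (fderiv ℝ a z 1 : ℝ) - Complex.I * (fderiv ℝ a z Complex.I : ℝ)

namespace Atl

variable {M : Type} [TopologicalSpace M] (A : Atl M)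

/-- of class `C^k` at `x`, read in every chart around `x` -/
def SmAt (k : WithTop ℕ∞) (F : M → ℝ) (x : M) : Prop :=
  ∀ i, x ∈ (A.e i).source → ContDiffAt ℝ k (F ∘ (A.e i).symm) (A.e i x)

/-- of class `C^k` -/
def Sm (k : WithTop ℕ∞) (F : M → ℝ) : Prop := ∀ x, A.SmAt k F x

/-- a chart whose unit disc contains `x` -/
def idx (x : M) : A.ι := (A.cov x).choose

/-- the Laplace operator read in the chart `i` -/
def lapi (i : A.ι) (F : M → ℝ) (x : M) : ℝ :=
  Real.exp (-2 * A.lam i (A.e i x)) * Δ (F ∘ (A.e i).symm) (A.e i x)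

/-- the Laplace operator of the metric -/
def lap (F : M → ℝ) (x : M) : ℝ := A.lapi (A.idx x) F x

/-- the curvature read in the chart `i` -/
def Ki (i : A.ι) (x : M) : ℝ := -Real.exp (-2 * A.lam i (A.e i x)) * Δ (A.lam i) (A.e i x)

/-- the Gaussian curvature -/
def K (x : M) : ℝ := A.Ki (A.idx x) x

/-- extension by zero of a function in the chart `i` -/
def ext (i : A.ι) (Y : ℂ → ℝ) : M → ℝ := (A.e i).source.indicator fun x => Y (A.e i x)

/-- the density `be ρ f` in the chart `i` -/
def den (i : A.ι) (f : M → ℝ) (z : ℂ) : ℝ :=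
  be z * Real.exp (2 * A.lam i z) * f ((A.e i).symm z)

/-- `(u, h)` lies in the uniform closure of the graph of the Laplace operator -/
def Wk (u h : M → ℝ) : Prop :=
  ∀ ε > 0, ∃ v, A.Sm ∞ v ∧ ∀ x, |v x - u x| ≤ ε ∧ |A.lap v x - h x| ≤ ε

/-- the metric multiplied by `exp (2 u)` -/
def conf (u : M → ℝ) (hu : A.Sm ∞ u) : Atl M :=
  { A with
    lam := fun i z => A.lam i z + u ((A.e i).symm z)
    lam_sm := fun i => (A.lam_sm i).add fun z hz => by
      have hz' : z ∈ (A.e i).target := by rwa [A.tgt]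
      have := hu _ i ((A.e i).map_target hz')
      rw [(A.e i).right_inv hz'] at this
      exact this.contDiffWithinAt
    lam_tr := fun i j x hi hj => by
      rw [(A.e i).left_inv hi, (A.e j).left_inv hj, Real.exp_add, Real.exp_add,
        A.lam_tr i j x hi hj]
      ring }

/-- a family of smooth functions on the chart domains whose differences are locally constant -/
structure Coc (v : A.ι → M → ℝ) : Prop where
  sm : ∀ i x, x ∈ (A.e i).source → A.SmAt ∞ (v i) x
  lc : ∀ i j x, x ∈ (A.e i).source → x ∈ (A.e j).source →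
    ∀ᶠ y in 𝓝 x, v i y - v j y = v i x - v j x

/-- the family differs from a global function by locally constant functions -/
def Triv (v : A.ι → M → ℝ) : Prop :=
  ∃ F : M → ℝ, ∀ i x, x ∈ (A.e i).source → ∀ᶠ y in 𝓝 x, v i y - F y = v i x - F x

/-- `q` is a holomorphic isometry from the hyperbolic plane at `z` -/
def IsoAt (q : ℍ → M) (z : ℍ) : Prop :=
  ContinuousAt q z ∧ ∀ i, q z ∈ (A.e i).source →
    AnalyticAt ℂ (A.e i ∘ q ∘ UpperHalfPlane.ofComplex) z ∧
      ‖deriv (A.e i ∘ q ∘ UpperHalfPlane.ofComplex) z‖ * Real.exp (A.lam i (A.e i (q z))) * z.im = 1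

end Atl

end

end Pool.Agent.Lib.MP_21f752_an.U
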