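import Pool.Agent.Lib.MP_21f752_an.U.Atl

/-! Smooth functions for a conformal atlas. -/

namespace Pool.Agent.Lib.MP_21f752_an.U

open Set Filter Topology Metric MeasureTheory Pool.Agent.Lib.MP_1c0d65_gt
open Complex (I)
open scoped ContDiff Laplacian UpperHalfPlane Manifold MatrixGroups

noncomputable section

theorem be_one {z : ℂ} (hz : ‖z‖ ≤ 1) : be z = 1 :=
  be.one_of_mem_closedBall (mem_closedBall_zero_iff.2 hz)

theorem be_zero {z : ℂ} (hz : 2 ≤ ‖z‖) : be z = 0 :=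
  be.zero_of_le_dist (by rw [dist_zero_right]; exact hz)

theorem et_one {z : ℂ} (hz : ‖z‖ ≤ 2) : et z = 1 :=
  et.one_of_mem_closedBall (mem_closedBall_zero_iff.2 hz)

theorem et_zero {z : ℂ} (hz : 3 ≤ ‖z‖) : et z = 0 :=
  et.zero_of_le_dist (by rw [dist_zero_right]; exact hz)

namespace Atl
variable {M : Type} [TopologicalSpace M] {A : Atl M} {i j : A.ι} {x : M} {k : WithTop ℕ∞}
  {F G u : M → ℝ}

theorem idx_mem (A : Atl M) (x : M) :
    x ∈ (A.e (A.idx x)).source ∧ ‖A.e (A.idx x) x‖ < 1 := (A.cov x).choose_spec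

theorem map_mem (hx : x ∈ (A.e i).source) : A.e i x ∈ ball (0 : ℂ) 4 :=
  A.tgt i ▸ (A.e i).map_source hx

theorem symm_mem (i : A.ι) {z : ℂ} (hz : z ∈ ball (0 : ℂ) 4) :
    (A.e i).symm z ∈ (A.e i).source ∧ A.e i ((A.e i).symm z) = z :=
  have hz' : z ∈ (A.e i).target := (A.tgt i).symm ▸ hz
  ⟨(A.e i).map_target hz', (A.e i).right_inv hz'⟩

theorem symm_tendsto (hi : x ∈ (A.e i).source) :
    Tendsto (A.e i).symm (𝓝 (A.e i x)) (𝓝 x) := (A.e i).tendsto_symm hi

/-- near `e i x` a function in the chart `i` is the function in the chart `j` after the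
transition -/
theorem comp_ev {Y : Type} (f : M → Y) (hi : x ∈ (A.e i).source) (hj : x ∈ (A.e j).source) :
    f ∘ (A.e i).symm =ᶠ[𝓝 (A.e i x)] (f ∘ (A.e j).symm) ∘ (A.e j ∘ (A.e i).symm) := by
  filter_upwards [(symm_tendsto hi).eventually ((A.e j).eventually_left_inverse hj)] with z hz
  simp only [Function.comp_apply, hz]

theorem deriv_ne (hi : x ∈ (A.e i).source) (hj : x ∈ (A.e j).source) :
    deriv (A.e j ∘ (A.e i).symm) (A.e i x) ≠ 0 := fun h => by
  have := A.lam_tr i j x hi hj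
  rw [h, norm_zero, mul_zero] at this
  exact (Real.exp_pos _).ne' this

theorem ev_chart {P : M → Prop} (hi : x ∈ (A.e i).source) :
    (∀ᶠ y in 𝓝 x, P y) ↔ ∀ᶠ z in 𝓝 (A.e i x), P ((A.e i).symm z) := by
  rw [← (A.e i).symm_map_nhds_eq hi]
  rfl

theorem smAt_of (hx : x ∈ (A.e i).source) (h : ContDiffAt ℝ k (F ∘ (A.e i).symm) (A.e i x)) :
    A.SmAt k F x := fun j hj => by
  refine ContDiffAt.congr_of_eventuallyEq ?_ (comp_ev F hj hx)
  refine ContDiffAt.comp _ ?_ ((A.hol j i x hj hx).contDiffAt.restrict_scalars ℝ)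
  simpa only [Function.comp_apply, (A.e j).left_inv hj] using h

theorem SmAt.of_le {m : WithTop ℕ∞} (h : A.SmAt k F x) (hm : m ≤ k) : A.SmAt m F x :=
  fun i hi => (h i hi).of_le hm

theorem SmAt.continuousAt (h : A.SmAt k F x) : ContinuousAt F x := by
  have hx := (A.idx_mem x).1
  refine (((h _ hx).continuousAt).comp ((A.e _).continuousAt hx)).congr ?_
  filter_upwards [(A.e _).eventually_left_inverse hx] with y hy
  simp only [Function.comp_apply, hy]

theorem SmAt.congr (h : A.SmAt k F x) (e : G =ᶠ[𝓝 x] F) : A.SmAt k G x :=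
  fun i hi => (h i hi).congr_of_eventuallyEq ((symm_tendsto hi).eventually e)

theorem SmAt.ev {n : ℕ} (h : A.SmAt n F x) : ∀ᶠ y in 𝓝 x, A.SmAt n F y := by
  have hx := (A.idx_mem x).1
  filter_upwards [((A.e _).continuousAt hx).eventually ((h _ hx).eventually (by simp)),
    (A.e _).open_source.mem_nhds hx] with y h1 h2 using smAt_of h2 h1

theorem smAt_const (c : ℝ) : A.SmAt k (fun _ => c) x := fun _ _ => contDiffAt_const

theorem SmAt.add (h : A.SmAt k F x) (h' : A.SmAt k G x) : A.SmAt k (fun y => F y + G y) x :=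
  fun i hi => (h i hi).add (h' i hi)

theorem SmAt.sub (h : A.SmAt k F x) (h' : A.SmAt k G x) : A.SmAt k (fun y => F y - G y) x :=
  fun i hi => (h i hi).sub (h' i hi)

theorem SmAt.mul (h : A.SmAt k F x) (h' : A.SmAt k G x) : A.SmAt k (fun y => F y * G y) x :=
  fun i hi => (h i hi).mul (h' i hi)

theorem SmAt.comp {φ : ℝ → ℝ} (h : A.SmAt k F x) (hφ : ContDiffAt ℝ k φ (F x)) :
    A.SmAt k (fun y => φ (F y)) x := fun i hi =>
  ContDiffAt.comp (g := φ) _ (by simpa only [Function.comp_apply, (A.e i).left_inv hi] using hφ)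
    (h i hi)

theorem SmAt.sum {κ : Type} {s : Finset κ} {f : κ → M → ℝ} (h : ∀ l ∈ s, A.SmAt k (f l) x) :
    A.SmAt k (fun y => ∑ l ∈ s, f l y) x :=
  fun i hi => ContDiffAt.sum (f := fun l => f l ∘ (A.e i).symm) fun l hl => h l hl i hi

theorem Sm.at (h : A.Sm k F) (i : A.ι) {z : ℂ} (hz : z ∈ ball (0 : ℂ) 4) :
    ContDiffAt ℝ k (F ∘ (A.e i).symm) z := by
  have := h _ i (symm_mem i hz).1
  rwa [(symm_mem i hz).2] at this

theorem Sm.on (h : A.Sm k F) (i : A.ι) : ContDiffOn ℝ k (F ∘ (A.e i).symm) (ball 0 4) :=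
  fun _ hz => (h.at i hz).contDiffWithinAt

theorem Sm.continuous (h : A.Sm k F) : Continuous F :=
  continuous_iff_continuousAt.2 fun x => (h x).continuousAt

theorem sm_zero (h : Continuous F) : A.Sm 0 F := fun _ i hi =>
  (contDiffOn_zero.2 (h.comp_continuousOn (A.e i).continuousOn_symm)).contDiffAt
    ((A.e i).open_target.mem_nhds ((A.e i).map_source hi))

theorem sm_infty (h : ∀ n : ℕ, A.Sm n F) : A.Sm ∞ F :=
  fun x i hi => contDiffAt_infty.2 fun n => h n x i hi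

theorem ext_mem (Y : ℂ → ℝ) (hx : x ∈ (A.e i).source) : A.ext i Y x = Y (A.e i x) :=
  indicator_of_mem hx _

theorem ext_not (Y : ℂ → ℝ) (hx : x ∉ (A.e i).source) : A.ext i Y x = 0 :=
  indicator_of_notMem hx _

/-- off the compact set `(e i).symm '' closedBall 0 3` -/
theorem ev_far [T2Space M] (hx : x ∉ (A.e i).source) :
    ∀ᶠ y in 𝓝 x, y ∈ (A.e i).source → 3 < ‖A.e i y‖ := by
  have hs : closedBall (0 : ℂ) 3 ⊆ ball 0 4 := closedBall_subset_ball (by norm_num)
  have hK : IsCompact ((A.e i).symm '' closedBall 0 3) := (isCompact_closedBall _ _).image_of_continuousOn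
    ((A.e i).continuousOn_symm.mono (by rw [A.tgt]; exact hs))
  have hn : x ∉ (A.e i).symm '' closedBall 0 3 := by
    rintro ⟨z, hz, rfl⟩
    exact hx (symm_mem i (hs hz)).1
  filter_upwards [hK.isClosed.isOpen_compl.mem_nhds hn] with y hy hi
  by_contra h
  exact hy ⟨_, mem_closedBall_zero_iff.2 (not_lt.1 h), (A.e i).left_inv hi⟩

theorem ext_ev (Y : ℂ → ℝ) (hx : x ∈ (A.e i).source) :
    A.ext i Y ∘ (A.e i).symm =ᶠ[𝓝 (A.e i x)] Y := by
  filter_upwards [isOpen_ball.mem_nhds (map_mem hx)] with z hz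
  rw [Function.comp_apply, ext_mem _ (symm_mem i hz).1, (symm_mem i hz).2]

theorem ext_ev_zero [T2Space M] {Y : ℂ → ℝ} (h0 : ∀ z, 3 < ‖z‖ → Y z = 0)
    (hx : x ∉ (A.e i).source) : A.ext i Y =ᶠ[𝓝 x] fun _ => 0 := by
  filter_upwards [ev_far hx] with y hy
  by_cases h : y ∈ (A.e i).source
  · rw [ext_mem _ h, h0 _ (hy h)]
  · exact ext_not _ h

theorem sm_ext [T2Space M] (i : A.ι) {Y : ℂ → ℝ} (hY : ContDiffOn ℝ k Y (ball 0 4))
    (h0 : ∀ z, 3 < ‖z‖ → Y z = 0) : A.Sm k (A.ext i Y) := fun x => by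
  by_cases hx : x ∈ (A.e i).source
  · exact smAt_of hx ((hY.contDiffAt (isOpen_ball.mem_nhds (map_mem hx))).congr_of_eventuallyEq
      (ext_ev Y hx))
  · exact (smAt_const 0).congr (ext_ev_zero h0 hx)

theorem sm_be [T2Space M] (i : A.ι) : A.Sm ∞ (A.ext i be) :=
  sm_ext i be.contDiff.contDiffOn fun _ hz => be_zero (by linarith)

theorem ext_be_nonneg (i : A.ι) (x : M) : 0 ≤ A.ext i be x :=
  indicator_nonneg (fun _ _ => be.nonneg) x

theorem ext_be_idx (x : M) : A.ext (A.idx x) be x = 1 := by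
  rw [ext_mem _ (A.idx_mem x).1, be_one (A.idx_mem x).2.le]

theorem exists_pou [T2Space M] (A : Atl M) : ∃ θ : A.ι → M → ℝ, (∀ i, A.Sm ∞ (θ i)) ∧
    (∀ i x, θ i x ≠ 0 → x ∈ (A.e i).source ∧ ‖A.e i x‖ < 2) ∧ ∀ x, ∑ i, θ i x = 1 := by
  have hp : ∀ x, 0 < ∑ i, A.ext i be x := fun x =>
    Finset.sum_pos' (fun i _ => ext_be_nonneg i x)
      ⟨A.idx x, Finset.mem_univ _, by rw [ext_be_idx]; exact one_pos⟩
  refine ⟨fun i x => A.ext i be x * (∑ j, A.ext j be x)⁻¹, fun i x => (sm_be i x).mul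
    ((SmAt.sum fun j _ => sm_be j x).comp (φ := fun t => t⁻¹) (contDiffAt_inv ℝ (hp x).ne')),
    fun i x h => ?_, fun x => by rw [← Finset.sum_mul, mul_inv_cancel₀ (hp x).ne']⟩
  have h1 := left_ne_zero_of_mul h
  have hx : x ∈ (A.e i).source := by_contra fun hx => h1 (ext_not _ hx)
  exact ⟨hx, not_le.1 fun h2 => h1 (by rw [ext_mem _ hx, be_zero h2])⟩

theorem den_zero (i : A.ι) (f : M → ℝ) {z : ℂ} (hz : 2 ≤ ‖z‖) : A.den i f z = 0 := by
  rw [den, be_zero hz, zero_mul, zero_mul]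

theorem den_contDiff (i : A.ι) (h : A.Sm k F) (hk : k ≤ ∞) : ContDiff ℝ k (A.den i F) := by
  refine contDiff_iff_contDiffAt.2 fun z => ?_
  by_cases hz : z ∈ ball (0 : ℂ) 4
  · exact (((be.contDiff (n := ⊤)).of_le hk).contDiffAt.mul (contDiffAt_const.mul
      (((A.lam_sm i).contDiffAt (isOpen_ball.mem_nhds hz)).of_le hk)).exp).mul (h.at i hz)
  · refine (contDiffAt_const (c := (0 : ℝ))).congr_of_eventuallyEq ?_
    have : (2 : ℝ) < ‖z‖ := by
      rw [mem_ball_zero_iff] at hz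
      linarith
    filter_upwards [continuous_norm.continuousAt.eventually (lt_mem_nhds this)] with w hw
    exact den_zero i F hw.le

theorem den_bd (A : Atl M) (i : A.ι) : ∃ C : ℝ, 0 ≤ C ∧ ∀ (f : M → ℝ) (B : ℝ), (∀ x, |f x| ≤ B) →
    ∀ z, |A.den i f z| ≤ C * B := by
  obtain ⟨C, hC⟩ := (isCompact_closedBall (0 : ℂ) 2).exists_bound_of_continuousOn
    (f := fun z => Real.exp (2 * A.lam i z)) (continuousOn_const.mul
      ((A.lam_sm i).continuousOn.mono (closedBall_subset_ball (by norm_num)))).rexp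
  have C0 : 0 ≤ C := (norm_nonneg _).trans (hC 0 (mem_closedBall_self two_pos.le))
  refine ⟨C, C0, fun f B hf z => ?_⟩
  have B0 : 0 ≤ B := (abs_nonneg _).trans (hf ((A.e i).symm z))
  by_cases hz : 2 ≤ ‖z‖
  · rw [den_zero i f hz, abs_zero]
    positivity
  · rw [den, abs_mul, abs_mul, abs_of_nonneg be.nonneg]
    refine mul_le_mul ?_ (hf _) (abs_nonneg _) C0
    exact (mul_le_of_le_one_left (abs_nonneg _) be.le_one).trans
      (hC z (mem_closedBall_zero_iff.2 (not_le.1 hz).le))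

end Atl

end

end Pool.Agent.Lib.MP_21f752_an.U
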