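import Pool.Agent.Lib.MP_21f752_an.U.Atl

/-! The Beltrami equation. -/

namespace Pool.Agent.Lib.MP_21f752_an.U

open Set Filter Topology Metric MeasureTheory Pool.Agent.Lib.MP_1c0d65_gt
open Complex (I)
open scoped ContDiff Laplacian UpperHalfPlane Manifold MatrixGroups

noncomputable section

/-- supported in the disc of radius `ρ ^ 2`, with Hoelder constant `H` -/
structure BelH (ρ H : ℝ) (h : ℂ → ℂ) : Prop where
  bd : ∀ s, ‖h s‖ ≤ H * ρ
  supp : ∀ s, s ∉ ball (0 : ℂ) (ρ ^ 2) → h s = 0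
  hol : ∀ s s', ‖h s - h s'‖ ≤ H * √‖s - s'‖

namespace BelH
variable {ρ H k : ℝ} {h ν : ℂ → ℂ}

theorem bs (a : BelH ρ H h) : A.BS (H * ρ) 0 (ρ ^ 2) h :=
  ⟨(A.continuous_of_hol a.hol).aestronglyMeasurable, a.bd, a.supp⟩

theorem nonneg (a : BelH ρ H h) : 0 ≤ H := A.hol_nonneg (z := 0) fun s => a.hol s 0

theorem S_le (a : BelH ρ H h) (hρ : 0 < ρ) {z : ℂ} (hz : z ∈ ball (0 : ℂ) (ρ ^ 2)) :
    ‖A.S h z‖ ≤ 8 * H * ρ := by
  have p : 0 < ρ ^ 2 := by positivity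
  have k := a.bs.S_le' (z := z) (fun s => a.hol s z) (ρ := (2 * ρ) ^ 2) (by positivity)
    (ball_subset_ball' (by
      rw [dist_comm]
      nlinarith [mem_ball.1 hz]))
  rw [Real.sqrt_sq (by positivity)] at k
  linarith

theorem mul (b : BelH ρ k ν) (a : BelH ρ H h) (hρ : 0 < ρ) (hk : 216 * (k * ρ) ≤ 1) :
    BelH ρ (H / 2) fun z => ν z * A.S h z := by
  have k0 := b.nonneg
  have H0 := a.nonneg
  have key : ∀ x ∈ ball (0 : ℂ) (ρ ^ 2), ∀ y,
      ‖ν x * A.S h x - ν y * A.S h y‖ ≤ H / 2 * √‖x - y‖ := fun x hx y => by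
    rw [show ν x * A.S h x - ν y * A.S h y = (ν x - ν y) * A.S h x + ν y * (A.S h x - A.S h y) by ring]
    refine (norm_add_le _ _).trans ?_
    rw [norm_mul, norm_mul]
    have q := Real.sqrt_nonneg ‖x - y‖
    have h1 := mul_le_mul (b.hol x y) (a.S_le hρ hx) (norm_nonneg _) (by positivity)
    have h2 := mul_le_mul (b.bd y) (a.bs.S_hol a.hol x y) (norm_nonneg _) (by positivity)
    nlinarith [mul_le_mul_of_nonneg_right hk (mul_nonneg H0 q)]
  refine ⟨fun s => ?_, fun s hs => by rw [b.supp s hs, zero_mul], fun x y => ?_⟩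
  · by_cases hs : s ∈ ball (0 : ℂ) (ρ ^ 2)
    · rw [norm_mul]
      have h1 := mul_le_mul (b.bd s) (a.S_le hρ hs) (norm_nonneg _) (by positivity)
      nlinarith [mul_le_mul_of_nonneg_right hk (mul_nonneg H0 hρ.le), mul_nonneg H0 hρ.le]
    · rw [b.supp s hs, zero_mul, norm_zero]
      positivity
  · by_cases hx : x ∈ ball (0 : ℂ) (ρ ^ 2)
    · exact key x hx y
    by_cases hy : y ∈ ball (0 : ℂ) (ρ ^ 2)
    · rw [norm_sub_rev, norm_sub_rev x]
      exact key y hy x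
    · rw [b.supp x hx, b.supp y hy, zero_mul, zero_mul, sub_zero, norm_zero]
      positivity

end BelH

theorem bel_geo (c : ℝ) : HasSum (fun n : ℕ => c / 2 ^ n) (2 * c) := by
  have h := hasSum_geometric_two' (2 * c)
  rwa [mul_div_cancel_left₀ _ two_ne_zero] at h

theorem bel_sum {ρ H : ℝ} {u : ℕ → ℂ → ℂ} (h : ∀ n, BelH ρ (H / 2 ^ n) (u n)) :
    (∀ z, Summable fun n => u n z) ∧ BelH ρ (2 * H) fun z => ∑' n, u n z := by
  have b : ∀ z n, ‖u n z‖ ≤ H * ρ / 2 ^ n := fun z n => ((h n).bd z).trans_eq (by ring)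
  have s : ∀ z, Summable fun n => u n z := fun z => (bel_geo _).summable.of_norm_bounded (b z)
  refine ⟨s, fun z => ?_, fun z hz => ?_, fun x y => ?_⟩
  · exact (tsum_of_norm_bounded (bel_geo _) (b z)).trans_eq (by ring)
  · simp only [fun n => (h n).supp z hz, tsum_zero]
  · rw [← (s x).tsum_sub (s y)]
    exact (tsum_of_norm_bounded (bel_geo (H * √‖x - y‖))
      fun n => ((h n).hol x y).trans_eq (by ring)).trans_eq (by ring)

/-- the Neumann series -/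
theorem bel_fix {ρ k : ℝ} {ν : ℂ → ℂ} (b : BelH ρ k ν) (hρ : 0 < ρ) (hk : 216 * (k * ρ) ≤ 1) :
    ∃ h, BelH ρ (2 * k) h ∧ ∀ z, h z = ν z * (1 + A.S h z) := by
  obtain ⟨u, u0, us⟩ : ∃ u : ℕ → ℂ → ℂ, u 0 = ν ∧ ∀ n, u (n + 1) = fun z => ν z * A.S (u n) z :=
    ⟨fun n => (fun f z => ν z * A.S f z)^[n] ν, rfl, fun n => Function.iterate_succ_apply' _ _ _⟩
  have hu : ∀ n, BelH ρ (k / 2 ^ n) (u n) := fun n => by
    induction n with
    | zero => rwa [u0, pow_zero, div_one]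
    | succ n ih =>
      rw [us, pow_succ, ← div_div]
      exact b.mul ih hρ hk
  obtain ⟨t, ht⟩ : ∃ t : ℕ → ℂ → ℂ, ∀ n, t n = fun z => ∑' j, u (j + n) z := ⟨_, fun _ => rfl⟩
  have hs := fun n => bel_sum (H := k / 2 ^ n) (u := fun j => u (j + n)) fun j => by
    rw [div_div, ← pow_add, add_comm n]
    exact hu _
  have tb : ∀ n, BelH ρ (2 * (k / 2 ^ n)) (t n) := fun n => ht n ▸ (hs n).2
  have ts : ∀ n, t n = fun z => u n z + t (n + 1) z := fun n => funext fun z => by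
    simp only [ht]
    rw [((hs n).1 z).tsum_eq_zero_add, zero_add]
    simp only [add_assoc, add_comm 1 n]
  have e : ∀ z n, ν z * A.S (t n) z - t (n + 1) z = ν z * A.S (t 0) z - t 1 z := fun z n => by
    induction n with
    | zero => rfl
    | succ n ih =>
      have a := A.S_add ((hu n).bs.S_int (z := z) fun s => (hu n).hol s z)
        ((tb (n + 1)).bs.S_int (z := z) fun s => (tb (n + 1)).hol s z)
      rw [← ts n] at a
      rw [← ih, a, congrFun (ts (n + 1)) z, us]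
      ring
  have t0 := tb 0
  rw [pow_zero, div_one] at t0
  refine ⟨t 0, t0, fun z => ?_⟩
  have z0 : ν z * A.S (t 0) z - t 1 z = 0 := by
    refine norm_le_zero_iff.1 (ge_of_tendsto' (bel_geo (2 * (k * ρ))).summable.tendsto_atTop_zero
      fun n => ?_)
    rw [← e z n]
    refine (norm_sub_le _ _).trans
      ((add_le_add ((b.mul (tb n) hρ hk).bd z) ((tb (n + 1)).bd z)).trans_eq ?_)
    rw [pow_succ]
    field_simp
    ring
  rw [congrFun (ts 0) z, u0]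
  linear_combination -z0

theorem bel_cut {μ : ℂ → ℂ} {ρ L : ℝ} (hρ : 0 < ρ) (hL : 0 ≤ L) (h0 : μ 0 = 0)
    (h : ∀ x ∈ ball (0 : ℂ) (ρ ^ 2), ∀ y ∈ ball (0 : ℂ) (ρ ^ 2), ‖μ x - μ y‖ ≤ L * ‖x - y‖) :
    ∃ ν, BelH ρ (4 * L * ρ) ν ∧ ∀ z ∈ ball (0 : ℂ) (ρ ^ 2 / 2), ν z = μ z := by
  have p : 0 < ρ ^ 2 := by positivity
  obtain ⟨χ, hχ⟩ : ∃ χ : ℂ → ℝ, ∀ x, χ x = max (min 1 (2 - 2 / ρ ^ 2 * ‖x‖)) 0 := ⟨_, fun _ => rfl⟩
  have c0 : ∀ x, 0 ≤ χ x := fun x => hχ x ▸ le_max_right _ _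
  have c1 : ∀ x, χ x ≤ 1 := fun x => hχ x ▸ max_le (min_le_left _ _) zero_le_one
  have cs : ∀ x, x ∉ ball (0 : ℂ) (ρ ^ 2) → χ x = 0 := fun x hx => by
    rw [mem_ball_zero_iff, not_lt] at hx
    refine (hχ x).trans (max_eq_right ((min_le_right _ _).trans ?_))
    rw [sub_nonpos, div_mul_eq_mul_div, le_div_iff₀ p]
    linarith
  have cl := A.hol_of_lip (L := (2 / ρ) ^ 2) (by positivity) c0 c1 fun x y => by
    rw [hχ, hχ]
    refine (abs_max_sub_max_le_abs _ _ _).trans ((abs_min_sub_min_le_max _ _ _ _).trans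
      (max_le (by rw [sub_self, abs_zero]; positivity) ?_))
    rw [sub_sub_sub_cancel_left, ← mul_sub, abs_mul, abs_of_pos (by positivity), norm_sub_rev]
    refine mul_le_mul ?_ (abs_norm_sub_norm_le _ _) (abs_nonneg _) (by positivity)
    rw [div_pow]
    exact div_le_div_of_nonneg_right (by norm_num) p.le
  rw [Real.sqrt_sq (by positivity)] at cl
  have hb : ∀ s ∈ ball (0 : ℂ) (ρ ^ 2), ‖μ s‖ ≤ L * ρ ^ 2 := fun s hs => by
    have k := h s hs 0 (mem_ball_self p)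
    rw [h0, sub_zero, sub_zero] at k
    exact k.trans (mul_le_mul_of_nonneg_left (mem_ball_zero_iff.1 hs).le hL)
  refine ⟨fun z => χ z • μ z, ⟨fun s => ?_, fun s hs => by rw [cs s hs, zero_smul], fun x y => ?_⟩,
    fun z hz => ?_⟩
  · by_cases hs : s ∈ ball (0 : ℂ) (ρ ^ 2)
    · rw [norm_smul, Real.norm_of_nonneg (c0 s)]
      nlinarith [mul_le_mul (c1 s) (hb s hs) (norm_nonneg _) zero_le_one, mul_nonneg hL p.le]
    · rw [cs s hs, zero_smul, norm_zero]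
      positivity
  · refine (A.hol_cut (H := L * (2 * ρ)) (by positivity) (by positivity) (by positivity) c0 c1 cl cs hb
      (fun s hs s' hs' => (h s hs s' hs').trans ?_) x y).trans_eq ?_
    · have k := A.est_sqrt hs hs'
      rw [Real.sqrt_sq hρ.le] at k
      rw [mul_assoc]
      exact mul_le_mul_of_nonneg_left k hL
    · field_simp
      ring
  · have k : 1 ≤ 2 - 2 / ρ ^ 2 * ‖z‖ := by
      rw [le_sub_comm, div_mul_eq_mul_div, div_le_iff₀ p]
      linarith [mem_ball_zero_iff.1 hz]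
    simp only [hχ, min_eq_left k, max_eq_left (zero_le_one' ℝ), one_smul]

/-- hint: `μ t z = χ z * μ (t z)` has small sup and Hoelder norms for small `t`; Neumann series
`h = ∑ (μ S)^n μ` (`BS.S_le'`, `BS.S_hol`, `S_add`), `w = z + T h` (`BS.T_hasFDerivAt`), rescale -/
theorem beltrami {μ : ℂ → ℂ} (hμ : ContDiffAt ℝ 1 μ 0) (h0 : μ 0 = 0) :
    ∃ w : ℂ → ℂ, (fderiv ℝ w 0).IsInvertible ∧ ∀ᶠ z in 𝓝 (0 : ℂ), ContDiffAt ℝ 1 w z ∧
      A.db (fderiv ℝ w z) = μ z * A.dz (fderiv ℝ w z) := by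
  obtain ⟨L, t, ht, hL⟩ := hμ.exists_lipschitzOnWith
  obtain ⟨ε, hε, sub⟩ := Metric.mem_nhds_iff.1 ht
  have L0 : (0 : ℝ) ≤ L := L.2
  obtain ⟨ρ, hρ, r1, r2⟩ : ∃ ρ : ℝ, 0 < ρ ∧ ρ ^ 2 ≤ ε ∧ ρ ^ 2 * (864 * (L + 1)) ≤ 1 := by
    have p : 0 < min ε (1 / (864 * (L + 1))) := by positivity
    refine ⟨√(min ε (1 / (864 * (L + 1)))), Real.sqrt_pos.2 p, ?_⟩
    rw [Real.sq_sqrt p.le]
    exact ⟨min_le_left _ _, (le_div_iff₀ (by positivity)).1 (min_le_right _ _)⟩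
  have p : 0 < ρ ^ 2 := by positivity
  have s := (ball_subset_ball r1).trans sub
  obtain ⟨ν, b, e⟩ := bel_cut hρ L0 h0 fun x hx y hy => hL.norm_sub_le (s hx) (s hy)
  have hk : 216 * (4 * L * ρ * ρ) ≤ 1 := by nlinarith
  obtain ⟨h, a, f⟩ := bel_fix b hρ hk
  have d : ∀ z, fderiv ℝ (fun z => z + A.T h z) z = A.lin (1 + A.S h z) (h z) := fun z => by
    refine ((hasFDerivAt_id z).fun_add (a.bs.T_hasFDerivAt fun s => a.hol s z)).fderiv.trans
      (ContinuousLinearMap.ext fun v => ?_)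
    simp only [add_apply, ContinuousLinearMap.id_apply, A.lin_app, smul_eq_mul]
    ring
  refine ⟨fun z => z + A.T h z, ?_, ?_⟩
  · have ne : 1 + A.S h 0 ≠ 0 := fun k => by
      have l := a.S_le hρ (mem_ball_self p)
      rw [eq_neg_of_add_eq_zero_right k, norm_neg, norm_one] at l
      nlinarith
    rw [d, f 0, e 0 (mem_ball_self (half_pos p)), h0, zero_mul]
    refine ContinuousLinearMap.IsInvertible.of_inverse (g := A.lin (1 + A.S h 0)⁻¹ 0) ?_ ?_ <;>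
      refine ContinuousLinearMap.ext fun v => ?_ <;>
      simp only [ContinuousLinearMap.comp_apply, ContinuousLinearMap.id_apply, A.lin_app, smul_eq_mul,
        mul_zero, add_zero] <;> field_simp
  · filter_upwards [ball_mem_nhds (0 : ℂ) (half_pos p)] with z hz
    refine ⟨(contDiff_id.add (a.bs.T_contDiff a.hol)).contDiffAt, ?_⟩
    rw [d, A.db_lin, A.dz_lin, ← e z hz, ← f]

end

end Pool.Agent.Lib.MP_21f752_an.U
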