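import Pool.Agent.Lib.MP_21f752_an.U.CocA
import Pool.Agent.Lib.MP_21f752_an.U.Bas

/-! Smooth cocycles. -/

namespace Pool.Agent.Lib.MP_21f752_an.U

open Set Filter Topology Metric MeasureTheory Pool.Agent.Lib.MP_1c0d65_gt
open Complex (I)
open scoped ContDiff Laplacian UpperHalfPlane Manifold MatrixGroups

noncomputable section

namespace Atl
variable {M : Type} [TopologicalSpace M] (A : Atl M)

/-- the value on a path in a chart is a difference of values on rays -/
theorem cocb_key {c : (ℂ → M) → ℂ → ℂ → ℝ}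
    (ad : ∀ (H : ℂ → M) (C : Set ℂ), Convex ℝ C → ContinuousOn H C →
      ∀ p ∈ C, ∀ q ∈ C, ∀ r ∈ C, c H p q + c H q r = c H p r)
    (pa : ∀ (H H' : ℂ → M) (p q p' q' : ℂ),
      (∀ t : ℝ, t ∈ Icc (0 : ℝ) 1 → H ((1 - t) • p + t • q) = H' ((1 - t) • p' + t • q')) →
      c H p q = c H' p' q') (i : A.ι) {H : ℂ → M} {C : Set ℂ} (hC : Convex ℝ C)
    (hH : ContinuousOn H C) (m : MapsTo H C (A.e i).source) {p q : ℂ} (hp : p ∈ C) (hq : q ∈ C) :
    c H p q = c (A.e i).symm 0 (A.e i (H q)) - c (A.e i).symm 0 (A.e i (H p)) := by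
  let R : Set ℂ := {z | z.re ∈ Icc (0 : ℝ) 1 ∧ z.im ∈ Icc (0 : ℝ) 1}
  have cR : Convex ℝ R := ((convex_Icc 0 1).linear_preimage Complex.reLm).inter
    ((convex_Icc 0 1).linear_preimage Complex.imLm)
  have s : ∀ t ∈ Icc (0 : ℝ) 1, (1 - t) • p + t • q ∈ C := fun t ht =>
    hC hp hq (sub_nonneg.2 ht.2) ht.1 (sub_add_cancel _ _)
  let Q : ℂ → M := fun z => (A.e i).symm (z.re • A.e i (H ((1 - z.im) • p + z.im • q)))
  have cQ : ContinuousOn Q R := by
    refine (A.e i).continuousOn_symm.comp (Complex.continuous_re.continuousOn.smul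
      ((A.e i).continuousOn.comp (hH.comp (by fun_prop) fun z hz => s _ hz.2)
        fun z hz => m (s _ hz.2))) fun z hz => ?_
    rw [A.tgt]
    exact (convex_ball 0 4).smul_mem_of_zero_mem (mem_ball_self four_pos) (map_mem (m (s _ hz.2)))
      hz.1
  have r0 : (0 : ℂ) ∈ R := by simp [R]
  have r1 : (1 : ℂ) ∈ R := by simp [R]
  have r2 : I ∈ R := by simp [R]
  have r3 : 1 + I ∈ R := by simp [R]
  have e1 : c Q 0 1 = c (A.e i).symm 0 (A.e i (H p)) := pa _ _ _ _ _ _ fun t _ => by simp [Q]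
  have e2 : c Q 1 (1 + I) = c H p q := pa _ _ _ _ _ _ fun t ht => by
    have a : ((1 - t) • (1 : ℂ) + t • (1 + I)).re = 1 := by simp
    have b : ((1 - t) • (1 : ℂ) + t • (1 + I)).im = t := by simp
    simp only [Q, a, b, one_smul]
    exact (A.e i).left_inv (m (s t ht))
  have e3 : c Q 0 I = c Q 0 0 := pa _ _ _ _ _ _ fun t _ => by simp [Q]
  have e4 : c Q I (1 + I) = c (A.e i).symm 0 (A.e i (H q)) := pa _ _ _ _ _ _ fun t _ => by
    have a : ((1 - t) • I + t • (1 + I)).re = t := by simp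
    have b : ((1 - t) • I + t • (1 + I)).im = 1 := by simp
    simp only [Q, a, b]
    simp
  linarith [ad Q R cR cQ 0 r0 1 r1 _ r3, ad Q R cR cQ 0 r0 _ r2 _ r3, ad Q R cR cQ 0 r0 0 r0 0 r0]

/-- hint: `u k i x = c k (e i).symm 0 (e i x)`. For `H` continuous on a convex `C` with values in
`source i`: `c H p q = u i (H q) - u i (H p)` (use the square
`s + t I ↦ (e i).symm (s • e i (H ((1-t) p + t q)))` and its two triangles; a constant path has
value zero). So `u i - u j` is locally constant; `v i = ∑ j, θ j * (u i - u j)`. -/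
theorem exists_coc [T2Space M] (h : 4 ≤ betti1 M) : ∃ v : Fin 4 → A.ι → M → ℝ,
    (∀ k, A.Coc (v k)) ∧ ∀ a : Fin 4 → ℝ, A.Triv (fun i x => ∑ k, a k * v k i x) → a = 0 := by
  obtain ⟨c, ad, pa, nz⟩ := exists_cc M h
  obtain ⟨θ, θ1, θ2, θ3⟩ := A.exists_pou
  obtain ⟨u, hu⟩ : ∃ u : Fin 4 → A.ι → M → ℝ, ∀ k i x, u k i x = c k (A.e i).symm 0 (A.e i x) :=
    ⟨_, fun _ _ _ => rfl⟩
  have lc : ∀ k i j x, x ∈ (A.e i).source → x ∈ (A.e j).source →
      ∀ᶠ y in 𝓝 x, u k i y - u k j y = u k i x - u k j x := fun k i j x hi hj => by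
    obtain ⟨ε, p, b⟩ := Metric.mem_nhds_iff.1 (inter_mem (isOpen_ball.mem_nhds (map_mem hi))
      ((symm_tendsto hi).eventually ((A.e j).open_source.mem_nhds hj)))
    have cs : ContinuousOn (A.e i).symm (ball (A.e i x) ε) :=
      (A.e i).continuousOn_symm.mono fun z hz => A.tgt i ▸ (b hz).1
    rw [ev_chart hi]
    filter_upwards [ball_mem_nhds _ p] with z hz
    have e1 := A.cocb_key (ad k) (pa k) i (convex_ball _ _) cs
      (fun z hz => (symm_mem i (b hz).1).1) (mem_ball_self p) hz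
    have e2 := A.cocb_key (ad k) (pa k) j (convex_ball _ _) cs (fun z hz => (b hz).2)
      (mem_ball_self p) hz
    rw [(A.e i).left_inv hi] at e1 e2
    simp only [hu]
    linarith
  have sp : ∀ k i x, ∑ j, θ j x * (u k i x - u k j x) = u k i x - ∑ j, θ j x * u k j x :=
    fun k i x => by simp only [mul_sub, Finset.sum_sub_distrib, ← Finset.sum_mul, θ3, one_mul]
  refine ⟨fun k i x => ∑ j, θ j x * (u k i x - u k j x),
    fun k => ⟨fun i x hi => SmAt.sum fun j _ => ?_, fun i j x hi hj => ?_⟩, fun a ⟨F, hF⟩ => ?_⟩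
  · by_cases hj : x ∈ (A.e j).source
    · exact ((θ1 j x).mul (smAt_const (u k i x - u k j x))).congr
        ((lc k i j x hi hj).mono fun y hy => congrArg (θ j y * ·) hy)
    · refine (smAt_const 0).congr ((ev_far hj).mono fun y hy => ?_)
      have : θ j y = 0 := by
        by_contra n
        linarith [hy (θ2 j y n).1, (θ2 j y n).2]
      simp only [this, zero_mul]
  · filter_upwards [lc k i j x hi hj] with y hy
    simp only [sp]
    linarith
  refine nz a (fun x => F x + ∑ k, a k * ∑ j, θ j x * u k j x) fun H cH p => ?_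
  have hi := (A.idx_mem (H p)).1
  obtain ⟨ε, q, b⟩ := Metric.mem_nhds_iff.1
    (cH.continuousAt.preimage_mem_nhds ((A.e _).open_source.mem_nhds hi))
  filter_upwards [ball_mem_nhds _ q, cH.continuousAt.eventually (hF _ _ hi)] with z hz e
  simp only [fun k => A.cocb_key (ad k) (pa k) _ (convex_ball _ _) cH.continuousOn b
    (mem_ball_self q) hz, ← hu]
  simp only [sp] at e
  simp only [mul_sub, Finset.sum_sub_distrib] at e ⊢
  linarith

end Atl

end

end Pool.Agent.Lib.MP_21f752_an.U
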