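import Pool.Agent.Lib.MP_21f752_an.U.Lin
import Pool.Agent.Lib.MP_21f752_an.U.CocB

/-! The mean curvature is negative. -/

namespace Pool.Agent.Lib.MP_21f752_an.U

open Set Filter Topology Metric MeasureTheory Pool.Agent.Lib.MP_1c0d65_gt
open Complex (I)
open scoped ContDiff Laplacian UpperHalfPlane Manifold MatrixGroups

noncomputable section

namespace Atl
variable {M : Type} [TopologicalSpace M] (A : Atl M)

/-- the length of the differential of a cocycle, read in the chart `i` -/
def bochS (v : A.ι → M → ℝ) (i : A.ι) (z : ℂ) : ℝ :=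
  ‖grd (v i ∘ (A.e i).symm) z‖ * Real.exp (-A.lam i z)

theorem boch_tr {v : A.ι → M → ℝ} (hv : A.Coc v) {i j : A.ι} {x : M} (hi : x ∈ (A.e i).source)
    (hj : x ∈ (A.e j).source) : A.bochS v i (A.e i x) = A.bochS v j (A.e j x) := by
  have a : v i ∘ (A.e i).symm =ᶠ[𝓝 (A.e i x)] fun z => (v j ∘ (A.e i).symm) z + (v i x - v j x) :=
    ((ev_chart hi).1 (hv.lc i j x hi hj)).mono fun z h => by
      simp only [Function.comp_apply]; linarith
  have e : (A.e j ∘ (A.e i).symm) (A.e i x) = A.e j x := by simp [(A.e i).left_inv hi]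
  have b : grd (v i ∘ (A.e i).symm) (A.e i x) = grd (v j ∘ (A.e i).symm) (A.e i x) := by
    rw [(grd_congr a).self_of_nhds]
    simp only [grd, fderiv_add_const]
  have n := norm_ne_zero_iff.2 (deriv_ne hi hj)
  rw [bochS, bochS, b, (grd_congr (comp_ev (v j) hi hj)).self_of_nhds,
    grd_holo (A.hol i j x hi hj).differentiableAt
      (e ▸ (hv.sm j x hj j hj).differentiableAt (by simp)), e, norm_mul, Real.exp_neg,
    Real.exp_neg, A.lam_tr i j x hi hj]
  field_simp

theorem boch_an {v : A.ι → M → ℝ} (hv : A.Coc v)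
    (hh : ∀ i x, x ∈ (A.e i).source → A.lap (v i) x = 0) (i : A.ι) {z : ℂ}
    (hz : z ∈ ball (0 : ℂ) 4) : AnalyticAt ℂ (grd (v i ∘ (A.e i).symm)) z := by
  refine grd_analytic (mem_of_superset (isOpen_ball.mem_nhds hz) fun w hw => ?_)
  obtain ⟨a, b⟩ := symm_mem (A := A) i hw
  have c := (hv.sm i _ a).of_le two_le_infty
  have d := (lap_eq c a).symm.trans (hh i _ a)
  have c := c i a
  rw [lapi, mul_eq_zero, b] at d
  exact ⟨b ▸ c, d.resolve_left (Real.exp_ne_zero _)⟩

/-- hint: `s x = ‖grd (v i ∘ (e i).symm) (e i x)‖ * exp (-lam i (e i x))` does not depend on `i`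
(`grd_holo`, `lam_tr`); at a maximum with `s > 0`, `log s = log ‖φ‖ - lam i` has flat Laplacian
`K exp (2 lam i)` (`grd_analytic`, `lap_log_norm`, `lap_max`, `harm_max`) -/
theorem boch [CompactSpace M] [ConnectedSpace M] (hK : (∀ x, 0 < A.K x) ∨ ∀ x, A.K x = 0)
    {v : A.ι → M → ℝ} (hv : A.Coc v) (hh : ∀ i x, x ∈ (A.e i).source → A.lap (v i) x = 0)
    {p : M} {i : A.ι} (hp : p ∈ (A.e i).source) (h0 : grd (v i ∘ (A.e i).symm) (A.e i p) = 0) :
    A.Triv v := by
  let s : M → ℝ := fun x => A.bochS v (A.idx x) (A.e (A.idx x) x)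
  have es (j x) (hx : x ∈ (A.e j).source) : s x = A.bochS v j (A.e j x) :=
    A.boch_tr hv (A.idx_mem x).1 hx
  have ez (j z) (hz : z ∈ ball (0 : ℂ) 4) : s ((A.e j).symm z) = A.bochS v j z := by
    rw [es j _ (symm_mem j hz).1, (symm_mem j hz).2]
  have cs : Continuous s := continuous_iff_continuousAt.2 fun x => by
    have hx := (A.idx_mem x).1
    have a : ContinuousAt (A.bochS v (A.idx x)) (A.e (A.idx x) x) :=
      (A.boch_an hv hh _ (map_mem hx)).continuousAt.norm.mul (lam_at hx).continuousAt.neg.rexp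
    exact (a.comp ((A.e _).continuousAt hx)).congr
      (mem_of_superset ((A.e _).open_source.mem_nhds hx) fun y hy => (es _ y hy).symm)
  obtain ⟨x₀, -, hm⟩ := isCompact_univ.exists_isMaxOn univ_nonempty cs.continuousOn
  have sp : s p = 0 := by rw [es i p hp, bochS, h0, norm_zero, zero_mul]
  have key : s x₀ ≤ 0 := by
    by_contra pos
    rw [not_le] at pos
    have op : IsOpen {x | s x = s x₀} := isOpen_iff_mem_nhds.2 fun x (hx : s x = s x₀) => by
      obtain ⟨j, hj, -⟩ := A.cov x
      let G : ℂ → ℝ := (fun w => Real.log ‖grd (v j ∘ (A.e j).symm) w‖) - A.lam j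
      have ev : ∀ᶠ w in 𝓝 (A.e j x), 0 < s ((A.e j).symm w) ∧ G w = Real.log (s ((A.e j).symm w)) ∧
          ContDiffAt ℝ 2 G w ∧ Δ G w = Real.exp (2 * A.lam j w) * A.K ((A.e j).symm w) := by
        filter_upwards [isOpen_ball.mem_nhds (map_mem hj), (ev_chart hj).1
          (cs.continuousAt.eventually (lt_mem_nhds (hx ▸ pos : 0 < s x)))] with w hw p
        obtain ⟨a, b⟩ := symm_mem (A := A) j hw
        have n : grd (v j ∘ (A.e j).symm) w ≠ 0 := fun e => by
          simp [ez j w hw, bochS, e] at p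
        obtain ⟨l1, l2⟩ := lap_log_norm (A.boch_an hv hh j hw) n
        have l3 := (lam_at a).of_le two_le_infty
        rw [b] at l3
        refine ⟨p, ?_, (l1.of_le two_le_infty).sub l3, ?_⟩
        · rw [ez j w hw, bochS, Real.log_mul (norm_ne_zero_iff.2 n) (Real.exp_ne_zero _),
            Real.log_exp]
          rfl
        · rw [(l1.of_le two_le_infty).laplacian_sub l3, l2, K_eq a, Ki, b, ← mul_assoc, mul_neg,
            ← Real.exp_add]
          simp
      obtain ⟨-, g0, g1, g2⟩ := ev.self_of_nhds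
      rw [(A.e j).left_inv hj] at g0 g2
      have mx : IsLocalMax G (A.e j x) := ev.mono fun w h => by
        rw [h.2.1, g0, hx]
        exact Real.log_le_log h.1 (hm (mem_univ _))
      rcases hK with hK | hK
      · exact absurd (lap_max g1 mx) (by rw [g2]; exact (mul_pos (Real.exp_pos _) (hK x)).not_ge)
      refine (ev_chart (P := fun y => s y = s x₀) hj).2 ?_
      filter_upwards [ev, harm_max (ev.mono fun w h => ⟨h.2.2.1, by rw [h.2.2.2, hK, mul_zero]⟩) mx]
        with w h k
      rw [h.2.1, g0, hx] at k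
      exact Real.log_injOn_pos h.1 pos k
    have := (IsClopen.eq_univ ⟨isClosed_eq cs continuous_const, op⟩ ⟨x₀, rfl⟩).ge (mem_univ p)
    exact pos.ne (sp.symm.trans this)
  refine ⟨fun _ => 0, fun j x hx => mem_of_superset ((A.e j).open_source.mem_nhds hx) fun y hy => ?_⟩
  have := isOpen_ball.is_const_of_fderiv_eq_zero (𝕜 := ℝ) (f := v j ∘ (A.e j).symm)
    (convex_ball (0 : ℂ) 4).isPreconnected (fun z hz => ?_) (fun z hz => ?_) (map_mem hy) (map_mem hx)
  · simpa [(A.e j).left_inv hx, (A.e j).left_inv hy] using this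
  · obtain ⟨a, b⟩ := symm_mem (A := A) j hz
    exact (b ▸ (hv.sm j _ a j a).differentiableAt (by simp)).differentiableWithinAt
  · have a := (hm (mem_univ ((A.e j).symm z))).trans key
    rw [ez j z hz, bochS] at a
    have b := norm_le_zero_iff.1 (nonpos_of_mul_nonpos_left a (Real.exp_pos _))
    ext ξ
    simp [fderiv_grd, b]

theorem boch_lap {v : A.ι → M → ℝ} (hv : A.Coc v) {i j : A.ι} {x : M} (hi : x ∈ (A.e i).source)
    (hj : x ∈ (A.e j).source) : A.lap (v i) x = A.lap (v j) x := by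
  rw [lap_congr (G := fun y => v j y + (v i x - v j x))
    ((hv.lc i j x hi hj).mono fun y h => by linarith),
    lap_add ((hv.sm j x hj).of_le two_le_infty) (smAt_const _), lap_const, add_zero]

theorem boch_no [CompactSpace M] [T2Space M] [ConnectedSpace M] (h : 4 ≤ betti1 M) :
    ¬((∀ x, 0 < A.K x) ∨ ∀ x, A.K x = 0) := by
  intro hK
  obtain ⟨v, hv, ind⟩ := A.exists_coc h
  have sg (k) : A.Sm ∞ fun x => A.lap (v k (A.idx x)) x := fun x => by
    have N := (A.e _).open_source.mem_nhds (A.idx_mem x).1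
    exact (smAt_lap (mem_of_superset N fun y hy => (hv k).sm _ y hy)).congr
      (mem_of_superset N fun y hy => A.boch_lap (hv k) (A.idx_mem y).1 hy)
  choose F c hF eF using fun k => A.solve_zero (sg k)
  obtain ⟨p⟩ : Nonempty M := inferInstance
  obtain ⟨i, hp, -⟩ := A.cov p
  obtain ⟨a, ha, k₀, hk⟩ := Fintype.not_linearIndependent_iff.1 fun l : LinearIndependent ℝ
      fun k => (c k, grd ((fun x => v k i x - F k x) ∘ (A.e i).symm) (A.e i p)) => by
    have := l.fintype_card_le_finrank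
    simp at this
  have a1 : ∑ k, a k * c k = 0 := by simpa [Prod.fst_sum] using congrArg Prod.fst ha
  have a2 : ∑ k, (a k : ℂ) * grd ((fun x => v k i x - F k x) ∘ (A.e i).symm) (A.e i p) = 0 := by
    simpa [Prod.snd_sum] using congrArg Prod.snd ha
  have sm (k j x) (hx : x ∈ (A.e j).source) : A.SmAt ∞ (fun y => v k j y - F k y) x :=
    ((hv k).sm j x hx).sub (hF k x)
  have tr := A.boch hK (v := fun j x => ∑ k, a k * (v k j x - F k x))
    ⟨fun j x hx => SmAt.sum fun k _ => (smAt_const _).mul (sm k j x hx), fun j l x hj hl =>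
      (eventually_all.2 fun k => (hv k).lc j l x hj hl).mono fun y e => by
        simp only [← Finset.sum_sub_distrib, ← mul_sub, sub_sub_sub_cancel_right, e]⟩
    (fun j x hx => ?_) hp (grd_ext fun ξ => ?_)
  · obtain ⟨G, hG⟩ := tr
    refine hk (congrFun (ind a ⟨fun x => G x + ∑ k, a k * F k x, fun j x hx =>
      (hG j x hx).mono fun y e => ?_⟩) k₀)
    simp only [mul_sub, Finset.sum_sub_distrib] at e
    linarith
  · rw [lap_sum fun k _ => ((smAt_const _).mul (sm k j x hx)).of_le two_le_infty,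
      ← neg_eq_zero.2 a1, ← Finset.sum_neg_distrib]
    refine Finset.sum_congr rfl fun k _ => ?_
    rw [lap_cmul _ ((sm k j x hx).of_le two_le_infty), lap_sub (((hv k).sm j x hx).of_le
      two_le_infty) ((hF k x).of_le two_le_infty), eF, A.boch_lap (hv k) hx (A.idx_mem x).1]
    ring
  · have d := (HasFDerivAt.fun_sum (u := Finset.univ) fun k _ =>
      ((sm k i p hp i hp).differentiableAt (by simp)).hasFDerivAt.const_mul (a k)).fderiv
    have e := congrArg (fun z => (z * ξ).re) a2
    simp only [Finset.sum_mul, Complex.re_sum, mul_assoc, Complex.re_ofReal_mul,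
      ← fderiv_grd] at e
    refine (congrArg (fun L : ℂ →L[ℝ] ℝ => L ξ) d).trans ?_
    simpa using e

/-- hint: `solve_zero` for `K`; if `0 ≤ c` pass to `A' = A.conf w`; `lap F k = lap (v k i) + c k`
by `solve_zero`; the linear map `ℝ⁴ → ℝ × ℂ`, `a ↦ (∑ a k c k, ∑ a k grd (v k i - F k) p)` has a
kernel; `boch` -/
theorem exists_neg [CompactSpace M] [T2Space M] [ConnectedSpace M] (h : 4 ≤ betti1 M) :
    ∃ (w : M → ℝ) (c : ℝ), A.Sm ∞ w ∧ c < 0 ∧ ∀ x, A.lap w x = A.K x - c := by
  obtain ⟨w, c, hw, e⟩ := A.solve_zero A.sm_K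
  refine ⟨w, -c, hw, not_le.1 fun k => (A.conf w hw).boch_no h ?_, fun x => by rw [e, sub_neg_eq_add]⟩
  refine k.lt_or_eq.imp (fun k x => ?_) fun k x => ?_ <;> rw [K_conf, e, sub_add_cancel_left]
  · exact mul_pos (Real.exp_pos _) k
  · rw [← k, mul_zero]

end Atl

end

end Pool.Agent.Lib.MP_21f752_an.U
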