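import Pool.Agent.Lib.MP_21f752_an.U.Bel

/-! Isothermal coordinates. -/

namespace Pool.Agent.Lib.MP_21f752_an.U

open Set Filter Topology Metric MeasureTheory Pool.Agent.Lib.MP_1c0d65_gt
open Complex (I)
open scoped ContDiff Laplacian UpperHalfPlane Manifold MatrixGroups

noncomputable section

theorem iso_dec (J : ℂ →L[ℝ] ℂ) (x y : ℝ) (p q : ℂ) : J (x * p + y * q) = x * J p + y * J q := by
  rw [← Complex.real_smul, ← Complex.real_smul, map_add, map_smul, map_smul, Complex.real_smul,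
    Complex.real_smul]

theorem iso_alg {J L : ℂ →L[ℝ] ℂ} (h : ∀ v, J (J v) = -v) (d : starRingEnd ℂ (J 1) - I ≠ 0)
    (e : A.db L = (I - J 1) / (starRingEnd ℂ (J 1) - I) * A.dz L) (v : ℂ) : L (J v) = I * L v := by
  have a : L (J 1) = I * L 1 := by
    rw [A.lin_eq L (J 1), A.lin_eq L 1, e]
    simp only [smul_eq_mul, map_one]
    field_simp
    ring
  have b : L (J (J 1)) = I * L (J 1) := by
    rw [h, map_neg, a, ← mul_assoc, Complex.I_mul_I, neg_one_mul]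
  have c : (J 1).im ≠ 0 := fun k => by
    have r : J 1 = ((J 1).re : ℝ) * 1 + (0 : ℝ) * 1 := Complex.ext (by simp) (by simp [k])
    have t := h 1
    rw [r, iso_dec] at t
    have t' := congrArg Complex.re t
    simp at t'
    nlinarith [mul_self_nonneg (J 1).re]
  have r : v = (v.re - v.im / (J 1).im * (J 1).re : ℝ) * 1 + (v.im / (J 1).im : ℝ) * J 1 := by
    refine Complex.ext ?_ ?_
    · simp only [Complex.add_re, Complex.re_ofReal_mul, Complex.one_re]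
      ring
    · simp only [Complex.add_im, Complex.im_ofReal_mul, Complex.one_im]
      field_simp
      ring
  rw [r, iso_dec, iso_dec, iso_dec, a, b, a]
  ring

theorem iso_inj {J : ℂ →L[ℝ] ℂ} (h : ∀ v, J (J v) = -v) (d : starRingEnd ℂ (J 1) - I ≠ 0) {v : ℂ}
    (e : v - I * J v = 0) : v = 0 := by
  by_contra k
  have a : J v = -(I * v) := by linear_combination I * e + J v * Complex.I_mul_I
  have b : J (I * v) = v := by
    have t := h v
    rwa [a, map_neg, neg_inj] at t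
  have r : (1 : ℂ) = (v⁻¹.re : ℝ) * v + (v⁻¹.im : ℝ) * (I * v) := by
    linear_combination (-v) * Complex.re_add_im v⁻¹ - inv_mul_cancel₀ k
  have c : J 1 = -I := by
    conv_lhs => rw [r, iso_dec, a, b]
    linear_combination I * r + (v⁻¹.im : ℝ) * v * Complex.I_mul_I
  exact d (by rw [c, map_neg, Complex.conj_I, neg_neg, sub_self])

/-- hint: `L ∘ Jc z = I L` iff `db L = μ z * dz L` with `μ z = (I - Jc z 1) / (conj (Jc z 1) - I)`;
the local inverse of `w` is `C^1` and `A.HolAt Ψ` for `Ψ y v = v - I * Jc y v`, so smooth by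
`A.reg`; then `w` is smooth as the inverse of a smooth local diffeomorphism -/
theorem isothermal {Jc : ℂ → ℂ →L[ℝ] ℂ}
    (h : ∀ᶠ z in 𝓝 (0 : ℂ), ContDiffAt ℝ ∞ Jc z ∧ ∀ v, Jc z (Jc z v) = -v)
    (h0 : ∀ v, Jc 0 v = I * v) : ∃ w : OpenPartialHomeomorph ℂ ℂ, 0 ∈ w.source ∧
      (∀ z ∈ w.source, ContDiffAt ℝ ∞ w z) ∧ ∀ y ∈ w.target, ContDiffAt ℝ ∞ w.symm y ∧
        ∀ v, fderiv ℝ w.symm y (I * v) = Jc (w.symm y) (fderiv ℝ w.symm y v) := by
  obtain ⟨s0, -⟩ := h.self_of_nhds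
  have c1 : ContDiffAt ℝ 1 (fun z => Jc z 1) 0 := (s0.of_le (by simp)).clm_apply contDiffAt_const
  have c2 : ContDiffAt ℝ 1 (fun z => starRingEnd ℂ (Jc z 1) - I) 0 :=
    (Complex.conjCLE.contDiff.contDiffAt.comp 0 c1).sub contDiffAt_const
  have d0 : starRingEnd ℂ (Jc 0 1) - I ≠ 0 := by
    rw [h0, mul_one, Complex.conj_I]
    intro k
    have t := congrArg Complex.im k
    norm_num at t
  obtain ⟨w, ⟨L, hL⟩, hw⟩ := beltrami (μ := fun z => (I - Jc z 1) / (starRingEnd ℂ (Jc z 1) - I))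
    ((contDiffAt_const.sub c1).mul (c2.inv d0)) (by simp only [h0, mul_one, sub_self, zero_div])
  have w0 := hw.self_of_nhds.1
  have f0 : HasFDerivAt w (L : ℂ →L[ℝ] ℂ) 0 := hL ▸ (w0.differentiableAt one_ne_zero).hasFDerivAt
  have iv : ∀ᶠ z in 𝓝 (0 : ℂ), fderiv ℝ w z ∈ range ((↑) : (ℂ ≃L[ℝ] ℂ) → ℂ →L[ℝ] ℂ) :=
    (w0.continuousAt_fderiv one_ne_zero) (hL ▸ L.nhds)
  obtain ⟨O, hO, oO, O0⟩ := _root_.eventually_nhds_iff.1
    (h.and (hw.and (iv.and (c2.continuousAt.eventually_ne d0))))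
  obtain ⟨W, W0, Ww, WO⟩ : ∃ W : OpenPartialHomeomorph ℂ ℂ, 0 ∈ W.source ∧ (W : ℂ → ℂ) = w ∧
      W.source ⊆ O :=
    ⟨(w0.toOpenPartialHomeomorph w f0 one_ne_zero).restrOpen O oO,
      ⟨w0.mem_toOpenPartialHomeomorph_source f0 one_ne_zero, O0⟩, rfl, inter_subset_right⟩
  subst Ww
  have k1 : ∀ y ∈ W.target, ContDiffAt ℝ 1 W.symm y ∧
      (∃ M : ℂ ≃L[ℝ] ℂ, HasFDerivAt W.symm (M : ℂ →L[ℝ] ℂ) y) ∧
      ∀ v, fderiv ℝ W.symm y (I * v) = Jc (W.symm y) (fderiv ℝ W.symm y v) := by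
    intro y hy
    obtain ⟨⟨-, j⟩, ⟨a, b⟩, ⟨M, hM⟩, d⟩ := hO _ (WO (W.map_target hy))
    have f : HasFDerivAt W (M : ℂ →L[ℝ] ℂ) (W.symm y) :=
      hM ▸ (a.differentiableAt one_ne_zero).hasFDerivAt
    have g := W.hasFDerivAt_symm hy f
    refine ⟨W.contDiffAt_symm hy f a, ⟨_, g⟩, fun v => ?_⟩
    rw [g.fderiv]
    have t := iso_alg j d (hM ▸ b) (M.symm v)
    refine M.injective ?_
    simpa using t.symm
  have k2 : ∀ y ∈ W.target, ContDiffAt ℝ ∞ W.symm y := by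
    intro y hy
    obtain ⟨⟨s, j⟩, -, -, d⟩ := hO _ (WO (W.map_target hy))
    refine A.reg (F := ℂ) (Ψ := fun z => ContinuousLinearMap.id ℝ ℂ -
      (ContinuousLinearMap.mul ℝ ℂ I).comp (Jc z))
      (contDiffAt_const.sub (contDiffAt_const.clm_comp s))
      ((injective_iff_map_eq_zero _).2 fun v hv => iso_inj j d hv) (k1 y hy).1 ?_
    filter_upwards [W.open_target.mem_nhds hy] with x hx
    have t := (k1 x hx).2.2 1
    rw [mul_one] at t
    change fderiv ℝ W.symm x I - I * Jc (W.symm x) (fderiv ℝ W.symm x I) =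
      I * (fderiv ℝ W.symm x 1 - I * Jc (W.symm x) (fderiv ℝ W.symm x 1))
    rw [t, (hO _ (WO (W.map_target hx))).1.2]
    linear_combination Jc (W.symm x) (fderiv ℝ W.symm x 1) * Complex.I_mul_I
  refine ⟨W, W0, fun z hz => ?_, fun y hy => ⟨k2 y hy, (k1 y hy).2.2⟩⟩
  obtain ⟨M, hM⟩ := (k1 _ (W.map_source hz)).2.1
  exact W.symm.contDiffAt_symm hz hM (k2 _ (W.map_source hz))

end

end Pool.Agent.Lib.MP_21f752_an.U
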