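import Pool.Agent.Lib.MP_21f752_an.U.ChF
import Pool.Agent.Lib.MP_21f752_an.U.Iso

/-! The conformal atlas of an oriented surface. -/

namespace Pool.Agent.Lib.MP_21f752_an.U

open Set Filter Topology Metric MeasureTheory Pool.Agent.Lib.MP_1c0d65_gt
open Complex (I)
open scoped ContDiff Laplacian UpperHalfPlane Manifold MatrixGroups

noncomputable section

variable {E : Type} [NormedAddCommGroup E] [NormedSpace ℝ E] [FiniteDimensional ℝ E]
  {M : Type} [TopologicalSpace M] [ChartedSpace E M] [IsManifold 𝓘(ℝ, E) ∞ M]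
  {V : Type} [NormedAddCommGroup V] [NormedSpace ℝ V] (g : Met E M) {J : M → E →L[ℝ] E}

theorem brg_dec (D : ℂ →L[ℝ] V) (v : ℂ) : D v = v.re • D 1 + v.im • D I := by
  rw [← map_smul, ← map_smul, ← map_add]
  congr 1
  simp [Complex.ext_iff]

theorem brg_lin (hE : Module.finrank ℝ E = 2) {j : E →L[ℝ] E} (hj : ∀ v, j (j v) = -v) :
    ∃ L : ℂ ≃L[ℝ] E, ∀ v, L (I * v) = j (L v) := by
  have : Nontrivial E := Module.nontrivial_of_finrank_pos (R := ℝ) (by omega)
  obtain ⟨e0, he⟩ := exists_ne (0 : E)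
  let L0 : ℂ →L[ℝ] E := Complex.reCLM.smulRight e0 + Complex.imCLM.smulRight (j e0)
  have ap : ∀ v, L0 v = v.re • e0 + v.im • j e0 := fun v => rfl
  have c : ∀ v, L0 (I * v) = j (L0 v) := fun v => by
    simp [ap, hj, add_comm]
  have inj : Function.Injective L0 := (injective_iff_map_eq_zero L0).2 fun v hv => by
    have h2 : L0 (I * v) = 0 := by rw [c, hv, map_zero]
    have h3 : L0 ((v.re ^ 2 + v.im ^ 2 : ℝ) • (1 : ℂ)) = 0 := by
      have : ((v.re ^ 2 + v.im ^ 2 : ℝ) • (1 : ℂ)) = v.re • v - v.im • (I * v) := by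
        simp [Complex.ext_iff, sq]; ring
      rw [this, map_sub, map_smul, map_smul, hv, h2]; simp
    rw [map_smul, ap] at h3
    simp only [Complex.one_re, Complex.one_im, one_smul, zero_smul, add_zero] at h3
    have h4 := (smul_eq_zero.1 h3).resolve_right he
    exact Complex.ext (by simpa using by nlinarith [sq_nonneg v.re, sq_nonneg v.im])
      (by simpa using by nlinarith [sq_nonneg v.re, sq_nonneg v.im])
  exact ⟨((L0 : ℂ →ₗ[ℝ] E).linearEquivOfInjective inj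
    (by rw [hE, Complex.finrank_real_complex])).toContinuousLinearEquiv, c⟩

/-- a smooth chart in which the rotation is multiplication by `I` -/
def BrgC (J : M → E →L[ℝ] E) (e : OpenPartialHomeomorph M ℂ) : Prop :=
  (∀ x ∈ e.source, ContMDiffAt 𝓘(ℝ, E) 𝓘(ℝ, ℂ) ∞ e x) ∧
    ∀ z ∈ e.target, ContMDiffAt 𝓘(ℝ, ℂ) 𝓘(ℝ, E) ∞ e.symm z ∧
      ∀ v, dif E e.symm z (I * v) = J (e.symm z) (dif E e.symm z v)

theorem brg_raw (hE : Module.finrank ℝ E = 2) (hJ : IsRot g J) (a : M) :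
    ∃ e : OpenPartialHomeomorph M ℂ, a ∈ e.source ∧ BrgC J e := by
  obtain ⟨Jc, hc⟩ := rot_chart g hJ a
  have sq : ∀ y ∈ (chartAt E a).target, ∀ v, Jc y (Jc y v) = -v := fun y hy v => by
    obtain ⟨D, hD⟩ := dif_chart_inv a hy
    refine D.injective ?_
    have e : ∀ u, D u = dif E (chartAt E a).symm y u := fun u => by rw [← hD]; rfl
    rw [e, e, (hc y hy).2, (hc y hy).2, hJ.1, map_neg]
  have m := mem_chart_target E a
  obtain ⟨L, hL⟩ := brg_lin hE (sq _ m)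
  let T : ℂ ≃ₜ E := L.toHomeomorph.trans (Homeomorph.addLeft (chartAt E a a))
  have Ta : ∀ z, T z = chartAt E a a + L z := fun _ => rfl
  have Ts : ∀ y, T.symm y = L.symm (-chartAt E a a + y) := fun _ => rfl
  have T0 : T 0 = chartAt E a a := by simp [Ta]
  have Tc : ContDiff ℝ ∞ T := contDiff_const.add L.contDiff
  have Tc' : ContDiff ℝ ∞ T.symm := L.symm.contDiff.comp (contDiff_const.add contDiff_id)
  have Td : ∀ z, HasFDerivAt T (L : ℂ →L[ℝ] E) z := fun z => L.hasFDerivAt.const_add _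
  obtain ⟨w, w0, w1, w2⟩ := isothermal
    (Jc := fun z => (L.symm : E →L[ℝ] ℂ).comp ((Jc (T z)).comp (L : ℂ →L[ℝ] E)))
    (by
      filter_upwards [T.continuous.continuousAt ((chartAt E a).open_target.mem_nhds
        (show T 0 ∈ _ from T0 ▸ m))] with z hz
      exact ⟨contDiffAt_const.clm_comp (((hc _ hz).1.comp z Tc.contDiffAt).clm_comp
        contDiffAt_const), fun v => by simp [sq _ hz]⟩)
    (fun v => by simp [T0, ← hL])
  refine ⟨(chartAt E a).trans (T.symm.toOpenPartialHomeomorph.trans w), ?_, fun x hx => ?_,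
    fun z hz => ?_⟩
  · refine ⟨mem_chart_source E a, mem_univ _, ?_⟩
    show T.symm (chartAt E a a) ∈ w.source
    rwa [← T0, T.symm_apply_apply]
  · have h1 := (contMDiffOn_chart (I := 𝓘(ℝ, E)) (n := ∞) (x := a)).contMDiffAt
      ((chartAt E a).open_source.mem_nhds hx.1)
    exact ((w1 _ hx.2.2).comp _ Tc'.contDiffAt).contMDiffAt.comp x h1
  · have hz1 : z ∈ w.target := hz.1.1
    have hz2 : T (w.symm z) ∈ (chartAt E a).target := hz.2
    have h1 := (contMDiffOn_chart_symm (I := 𝓘(ℝ, E)) (n := ∞) (x := a)).contMDiffAt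
      ((chartAt E a).open_target.mem_nhds hz2)
    have h2 : ContDiffAt ℝ ∞ (T ∘ w.symm) z := Tc.contDiffAt.comp z (w2 z hz1).1
    refine ⟨ContMDiffAt.comp (f := T ∘ w.symm) z h1 h2.contMDiffAt, fun v => ?_⟩
    show dif E ((chartAt E a).symm ∘ (T ∘ w.symm)) z (I * v) =
      J ((chartAt E a).symm (T (w.symm z))) (dif E ((chartAt E a).symm ∘ (T ∘ w.symm)) z v)
    rw [dif_comp (φ := T ∘ w.symm) (h1.mdifferentiableAt (by simp)) (h2.differentiableAt (by simp)),
      ((Td _).comp z ((w2 z hz1).1.differentiableAt (by simp)).hasFDerivAt).fderiv]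
    simp only [ContinuousLinearMap.comp_apply, Function.comp_apply]
    rw [(w2 z hz1).2, ← (hc _ hz2).2]
    simp

theorem brg_norm {e : OpenPartialHomeomorph M ℂ} {a : M} (ha : a ∈ e.source) (h : BrgC J e) :
    ∃ e : OpenPartialHomeomorph M ℂ, a ∈ e.source ∧ e a = 0 ∧ e.target = ball 0 4 ∧ BrgC J e := by
  obtain ⟨r, hr, hb⟩ := Metric.isOpen_iff.1 e.open_target _ (e.map_source ha)
  have r0 : ((r / 4 : ℝ) : ℂ) ≠ 0 := by
    exact_mod_cast (by positivity : (0 : ℝ) < r / 4).ne'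
  let S : ℂ ≃ₜ ℂ := (Homeomorph.mulLeft₀ _ r0).trans (Homeomorph.addLeft (e a))
  have Sa : ∀ z, S z = e a + ((r / 4 : ℝ) : ℂ) * z := fun _ => rfl
  have S0 : S 0 = e a := by simp [Sa]
  have Sc : ContDiff ℝ ∞ S := contDiff_const.add (contDiff_const.mul contDiff_id)
  have Sc' : ContDiff ℝ ∞ S.symm :=
    show ContDiff ℝ ∞ (fun y : ℂ => ((r / 4 : ℝ) : ℂ)⁻¹ * (-e a + y)) from
      contDiff_const.mul (contDiff_const.add contDiff_id)
  have Sd : ∀ z v, fderiv ℝ S z v = ((r / 4 : ℝ) : ℂ) * v := fun z v => by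
    have : HasFDerivAt S (((r / 4 : ℝ) : ℂ) • ContinuousLinearMap.id ℝ ℂ) z :=
      ((hasFDerivAt_id z).const_mul _).const_add _
    rw [this.fderiv]; rfl
  have Sm : ∀ z ∈ ball (0 : ℂ) 4, S z ∈ e.target := fun z hz => hb (by
    rw [mem_ball_zero_iff] at hz
    rw [mem_ball_iff_norm, Sa, add_sub_cancel_left, norm_mul, Complex.norm_real,
      Real.norm_of_nonneg (by positivity)]
    nlinarith)
  have z0 : S.symm (e a) = 0 := by rw [← S0, S.symm_apply_apply]
  refine ⟨((e.trans S.symm.toOpenPartialHomeomorph).symm.restrOpen (ball 0 4) isOpen_ball).symm,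
    ⟨⟨ha, mem_univ _⟩, ?_⟩, z0, ?_, fun x hx => ?_, fun z hz => ?_⟩
  · show S.symm (e a) ∈ ball 0 4
    rw [z0]; exact mem_ball_self (by norm_num)
  · exact inter_eq_right.2 fun z hz => ⟨mem_univ _, Sm z hz⟩
  · exact Sc'.contMDiff.contMDiffAt.comp x (h.1 x hx.1.1)
  · obtain ⟨h1, h2⟩ := h.2 _ (Sm z hz.2)
    refine ⟨h1.comp z Sc.contMDiff.contMDiffAt, fun v => ?_⟩
    show dif E (e.symm ∘ S) z (I * v) = J (e.symm (S z)) (dif E (e.symm ∘ S) z v)
    rw [dif_comp (φ := S) (h1.mdifferentiableAt (by simp)) (Sc.differentiable (by simp) z)]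
    simp only [ContinuousLinearMap.comp_apply, Sd]
    rw [← h2, mul_left_comm]

/-- hint: `L : ℂ ≃L E`, `1 ↦ e₀ ≠ 0`, `I ↦ Jc y₀ e₀`; `isothermal` for `L⁻¹ Jc (y₀ + L z) L`;
restrict and rescale to `ball 0 4` -/
theorem exists_chart (hE : Module.finrank ℝ E = 2) (hJ : IsRot g J) (a : M) : ∃ e : OpenPartialHomeomorph M ℂ,
    a ∈ e.source ∧ e a = 0 ∧ e.target = ball 0 4 ∧
    (∀ x ∈ e.source, ContMDiffAt 𝓘(ℝ, E) 𝓘(ℝ, ℂ) ∞ e x) ∧
    ∀ z ∈ ball (0 : ℂ) 4, ContMDiffAt 𝓘(ℝ, ℂ) 𝓘(ℝ, E) ∞ e.symm z ∧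
      ∀ v, dif E e.symm z (I * v) = J (e.symm z) (dif E e.symm z v) := by
  obtain ⟨e, ha, h⟩ := brg_raw g hE hJ a
  obtain ⟨e, h1, h2, h3, h4⟩ := brg_norm ha h
  exact ⟨e, h1, h2, h3, h4.1, fun z hz => h4.2 z (h3 ▸ hz)⟩

omit [FiniteDimensional ℝ E] [IsManifold 𝓘(ℝ, E) ∞ M] in
theorem brg_inj {e : OpenPartialHomeomorph M ℂ} (h : BrgC J e) {z : ℂ} (hz : z ∈ e.target) :
    Function.Injective (dif E e.symm z) := by
  have h1 := mfderiv_comp z ((h.1 _ (e.map_target hz)).mdifferentiableAt (by simp))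
    ((h.2 z hz).1.mdifferentiableAt (by simp))
  have h2 : (e ∘ e.symm) =ᶠ[𝓝 z] id := e.eventually_right_inverse hz
  rw [h2.mfderiv_eq, mfderiv_id] at h1
  have h3 : ∀ v : ℂ, v = mfderiv 𝓘(ℝ, E) 𝓘(ℝ, ℂ) e (e.symm z) (dif E e.symm z v) := fun v =>
    DFunLike.congr_fun h1 v
  intro u v huv
  rw [h3 u, huv, ← h3 v]

theorem brg_ip (hJ : IsRot g J) (x : M) {D : ℂ →L[ℝ] E} (hD : ∀ v, D (I * v) = J x (D v))
    (v w : ℂ) : ip g x (D v) (D w) = ip g x (D 1) (D 1) * inner ℝ v w := by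
  have hI : D I = J x (D 1) := by rw [← hD, mul_one]
  have o1 : ip g x (D 1) (J x (D 1)) = 0 := by
    have := hJ.2.1 x (D 1) (J x (D 1))
    rw [hJ.1, map_neg, ip_symm g x] at this
    linarith
  have o2 : ip g x (J x (D 1)) (D 1) = 0 := (ip_symm g x _ _).trans o1
  rw [brg_dec D v, brg_dec D w, hI]
  simp only [map_add, map_smul, add_apply, smul_apply,
    o1, o2, hJ.2.1, smul_eq_mul, Complex.inner, Complex.mul_re, Complex.conj_re, Complex.conj_im]
  ring

/-- the conformal factor -/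
def brgLam (e : OpenPartialHomeomorph M ℂ) (z : ℂ) : ℝ := Real.log (pull g e.symm z 1 1) / 2

theorem brg_pos {e : OpenPartialHomeomorph M ℂ} (h : BrgC J e) {z : ℂ} (hz : z ∈ e.target) :
    0 < pull g e.symm z 1 1 :=
  ip_pos g _ fun h0 => one_ne_zero (brg_inj h hz (h0.trans (map_zero _).symm))

theorem brg_exp {e : OpenPartialHomeomorph M ℂ} (h : BrgC J e) {z : ℂ} (hz : z ∈ e.target) :
    Real.exp (2 * brgLam g e z) = pull g e.symm z 1 1 := by
  rw [brgLam, mul_div_cancel₀ _ two_ne_zero, Real.exp_log (brg_pos g h hz)]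

theorem brg_pull (hJ : IsRot g J) {e : OpenPartialHomeomorph M ℂ} (h : BrgC J e) {z : ℂ}
    (hz : z ∈ e.target) : pull g e.symm z = cm (brgLam g e) z := by
  refine ContinuousLinearMap.ext fun v => ContinuousLinearMap.ext fun w => ?_
  rw [cm, brg_exp g h hz]
  exact brg_ip g hJ _ (h.2 z hz).2 v w

theorem brg_sm {e : OpenPartialHomeomorph M ℂ} (h : BrgC J e) {z : ℂ} (hz : z ∈ e.target) :
    ContDiffAt ℝ ∞ (brgLam g e) z := by
  have h1 : ContDiffAt ℝ ∞ (pull g e.symm) z := pull_sm g (by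
    filter_upwards [e.open_target.mem_nhds hz] with y hy using (h.2 y hy).1)
  exact (((h1.clm_apply contDiffAt_const).clm_apply contDiffAt_const).log
    (brg_pos g h hz).ne').div_const 2

theorem brg_tr {e e' : OpenPartialHomeomorph M ℂ} (h : BrgC J e) (h' : BrgC J e') {z : ℂ}
    (hz : z ∈ e.target) (hz' : e.symm z ∈ e'.source) : DifferentiableAt ℂ (e' ∘ e.symm) z ∧
      ∀ v, dif E e.symm z v = dif E e'.symm (e' (e.symm z)) (fderiv ℝ (e' ∘ e.symm) z v) := by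
  have d : DifferentiableAt ℝ (e' ∘ e.symm) z :=
    (contMDiffAt_iff_contDiffAt.1 ((h'.1 _ hz').comp z (h.2 z hz).1)).differentiableAt (by simp)
  have m := e'.map_source hz'
  have ev : e.symm =ᶠ[𝓝 z] e'.symm ∘ (e' ∘ e.symm) := by
    filter_upwards [(h.2 z hz).1.continuousAt (e'.open_source.mem_nhds hz')] with y hy
    exact (e'.left_inv hy).symm
  have k : ∀ v, dif E e.symm z v =
      dif E e'.symm (e' (e.symm z)) (fderiv ℝ (e' ∘ e.symm) z v) := fun v => by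
    rw [dif_congr ev, dif_comp (φ := e' ∘ e.symm) ((h'.2 _ m).1.mdifferentiableAt (by simp)) d]
    rfl
  refine ⟨differentiableAt_complex_iff_differentiableAt_real.2 ⟨d, brg_inj h' m ?_⟩, k⟩
  rw [← k, smul_eq_mul, (h'.2 _ m).2, ← k, e'.left_inv hz', ← (h.2 z hz).2, mul_one]

theorem brg_hol {e e' : OpenPartialHomeomorph M ℂ} (h : BrgC J e) (h' : BrgC J e') {x : M}
    (hx : x ∈ e.source) (hx' : x ∈ e'.source) : AnalyticAt ℂ (e' ∘ e.symm) (e x) := by
  refine Complex.analyticAt_iff_eventually_differentiableAt.2 ?_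
  filter_upwards [(e.isOpen_inter_preimage_symm e'.open_source).mem_nhds
    ⟨e.map_source hx, show e.symm (e x) ∈ e'.source by rwa [e.left_inv hx]⟩] with z hz
  exact (brg_tr h h' hz.1 hz.2).1

theorem brg_lam (hJ : IsRot g J) {e e' : OpenPartialHomeomorph M ℂ} (h : BrgC J e)
    (h' : BrgC J e') {x : M} (hx : x ∈ e.source) (hx' : x ∈ e'.source) :
    Real.exp (brgLam g e (e x)) =
      Real.exp (brgLam g e' (e' x)) * ‖deriv (e' ∘ e.symm) (e x)‖ := by
  obtain ⟨d, k⟩ := brg_tr h h' (e.map_source hx) (by rwa [e.left_inv hx])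
  rw [e.left_inv hx] at k
  have f1 : fderiv ℝ (e' ∘ e.symm) (e x) 1 = deriv (e' ∘ e.symm) (e x) := by
    rw [d.fderiv_restrictScalars ℝ]; rfl
  have h1 := brg_exp g h (e.map_source hx)
  have h2 := brg_pull g hJ h' (e'.map_source hx')
  have h3 : pull g e.symm (e x) 1 1 = pull g e'.symm (e' x) (deriv (e' ∘ e.symm) (e x))
      (deriv (e' ∘ e.symm) (e x)) := by
    show ip g (e.symm (e x)) (dif E e.symm (e x) 1) (dif E e.symm (e x) 1) =
      ip g (e'.symm (e' x)) (dif E e'.symm (e' x) _) (dif E e'.symm (e' x) _)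
    rw [k, f1, e.left_inv hx, e'.left_inv hx']
  rw [h2, ← h1] at h3
  refine (pow_left_inj₀ (Real.exp_pos _).le (by positivity) two_ne_zero).1 ?_
  rw [mul_pow, ← Real.exp_nat_mul, ← Real.exp_nat_mul, Nat.cast_ofNat, h3,
    ← real_inner_self_eq_norm_sq]
  rfl

/-- hint: finite subcover; `lam i z = log (pull g ψ z 1 1) / 2`; transitions are smooth and their
derivatives commute with `I` -/
theorem exists_atl [CompactSpace M] (hE : Module.finrank ℝ E = 2) (hJ : IsRot g J) :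
    ∃ A : Atl M, ∀ i,
    (∀ x ∈ (A.e i).source, ContMDiffAt 𝓘(ℝ, E) 𝓘(ℝ, ℂ) ∞ (A.e i) x) ∧
    ∀ z ∈ ball (0 : ℂ) 4, ContMDiffAt 𝓘(ℝ, ℂ) 𝓘(ℝ, E) ∞ (A.e i).symm z ∧
      pull g (A.e i).symm z = cm (A.lam i) z ∧
      ∀ v, dif E (A.e i).symm z (I * v) = J ((A.e i).symm z) (dif E (A.e i).symm z v) := by
  choose e h1 h2 h3 h4 h5 using exists_chart g hE hJ
  have hB : ∀ a, BrgC J (e a) := fun a => ⟨h4 a, fun z hz => h5 a z (h3 a ▸ hz)⟩
  obtain ⟨t, ht⟩ := isCompact_univ.elim_finite_subcover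
    (fun a => (e a).source ∩ e a ⁻¹' ball 0 1) (fun a => (e a).isOpen_inter_preimage isOpen_ball)
    fun a _ => mem_iUnion.2 ⟨a, h1 a, by simp [h2 a]⟩
  refine ⟨{ ι := t
            e := fun i => e i
            tgt := fun i => h3 i
            cov := fun x => ?_
            hol := fun i j x hi hj => brg_hol (hB i) (hB j) hi hj
            lam := fun i => brgLam g (e i)
            lam_sm := fun i z hz => (brg_sm g (hB i) (h3 i ▸ hz)).contDiffWithinAt
            lam_tr := fun i j x hi hj => brg_lam g hJ (hB i) (hB j) hi hj },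
    fun i => ⟨h4 i, fun z hz => ⟨(h5 i z hz).1, brg_pull g hJ (hB i) (h3 i ▸ hz), (h5 i z hz).2⟩⟩⟩
  obtain ⟨a, ha, hx⟩ := mem_iUnion₂.1 (ht (mem_univ x))
  exact ⟨⟨a, ha⟩, hx.1, mem_ball_zero_iff.1 hx.2⟩

end

end Pool.Agent.Lib.MP_21f752_an.U
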