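import Pool.Agent.Lib.MP_21f752_an.U.Law

/-! The metric and the rotation in a chart. -/

namespace Pool.Agent.Lib.MP_21f752_an.U

open Set Filter Topology Metric MeasureTheory
open Complex (I)
open scoped ContDiff Laplacian UpperHalfPlane Manifold MatrixGroups

noncomputable section

variable {E : Type} [NormedAddCommGroup E] [NormedSpace ℝ E] [FiniteDimensional ℝ E]
  {M : Type} [TopologicalSpace M] [ChartedSpace E M] [IsManifold 𝓘(ℝ, E) ∞ M]
  {V : Type} [NormedAddCommGroup V] [NormedSpace ℝ V] (g : Met E M) {J : M → E →L[ℝ] E}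

theorem ip_symm (x : M) (v w : E) : ip g x v w = ip g x w v := g.symm x v w

theorem ip_pos (x : M) {v : E} (hv : v ≠ 0) : 0 < ip g x v v := g.pos x v hv

theorem dif_comp {V' : Type} [NormedAddCommGroup V'] [NormedSpace ℝ V'] {ψ : V → M} {φ : V' → V}
    {z : V'} (hψ : MDifferentiableAt 𝓘(ℝ, V) 𝓘(ℝ, E) ψ (φ z)) (hφ : DifferentiableAt ℝ φ z) :
    dif E (ψ ∘ φ) z = (dif E ψ (φ z)).comp (fderiv ℝ φ z) := by
  have h := mfderiv_comp z hψ hφ.mdifferentiableAt
  rw [mfderiv_eq_fderiv] at h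
  exact h

theorem dif_congr {ψ ψ' : V → M} {z : V} (e : ψ =ᶠ[𝓝 z] ψ') : dif E ψ z = dif E ψ' z :=
  e.mfderiv_eq (I := 𝓘(ℝ, V)) (I' := 𝓘(ℝ, E))

theorem dif_self {ψ : V → M} {z : V} (hψ : MDifferentiableAt 𝓘(ℝ, V) 𝓘(ℝ, E) ψ z) :
    dif E ψ z = fderiv ℝ (chartAt E (ψ z) ∘ ψ) z := by
  have h := hψ.mfderiv
  simp only [writtenInExtChartAt, mfld_simps, fderivWithin_univ] at h
  exact h

/-- the differential of the chart at `a` -/
def chfD (E : Type) [NormedAddCommGroup E] [NormedSpace ℝ E] {M : Type} [TopologicalSpace M]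
    [ChartedSpace E M] (a x : M) : E →L[ℝ] E := mfderiv 𝓘(ℝ, E) 𝓘(ℝ, E) (chartAt E a) x

theorem chf_md (a : M) : (chartAt E a).MDifferentiable 𝓘(ℝ, E) 𝓘(ℝ, E) := mdifferentiable_chart a

theorem chf_left (a : M) {y : E} (hy : y ∈ (chartAt E a).target) :
    (chfD E a ((chartAt E a).symm y)).comp (dif E (chartAt E a).symm y) = .id ℝ E :=
  (chf_md a).comp_symm_deriv hy

theorem chf_right (a : M) {y : E} (hy : y ∈ (chartAt E a).target) :
    (dif E (chartAt E a).symm y).comp (chfD E a ((chartAt E a).symm y)) = .id ℝ E := by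
  have h := (chf_md (E := E) a).symm_comp_deriv ((chartAt E a).map_target hy)
  have e : dif E (chartAt E a).symm (chartAt E a ((chartAt E a).symm y)) =
      dif E (chartAt E a).symm y := by rw [(chartAt E a).right_inv hy]
  rw [← e]
  exact h

theorem dif_chart_inv (a : M) {y : E} (hy : y ∈ (chartAt E a).target) :
    (dif E (chartAt E a).symm y).IsInvertible :=
  ContinuousLinearMap.IsInvertible.of_inverse (chf_right a hy) (chf_left a hy)

theorem chf_self (a : M) : dif E (chartAt E a).symm (chartAt E a a) = .id ℝ E := by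
  have m := mem_chart_target E a
  rw [dif_self ((chf_md a).mdifferentiableAt_symm m), (chartAt E a).left_inv (mem_chart_source E a),
    EventuallyEq.fderiv_eq (f₁ := chartAt E a ∘ (chartAt E a).symm) (f := id)
      ((chartAt E a).eventually_right_inverse m), fderiv_id]

theorem coef_self (a : M) : coef g a (chartAt E a a) = ip g a := by
  rw [coef, pull, chf_self, (chartAt E a).left_inv (mem_chart_source E a)]
  rfl

theorem chf_tm {N : Type} [TopologicalSpace N] [ChartedSpace E N] [IsManifold 𝓘(ℝ, E) ∞ N]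
    {f : M → N} {s : Set M} (hs : IsOpen s) (hf : ContMDiffOn 𝓘(ℝ, E) 𝓘(ℝ, E) ∞ f s)
    {p : TangentBundle 𝓘(ℝ, E) M} (hp : p.1 ∈ s) :
    ContMDiffAt 𝓘(ℝ, E).tangent 𝓘(ℝ, E).tangent ∞ (tangentMap 𝓘(ℝ, E) 𝓘(ℝ, E) f) p := by
  have m := (hs.preimage (FiberBundle.continuous_proj E (TangentSpace 𝓘(ℝ, E) : M → _))).mem_nhds hp
  refine ((hf.contMDiffOn_tangentMapWithin (m := ∞) (by simp) hs.uniqueMDiffOn).contMDiffAt
    m).congr_of_eventuallyEq ?_
  filter_upwards [m] with q hq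
  exact (tangentMapWithin_eq_tangentMap (hs.uniqueMDiffWithinAt hq)
    ((hf.contMDiffAt (hs.mem_nhds hq)).mdifferentiableAt (by simp))).symm

theorem chf_const (v : E) : ContMDiff 𝓘(ℝ, E) 𝓘(ℝ, E).tangent ∞
    fun y : E => (⟨y, v⟩ : TangentBundle 𝓘(ℝ, E) E) := fun y =>
  Bundle.contMDiffAt_totalSpace.2 ⟨contMDiffAt_id, by simpa using contMDiffAt_const⟩

theorem chf_vec (a : M) {y : E} (hy : y ∈ (chartAt E a).target) (v : E) :
    ContMDiffAt 𝓘(ℝ, E) 𝓘(ℝ, E).tangent ∞
      (fun y => tv ((chartAt E a).symm y) (dif E (chartAt E a).symm y v)) y :=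
  (chf_tm (chartAt E a).open_target contMDiffOn_chart_symm
    (p := (⟨y, v⟩ : TangentBundle 𝓘(ℝ, E) E)) hy).comp y (chf_const v y)

theorem chf_clm {X : Type} [NormedAddCommGroup X] [NormedSpace ℝ X] {f : E → E →L[ℝ] X} {s : Set E}
    (hs : IsOpen s) (h : ∀ v, ∀ y ∈ s, ContDiffAt ℝ ∞ (fun y => f y v) y) {y : E} (hy : y ∈ s) :
    ContDiffAt ℝ ∞ f y :=
  (contDiffOn_clm_apply.2 fun v y hy => (h v y hy).contDiffWithinAt).contDiffAt (hs.mem_nhds hy)

theorem coef_sm (a : M) {y : E} (hy : y ∈ (chartAt E a).target) :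
    ContDiffAt ℝ ∞ (coef g a) y := by
  refine chf_clm (chartAt E a).open_target (fun v y hy =>
    chf_clm (chartAt E a).open_target (fun w y hy => ?_) hy) hy
  have hb := (contMDiffOn_chart_symm (I := 𝓘(ℝ, E)) (n := ∞) (x := a)).contMDiffAt
    ((chartAt E a).open_target.mem_nhds hy)
  have h : ContMDiffAt 𝓘(ℝ, E) (𝓘(ℝ, E).prod 𝓘(ℝ, ℝ)) ∞
      (fun m => Bundle.TotalSpace.mk' ℝ (E := Bundle.Trivial M ℝ) ((chartAt E a).symm m)
        (g.inner ((chartAt E a).symm m) (dif E (chartAt E a).symm m v)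
          (dif E (chartAt E a).symm m w))) y := by
    apply ContMDiffAt.clm_bundle_apply₂ (F₁ := E) (F₂ := E)
    · exact ContMDiffAt.comp y g.contMDiff.contMDiffAt hb
    · exact chf_vec a hy v
    · exact chf_vec a hy w
  simp only [Bundle.contMDiffAt_totalSpace] at h
  exact contMDiffAt_iff_contDiffAt.1 h.2

theorem coef_good (a : M) {y : E} (hy : y ∈ (chartAt E a).target) : Good (coef g a) y := by
  have := FiniteDimensional.complete ℝ E
  filter_upwards [(chartAt E a).open_target.mem_nhds hy] with x hx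
  exact ⟨coef_sm g a hx, fun u v => ip_symm g _ _ _,
    law_inv (inv_of_pos fun v hv => ip_pos g _ hv) (dif_chart_inv a hx)⟩

theorem pull_chart (a : M) {ψ : V → M} {z : V} (hψ : MDifferentiableAt 𝓘(ℝ, V) 𝓘(ℝ, E) ψ z)
    (h : ψ z ∈ (chartAt E a).source) : pull g ψ z = (coef g a (chartAt E a (ψ z))).bilinearComp
      (fderiv ℝ (chartAt E a ∘ ψ) z) (fderiv ℝ (chartAt E a ∘ ψ) z) := by
  have e : ψ =ᶠ[𝓝 z] (chartAt E a).symm ∘ (chartAt E a ∘ ψ) := by
    filter_upwards [hψ.continuousAt ((chartAt E a).open_source.mem_nhds h)] with y hy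
    exact ((chartAt E a).left_inv hy).symm
  have d : DifferentiableAt ℝ (chartAt E a ∘ ψ) z :=
    (((chf_md a).mdifferentiableAt h).comp z hψ).differentiableAt
  rw [pull, dif_congr e, dif_comp (φ := chartAt E a ∘ ψ)
    ((chf_md a).mdifferentiableAt_symm ((chartAt E a).map_source h)) d,
    coef, pull, (chartAt E a).left_inv h]
  rfl

theorem pull_sm {ψ : V → M} {z : V} (hψ : ∀ᶠ y in 𝓝 z, ContMDiffAt 𝓘(ℝ, V) 𝓘(ℝ, E) ∞ ψ y) :
    ContDiffAt ℝ ∞ (pull g ψ) z := by
  have h0 := hψ.self_of_nhds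
  have m := mem_chart_source E (ψ z)
  have c : ContDiffAt ℝ ∞ (chartAt E (ψ z) ∘ ψ) z := contMDiffAt_iff_contDiffAt.1
    (((contMDiffOn_chart (I := 𝓘(ℝ, E)) (n := ∞) (x := ψ z)).contMDiffAt
      ((chartAt E (ψ z)).open_source.mem_nhds m)).comp z h0)
  have b := ContDiffAt.comp (𝕜 := ℝ) (G := E →L[ℝ] E →L[ℝ] ℝ) z
    (coef_sm g (ψ z) (mem_chart_target E (ψ z))) c
  refine (law_cd b (c.fderiv_right (by simp))).congr_of_eventuallyEq ?_
  filter_upwards [hψ, h0.continuousAt ((chartAt E (ψ z)).open_source.mem_nhds m)] with y h1 h2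
  exact pull_chart g (ψ z) (h1.mdifferentiableAt (by simp)) h2

/-- hint: for a fixed `v` the map `y ↦ tv (ψ y) (dif E ψ y v)` is smooth into the tangent bundle;
apply the rotation and read the result in the trivialisation at `a`; `contDiffAt_clm_apply` -/
theorem rot_chart (hJ : IsRot g J) (a : M) : ∃ Jc : E → E →L[ℝ] E,
    ∀ y ∈ (chartAt E a).target, ContDiffAt ℝ ∞ Jc y ∧ ∀ v, dif E (chartAt E a).symm y (Jc y v) =
      J ((chartAt E a).symm y) (dif E (chartAt E a).symm y v) := by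
  refine ⟨fun y => (chfD E a ((chartAt E a).symm y)).comp ((J ((chartAt E a).symm y)).comp
    (dif E (chartAt E a).symm y)), fun y hy => ⟨chf_clm (chartAt E a).open_target
      (fun v y hy => ?_) hy, fun v => ?_⟩⟩
  · have h1 := (hJ.2.2 _).comp y (chf_vec a hy v)
    have h2 := (chf_tm (chartAt E a).open_source contMDiffOn_chart
      (p := tv ((chartAt E a).symm y) (J ((chartAt E a).symm y) (dif E (chartAt E a).symm y v)))
      ((chartAt E a).map_target hy)).comp y h1
    exact contMDiffAt_iff_contDiffAt.1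
      ((contMDiff_snd_tangentBundle_modelSpace E 𝓘(ℝ, E) _).comp y h2)
  · exact congrArg (fun L : E →L[ℝ] E =>
      L (J ((chartAt E a).symm y) (dif E (chartAt E a).symm y v))) (chf_right a hy)

end

end Pool.Agent.Lib.MP_21f752_an.U
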