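import Pool.Agent.Lib.MP_21f752_an.U.SDef
import Pool.Agent.Lib.MP_7ac2ff_gt.HomA

/-! Singular cocycles. -/

namespace Pool.Agent.Lib.MP_21f752_an.U

open Set Filter Topology Metric MeasureTheory
open Complex (I)
open scoped ContDiff Laplacian UpperHalfPlane Manifold MatrixGroups

noncomputable section

open Pool.Agent.Lib.MP_7ac2ff_gt.Hm

theorem coca_rep {X : Type} [TopologicalSpace X] {z : Fin 4 → Ch 1 X} {h : Fin 4 → (K X).homology 1}
    (r : ∀ k, Rep 1 (z k) (h k)) (a : Fin 4 → ℚ) : Rep 1 (∑ k, a k • z k) (∑ k, a k • h k) := by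
  choose w p q using r
  exact ⟨∑ k, a k • w k, by simp only [map_sum, map_smul, p], by simp only [map_sum, map_smul, q]⟩

theorem coca_dual (X : Type) [TopologicalSpace X] (h : 4 ≤ betti1 X) :
    ∃ ψ : Ch 1 X →ₗ[ℚ] Fin 4 → ℚ, (∀ e, ψ (bd 1 e) = 0) ∧
      ∀ j, ∃ z, bd 0 z = 0 ∧ ψ z = Pi.single j 1 := by
  have h' : 4 ≤ Module.finrank ℚ ((K X).homology 1) := h
  obtain ⟨v, hv⟩ := exists_linearIndependent_of_le_finrank h'
  choose z r using fun k => exists_rep' (v k)
  obtain ⟨g, hg⟩ := ((LinearMap.range (bd (X := X) 1)).mkQ ∘ₗ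
      Fintype.linearCombination ℚ z).exists_leftInverse_of_injective (by
    refine LinearMap.ker_eq_bot'.2 fun a e => funext (Fintype.linearIndependent_iff.1 hv a ?_)
    obtain ⟨c, hc⟩ := (Submodule.Quotient.mk_eq_zero _).1 e
    exact ((coca_rep r a).eq_iff (rep_zero 1)).2 ⟨c, by rw [hc, sub_zero]; rfl⟩)
  refine ⟨g ∘ₗ (LinearMap.range (bd (X := X) 1)).mkQ, fun e => ?_, fun j => ⟨z j, (r j).cyc, ?_⟩⟩
  · rw [LinearMap.comp_apply, Submodule.mkQ_apply,
      (Submodule.Quotient.mk_eq_zero _).2 (LinearMap.mem_range_self _ e), map_zero]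
  · simpa using LinearMap.congr_fun hg (Pi.single j 1)

/-- affine simplices in the plane -/
def cocaL {n : ℕ} (v : Fin (n + 1) → ℂ) : C(Sp n, ℂ) :=
  ⟨fun t => ∑ i, t.1 i • v i, continuous_finsetSum _ fun i _ =>
    ((continuous_apply i).comp continuous_subtype_val).smul continuous_const⟩

theorem coca_face {n : ℕ} (v : Fin (n + 2) → ℂ) (i : Fin (n + 2)) (t : Sp n) :
    cocaL v (face i t) = cocaL (v ∘ i.succAbove) t := by
  change ∑ j, FunOnFinite.linearMap ℝ ℝ i.succAbove t.1 j • v j = ∑ j, t.1 j • v (i.succAbove j)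
  rw [← Finset.sum_fiberwise (s := Finset.univ) (g := i.succAbove)]
  refine Finset.sum_congr rfl fun j _ => ?_
  rw [FunOnFinite.linearMap_apply_apply, Finset.sum_smul]
  exact Finset.sum_congr rfl fun k hk => by rw [(Finset.mem_filter.1 hk).2]

theorem coca_mem {n : ℕ} {v : Fin (n + 1) → ℂ} {C : Set ℂ} (h : Convex ℝ C) (m : ∀ i, v i ∈ C)
    (t : Sp n) : cocaL v t ∈ C := h.sum_mem (fun i _ => t.2.1 i) t.2.2 fun i _ => m i

theorem coca_two (p q : ℂ) (t : Sp 1) : cocaL ![p, q] t = (1 - t.1 1) • p + t.1 1 • q := by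
  have := t.2.2
  rw [Fin.sum_univ_two] at this
  rw [← this, add_sub_cancel_right]
  exact Fin.sum_univ_two fun i => t.1 i • ![p, q] i

theorem coca_ray {X : Type} [TopologicalSpace X] (σ : Sx 1 X) :
    ∃ H : ℂ → X, Continuous H ∧ H ∘ cocaL ![0, 1] = σ := by
  refine ⟨fun z => σ (stdSimplexHomeomorphUnitInterval.symm (projIcc 0 1 zero_le_one z.re)),
    σ.continuous.comp (stdSimplexHomeomorphUnitInterval.symm.continuous.comp
      (continuous_projIcc.comp Complex.continuous_re)), funext fun t => congrArg σ ?_⟩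
  rw [Homeomorph.symm_apply_eq, coca_two]
  have : ((1 - t.1 1) • (0 : ℂ) + t.1 1 • (1 : ℂ)).re = t.1 1 := by simp
  rw [this, projIcc_of_mem _ (mem_Icc_of_mem_stdSimplex t.2 1)]
  rfl

/-- A real function of the paths of `X` that is additive on triangles. hint: four independent
functionals on `H_1`, extended to chains modulo boundaries (`Hm.Rep`, `exists_rep'`,
`Rep.eq_iff`); `c H p q` = value on the simplex `t ↦ H (t 0 • p + t 1 • q)` (zero if `H` is not
continuous on the segment); additivity from the simplex `t ↦ H (t 0 • p + t 1 • q + t 2 • r)`;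
last part: for a simplex `σ` take `H` = `σ` along the first axis (clamped); `t ↦ c H 0 t - G (H t)`
is locally constant on the line, so the cocycle is the coboundary of `G` and kills cycles. -/
theorem exists_cc (X : Type) [TopologicalSpace X] (h : 4 ≤ betti1 X) :
    ∃ c : Fin 4 → (ℂ → X) → ℂ → ℂ → ℝ,
      (∀ (k : Fin 4) (H : ℂ → X) (C : Set ℂ), Convex ℝ C → ContinuousOn H C →
        ∀ p ∈ C, ∀ q ∈ C, ∀ r ∈ C, c k H p q + c k H q r = c k H p r) ∧
      (∀ (k : Fin 4) (H H' : ℂ → X) (p q p' q' : ℂ),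
        (∀ t : ℝ, t ∈ Icc (0 : ℝ) 1 → H ((1 - t) • p + t • q) = H' ((1 - t) • p' + t • q')) →
        c k H p q = c k H' p' q') ∧
      ∀ (a : Fin 4 → ℝ) (G : X → ℝ), (∀ H : ℂ → X, Continuous H → ∀ p, ∀ᶠ q in 𝓝 p,
        ∑ k, a k * c k H p q = G (H q) - G (H p)) → a = 0 := by
  classical
  obtain ⟨ψ, hb, hz⟩ := coca_dual X h
  obtain ⟨V, hV⟩ : ∃ V : Fin 4 → (Sp 1 → X) → ℝ, ∀ k (σ : Sx 1 X),
      V k σ = (ψ (Finsupp.single σ 1) k : ℚ) :=
    ⟨fun k f => if c : Continuous f then (ψ (Finsupp.single ⟨f, c⟩ 1) k : ℚ) else 0,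
      fun k σ => dif_pos σ.continuous⟩
  have add (k : Fin 4) (H : ℂ → X) (C : Set ℂ) (hC : Convex ℝ C) (c : ContinuousOn H C)
      (p) (hp : p ∈ C) (q) (hq : q ∈ C) (r) (hr : r ∈ C) :
      V k (H ∘ cocaL ![p, q]) + V k (H ∘ cocaL ![q, r]) = V k (H ∘ cocaL ![p, r]) := by
    let s : Sx 2 X := ⟨H ∘ cocaL ![p, q, r], c.comp_continuous (cocaL _).continuous
      (coca_mem hC fun i => by fin_cases i <;> assumption)⟩
    have f (i : Fin 3) (v : Fin 2 → ℂ) (e : ![p, q, r] ∘ i.succAbove = v) :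
        V k (H ∘ cocaL v) = (ψ (Finsupp.single (s.comp (face i)) 1) k : ℚ) := by
      rw [← hV, ← e]
      exact congrArg (V k) (funext fun t => congrArg H (coca_face _ i t).symm)
    have e := congrFun (hb (Finsupp.single s 1)) k
    rw [bd_single, Fin.sum_univ_three] at e
    rw [f 2 ![p, q] (by ext i; fin_cases i <;> rfl), f 0 ![q, r] (by ext i; fin_cases i <;> rfl),
      f 1 ![p, r] (by ext i; fin_cases i <;> rfl), ← Rat.cast_add, Rat.cast_inj]
    simp only [map_add, map_smul, Pi.add_apply, Pi.smul_apply, Pi.zero_apply, smul_eq_mul,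
      Fin.val_zero, Fin.val_one, Fin.val_two] at e
    linarith
  refine ⟨fun k H p q => V k (H ∘ cocaL ![p, q]), add, fun k H H' p q p' q' e =>
    congrArg (V k) (funext fun t => ?_), fun a G hG => funext fun j => ?_⟩
  · rw [Function.comp_apply, Function.comp_apply, coca_two, coca_two]
    exact e _ (mem_Icc_of_mem_stdSimplex t.2 1)
  obtain ⟨z, z0, zj⟩ := hz j
  let x₀ : Sp 0 := ⟨fun _ => 1, fun _ => zero_le_one, by simp⟩
  have key := ch_ext (f := ∑ k, a k • (Algebra.linearMap ℚ ℝ ∘ₗ LinearMap.proj k ∘ₗ ψ))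
    (g := Finsupp.linearCombination ℚ (fun s : Sx 0 X => G (s x₀)) ∘ₗ bd 0) (fun σ => ?_) z
  · simpa [z0, zj, Pi.single_apply, apply_ite] using key
  obtain ⟨H, c, e⟩ := coca_ray σ
  have ad (k p q r) := add k H univ convex_univ c.continuousOn p trivial q trivial r trivial
  have lc : IsLocallyConstant fun q => ∑ k, a k * V k (H ∘ cocaL ![0, q]) - G (H q) :=
    (IsLocallyConstant.iff_eventually_eq _).2 fun p => (hG H c p).mono fun q hq => by
      simp only [← ad _ 0 p q, mul_add, Finset.sum_add_distrib, hq]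
      ring
  have e1 := lc.apply_eq_of_preconnectedSpace 1 0
  have z0 (k) : V k (H ∘ cocaL ![0, 0]) = 0 := by linarith [ad k 0 0 0]
  have v (i : Fin 2) : σ (face i x₀) = H (![0, 1] (i.succAbove 0)) := by
    rw [← e, Function.comp_apply, coca_face]
    exact congrArg H (by simp [cocaL, x₀])
  simp only [z0, e, hV, mul_zero, Finset.sum_const_zero] at e1
  simp [bd_single, LinearMap.sum_apply, v]
  simp only [Fin.sum_univ_four] at e1 ⊢
  linarith

end

end Pool.Agent.Lib.MP_21f752_an.U
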