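import Pool.Agent.Lib.MP_21f752_an.U.Atl

/-! Calculus in the plane. -/

namespace Pool.Agent.Lib.MP_21f752_an.U

open Set Filter Topology Metric MeasureTheory Pool.Agent.Lib.MP_1c0d65_gt
open Complex (I)
open scoped ContDiff Laplacian UpperHalfPlane Manifold MatrixGroups

noncomputable section

section Flat
variable {F a b : ℂ → ℝ} {τ φ : ℂ → ℂ} {z : ℂ}

theorem lap_two (F : ℂ → ℝ) (z : ℂ) :
    Δ F z = fderiv ℝ (fderiv ℝ F) z 1 1 + fderiv ℝ (fderiv ℝ F) z I I := by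
  rw [InnerProductSpace.laplacian_eq_iteratedFDeriv_complexPlane]
  simp [iteratedFDeriv_two_apply]

theorem fderiv_grd (F : ℂ → ℝ) (z ξ : ℂ) : fderiv ℝ F z ξ = (grd F z * ξ).re := by
  have e : ξ = ξ.re • (1 : ℂ) + ξ.im • I := by simp
  conv_lhs => rw [e, map_add, map_smul, map_smul]
  simp [grd]
  ring

theorem grd_contDiffAt {k m : WithTop ℕ∞} (h : ContDiffAt ℝ m F z) (hk : k + 1 ≤ m) :
    ContDiffAt ℝ k (grd F) z := by
  have h1 := fun v : ℂ => Complex.ofRealCLM.contDiff.contDiffAt.comp z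
    ((h.fderiv_right hk).clm_apply (contDiffAt_const (c := v)))
  exact (h1 1).sub (contDiffAt_const.mul (h1 I))

theorem flat_hd (h : ContDiffAt ℝ 2 F z) (v : ℂ) :
    HasFDerivAt (fun w => fderiv ℝ F w v) ((fderiv ℝ (fderiv ℝ F) z).flip v) z := by
  have h1 : HasFDerivAt (fderiv ℝ F) (fderiv ℝ (fderiv ℝ F) z) z :=
    ((h.fderiv_right (m := 1) le_rfl).differentiableAt one_ne_zero).hasFDerivAt
  simpa using h1.clm_apply (hasFDerivAt_const v z)

theorem flat_sym (h : ContDiffAt ℝ 2 F z) (u v : ℂ) :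
    fderiv ℝ (fderiv ℝ F) z u v = fderiv ℝ (fderiv ℝ F) z v u :=
  (h.isSymmSndFDerivAt (by simp)) u v

theorem fderiv_grd_apply (h : ContDiffAt ℝ 2 F z) (v : ℂ) : fderiv ℝ (grd F) z v =
    (fderiv ℝ (fderiv ℝ F) z v 1 : ℝ) - I * (fderiv ℝ (fderiv ℝ F) z v I : ℝ) := by
  have h1 := fun v : ℂ => Complex.ofRealCLM.hasFDerivAt.comp z (flat_hd h v)
  have h2 : HasFDerivAt (grd F) _ z := (h1 1).sub ((h1 I).const_mul I)
  rw [h2.fderiv]
  simp

theorem db_grd (h : ContDiffAt ℝ 2 F z) : A.db (fderiv ℝ (grd F) z) = (Δ F z : ℝ) / 2 := by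
  rw [A.db, fderiv_grd_apply h, fderiv_grd_apply h, lap_two, flat_sym h 1 I]
  simp only [smul_eq_mul]
  push_cast
  linear_combination (-(2 : ℂ)⁻¹ * (fderiv ℝ (fderiv ℝ F) z I I : ℝ)) * Complex.I_mul_I

theorem grd_ext {c : ℂ} (h : ∀ ξ, fderiv ℝ F z ξ = (c * ξ).re) : grd F z = c := by
  rw [grd, h, h]
  apply Complex.ext <;> simp

theorem grd_congr {G : ℂ → ℝ} (e : F =ᶠ[𝓝 z] G) : grd F =ᶠ[𝓝 z] grd G := by
  filter_upwards [e.fderiv (𝕜 := ℝ)] with w hw
  rw [grd, grd, hw]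

theorem grd_holo (hτ : DifferentiableAt ℂ τ z) (hF : DifferentiableAt ℝ F (τ z)) :
    grd (F ∘ τ) z = grd F (τ z) * deriv τ z := by
  refine grd_ext fun ξ => ?_
  rw [(hF.hasFDerivAt.comp z (hτ.hasDerivAt.hasFDerivAt.restrictScalars ℝ)).fderiv,
    ContinuousLinearMap.comp_apply, fderiv_grd, mul_assoc, mul_comm (deriv τ z)]
  rfl

theorem lap_holo (hτ : AnalyticAt ℂ τ z) (hF : ContDiffAt ℝ 2 F (τ z)) :
    Δ (F ∘ τ) z = ‖deriv τ z‖ ^ 2 * Δ F (τ z) := by
  have h1 : ContDiffAt ℝ 2 (F ∘ τ) z := hF.comp z (hτ.contDiffAt.restrict_scalars ℝ)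
  have e : grd (F ∘ τ) =ᶠ[𝓝 z] fun w => deriv τ w • grd F (τ w) := by
    filter_upwards [hτ.eventually_analyticAt,
      hτ.continuousAt.eventually (hF.eventually (by simp))] with w h2 h3
    rw [grd_holo h2.differentiableAt (h3.differentiableAt two_ne_zero), smul_eq_mul, mul_comm]
  have g1 : DifferentiableAt ℝ (grd F) (τ z) :=
    (grd_contDiffAt (k := 1) hF le_rfl).differentiableAt one_ne_zero
  have h4 := db_grd h1
  rw [e.fderiv_eq, A.db_holo_smul (V := fun w => grd F (τ w)) hτ.deriv.differentiableAt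
    (g1.comp z (hτ.differentiableAt.restrictScalars ℝ)),
    D.Lin.db_comp hτ.differentiableAt.hasDerivAt g1, db_grd hF, smul_smul, Complex.mul_conj',
    smul_eq_mul] at h4
  apply Complex.ofReal_injective
  push_cast
  linear_combination (-2 : ℂ) * h4

theorem lap_log_norm (hφ : AnalyticAt ℂ φ z) (h0 : φ z ≠ 0) :
    ContDiffAt ℝ ∞ (fun w => Real.log ‖φ w‖) z ∧ Δ (fun w => Real.log ‖φ w‖) z = 0 :=
  ⟨((hφ.contDiffAt.restrict_scalars ℝ).norm ℝ h0).log (norm_ne_zero_iff.2 h0),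
    (hφ.harmonicAt_log_norm h0).2.self_of_nhds⟩

theorem flat_two {G : ℂ → ℝ} {v : ℂ} {L : ℂ →L[ℝ] ℝ} (h : ContDiffAt ℝ 2 F z)
    (e : ∀ᶠ w in 𝓝 z, fderiv ℝ F w v = G w) (hG : HasFDerivAt G L z) (u : ℂ) :
    fderiv ℝ (fderiv ℝ F) z u v = L u := by
  rw [← (flat_hd h v).unique (hG.congr_of_eventuallyEq e)]
  rfl

theorem lap_mul (ha : ContDiffAt ℝ 2 a z) (hb : ContDiffAt ℝ 2 b z) :
    Δ (fun w => a w * b w) z = a z * Δ b z +
      2 * (fderiv ℝ a z 1 * fderiv ℝ b z 1 + fderiv ℝ a z I * fderiv ℝ b z I) + Δ a z * b z := by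
  have key : ∀ v, fderiv ℝ (fderiv ℝ fun w => a w * b w) z v v =
      a z * fderiv ℝ (fderiv ℝ b) z v v + 2 * (fderiv ℝ a z v * fderiv ℝ b z v) +
        fderiv ℝ (fderiv ℝ a) z v v * b z := fun v => by
    rw [flat_two (G := fun w => a w * fderiv ℝ b w v + b w * fderiv ℝ a w v) (ha.mul hb) ?_
      (((ha.differentiableAt two_ne_zero).hasFDerivAt.mul (flat_hd hb v)).add
        ((hb.differentiableAt two_ne_zero).hasFDerivAt.mul (flat_hd ha v)))]
    · simp
      ring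
    · filter_upwards [ha.eventually (by simp), hb.eventually (by simp)] with w h1 h2
      rw [fderiv_fun_mul (h1.differentiableAt two_ne_zero) (h2.differentiableAt two_ne_zero)]
      simp
  rw [lap_two, lap_two, lap_two, key, key]
  ring

theorem lap_contDiffAt (h : ContDiffAt ℝ ∞ F z) : ContDiffAt ℝ ∞ (Δ F) z := by
  have h2 : ContDiffAt ℝ ∞ (fderiv ℝ (fderiv ℝ F)) z :=
    (h.fderiv_right (m := ∞) (by simp)).fderiv_right (by simp)
  rw [funext (lap_two F)]
  exact ((h2.clm_apply contDiffAt_const).clm_apply contDiffAt_const).add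
    ((h2.clm_apply contDiffAt_const).clm_apply contDiffAt_const)

theorem flat_harm (h : ∀ᶠ w in 𝓝 z, ContDiffAt ℝ 2 F w ∧ Δ F w = 0) :
    InnerProductSpace.HarmonicAt F z := ⟨h.self_of_nhds.1, h.mono fun _ h => h.2⟩

theorem grd_analytic (h : ∀ᶠ w in 𝓝 z, ContDiffAt ℝ 2 F w ∧ Δ F w = 0) :
    AnalyticAt ℂ (grd F) z := HarmonicAt.analyticAt_complex_partial (flat_harm h)

theorem lap_max (h : ContDiffAt ℝ 2 F z) (hm : IsLocalMax F z) : Δ F z ≤ 0 := by
  have key : ∀ v, fderiv ℝ (fderiv ℝ F) z v v ≤ 0 := fun v => by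
    have hl : ∀ t : ℝ, HasDerivAt (fun s : ℝ => z + s • v) v t := fun t => by
      simpa using ((hasDerivAt_id t).smul_const v).const_add z
    have e0 : z = z + (0 : ℝ) • v := by simp
    have ht : Tendsto (fun s : ℝ => z + s • v) (𝓝 0) (𝓝 z) := by
      simpa using (hl 0).continuousAt.tendsto
    have m1 : IsLocalMax (fun s : ℝ => F (z + s • v)) 0 := by
      filter_upwards [ht.eventually hm] with s hs
      simpa using hs
    have d1 : deriv (fun s : ℝ => F (z + s • v)) =ᶠ[𝓝 0] fun s => fderiv ℝ F (z + s • v) v := by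
      filter_upwards [ht.eventually (h.eventually (by simp))] with s hs
      exact ((hs.differentiableAt two_ne_zero).hasFDerivAt.comp_hasDerivAt s (hl s)).deriv
    have d2 : deriv (deriv fun s : ℝ => F (z + s • v)) 0 = fderiv ℝ (fderiv ℝ F) z v v := by
      rw [d1.deriv_eq]
      exact ((flat_hd h v).comp_hasDerivAt_of_eq 0 (hl 0) e0).deriv
    by_contra hp
    have m2 := isLocalMin_of_deriv_deriv_pos (d2 ▸ not_le.1 hp) m1.deriv_eq_zero
      (ContinuousAt.comp_of_eq h.continuousAt (hl 0).continuousAt e0.symm)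
    have c : (fun s : ℝ => F (z + s • v)) =ᶠ[𝓝 0] fun _ => F (z + (0 : ℝ) • v) :=
      (m1.and m2).mono fun s hs => le_antisymm hs.1 hs.2
    rw [← d2, c.deriv.deriv_eq] at hp
    simp at hp
  rw [lap_two]
  exact add_nonpos (key 1) (key I)

theorem harm_max (h : ∀ᶠ w in 𝓝 z, ContDiffAt ℝ 2 F w ∧ Δ F w = 0) (hm : IsLocalMax F z) :
    ∀ᶠ w in 𝓝 z, F w = F z := by
  obtain ⟨r, hr, hb⟩ := Metric.eventually_nhds_iff_ball.1 (flat_harm h).eventually
  obtain ⟨G, h1, h2⟩ := InnerProductSpace.HarmonicOnNhd.exists_analyticOnNhd_ball_re_eq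
    (f := F) (z := z) (R := r) hb
  have e : ∀ᶠ w in 𝓝 z, ‖Complex.exp (G w)‖ = Real.exp (F w) := by
    filter_upwards [ball_mem_nhds z hr] with w hw
    rw [Complex.norm_exp, ← h2 hw]
  have h3 := Complex.eventually_eq_of_isLocalMax_norm (f := fun w => Complex.exp (G w)) (c := z)
    (by
      filter_upwards [ball_mem_nhds z hr] with w hw
      exact (h1 w hw).differentiableAt.cexp) (by
      filter_upwards [e, hm] with w h3 h4
      simp only [Function.comp_apply, h3, e.self_of_nhds]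
      exact Real.exp_le_exp.2 h4)
  filter_upwards [h3, e] with w h4 h5
  exact Real.exp_injective (by rw [← h5, h4, e.self_of_nhds])

end Flat

end

end Pool.Agent.Lib.MP_21f752_an.U
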