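import Pool.Agent.Lib.MP_21f752_an.U.Law
import Pool.Agent.Lib.MP_21f752_an.U.Flat

/-! Conformal metrics. -/

namespace Pool.Agent.Lib.MP_21f752_an.U

open Set Filter Topology Metric MeasureTheory Pool.Agent.Lib.MP_1c0d65_gt
open Complex (I)
open scoped ContDiff Laplacian UpperHalfPlane Manifold MatrixGroups

noncomputable section

theorem conf_app (l : ℂ → ℝ) (z u v : ℂ) :
    cm l z u v = Real.exp (2 * l z) * (u.re * v.re + u.im * v.im) := by
  change Real.exp (2 * l z) * inner ℝ u v = _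
  simp [Complex.inner]
  ring

theorem conf_inv (l : ℂ → ℝ) (z : ℂ) : (cm l z).IsInvertible :=
  inv_of_pos fun v hv => by
    rw [conf_app]
    exact mul_pos (Real.exp_pos _) (Complex.normSq_pos.2 hv)

theorem conf_lin (L : ℂ →L[ℝ] ℝ) (w : ℂ) : L w = w.re * L 1 + w.im * L I := by
  have e : w = w.re • (1 : ℂ) + w.im • I := by simp
  conv_lhs => rw [e, map_add, map_smul, map_smul]
  rfl

theorem conf_sm {X : Type} [NormedAddCommGroup X] [NormedSpace ℝ X] {f : ℂ → ℝ} {L : ℂ →L[ℝ] ℝ}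
    {z : ℂ} (h : HasFDerivAt f L z) (B : X) : fderiv ℝ (fun y => f y • B) z = L.smulRight B :=
  (h.smul_const B).fderiv

theorem conf_d {l : ℂ → ℝ} {z : ℂ} (hl : DifferentiableAt ℝ l z) (a b c : ℂ) :
    fderiv ℝ (cm l) z a b c = 2 * fderiv ℝ l z a * cm l z b c := by
  obtain ⟨B, hB⟩ : ∃ B : ℂ →L[ℝ] ℂ →L[ℝ] ℝ, cm l = fun y => Real.exp (2 * l y) • B := ⟨_, rfl⟩
  have e : fderiv ℝ (fun y => Real.exp (2 * l y) • B) z = _ :=
    conf_sm (hl.hasFDerivAt.const_mul 2).exp B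
  rw [hB, e]
  simp
  ring

theorem chr_cm {l : ℂ → ℝ} {z : ℂ} (hl : DifferentiableAt ℝ l z) (u v : ℂ) :
    chr (cm l) z u v = (fderiv ℝ l z u : ℝ) * v + (fderiv ℝ l z v : ℝ) * u -
      (inner ℝ u v : ℝ) * ((fderiv ℝ l z 1 : ℝ) + (fderiv ℝ l z I : ℝ) * I) := by
  obtain ⟨g, hg⟩ := conf_inv l z
  refine g.injective (ContinuousLinearMap.ext fun w => ?_)
  change (g : ℂ →L[ℝ] ℂ →L[ℝ] ℝ) _ w = (g : ℂ →L[ℝ] ℂ →L[ℝ] ℝ) _ w
  rw [hg, law_spec (conf_inv l z), conf_d hl, conf_d hl, conf_d hl,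
    conf_lin (fderiv ℝ l z) w]
  simp only [conf_app]
  simp [Complex.inner]
  ring

theorem riem_cm {l : ℂ → ℝ} {z : ℂ} (hl : ContDiffAt ℝ 2 l z) (u v : ℂ) :
    cm l z (riem (cm l) z u v v) u =
      -Real.exp (-2 * l z) * Δ l z * (cm l z u u * cm l z v v - cm l z u v ^ 2) := by
  have ev : ∀ᶠ y in 𝓝 z, DifferentiableAt ℝ l y :=
    (hl.eventually (by simp)).mono fun y h => h.differentiableAt (by simp)
  have h1 := fun v : ℂ => Complex.ofRealCLM.hasFDerivAt.comp z (flat_hd hl v)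
  have d : ∀ a b c, fderiv ℝ (fun y => chr (cm l) y a b) z c =
      (fderiv ℝ (fderiv ℝ l) z c a : ℝ) * b + (fderiv ℝ (fderiv ℝ l) z c b : ℝ) * a -
        (inner ℝ a b : ℝ) * ((fderiv ℝ (fderiv ℝ l) z c 1 : ℝ) +
          (fderiv ℝ (fderiv ℝ l) z c I : ℝ) * I) := fun a b c => by
    have k := ((((h1 a).mul_const b).add ((h1 b).mul_const a)).sub
      (((h1 1).add ((h1 I).mul_const I)).const_mul ((inner ℝ a b : ℝ) : ℂ))).congr_of_eventuallyEq
        (f₁ := fun y => chr (cm l) y a b) (ev.mono fun y hy => chr_cm hy a b)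
    rw [k.fderiv]
    simp
    ring
  have s : ∀ a b, fderiv ℝ (fderiv ℝ l) z a b =
      a.re * (b.re * fderiv ℝ (fderiv ℝ l) z 1 1 + b.im * fderiv ℝ (fderiv ℝ l) z 1 I) +
        a.im * (b.re * fderiv ℝ (fderiv ℝ l) z 1 I + b.im * fderiv ℝ (fderiv ℝ l) z I I) :=
    fun a b => by
      rw [conf_lin _ b, flat_sym hl a 1, flat_sym hl a I, conf_lin _ a,
        conf_lin (fderiv ℝ (fderiv ℝ l) z I) a, flat_sym hl I 1]
      ring
  have E : Real.exp (-2 * l z) * Real.exp (2 * l z) = 1 := by rw [← Real.exp_add]; simp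
  rw [riem, d, d, lap_two, s u v, s u 1, s u I, s v u, s v v, s v 1, s v I]
  simp only [chr_cm ev.self_of_nhds, conf_app]
  rw [conf_lin _ u, conf_lin _ v, conf_lin _ (_ - _), conf_lin _ (_ * v + _ * u - _)]
  simp only [Complex.inner, Complex.add_re, Complex.add_im, Complex.sub_re, Complex.sub_im,
    Complex.mul_re, Complex.mul_im, Complex.ofReal_re, Complex.ofReal_im, Complex.I_re,
    Complex.I_im, Complex.conj_re, Complex.conj_im, Complex.one_re, Complex.one_im]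
  linear_combination (fderiv ℝ (fderiv ℝ l) z 1 1 + fderiv ℝ (fderiv ℝ l) z I I) *
    Real.exp (2 * l z) * (u.re * v.im - u.im * v.re) ^ 2 * E

end

end Pool.Agent.Lib.MP_21f752_an.U
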