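import Pool.Agent.Lib.MP_21f752_an.U.Bas

/-! Compact operators, density. -/

namespace Pool.Agent.Lib.MP_21f752_an.U

open Set Filter Topology Metric MeasureTheory Pool.Agent.Lib.MP_1c0d65_gt
open Complex (I)
open scoped ContDiff Laplacian UpperHalfPlane Manifold MatrixGroups

noncomputable section

namespace Atl
variable {M : Type} [TopologicalSpace M] (A : Atl M)

/-- hint: factor through `C(closedBall 0 3, ℂ)`, Arzela-Ascoli as in `Hol/Cpt.lean` -/
theorem exists_op [CompactSpace M] [T2Space M] (i : A.ι) {c : ℂ → ℂ}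
    (hc : ContinuousOn c (ball 0 4)) (h0 : ∀ z, 3 < ‖z‖ → c z = 0) (L : C(M, ℝ) → ℂ → ℂ)
    (hl : ∀ (a : ℝ) f g z, L (a • f + g) z = a * L f z + L g z) {C : ℝ}
    (hb : ∀ f z w, ‖L f z‖ ≤ C * ‖f‖ ∧ ‖L f z - L f w‖ ≤ C * ‖f‖ * √‖z - w‖) :
    ∃ Q : C(M, ℝ) →L[ℝ] C(M, ℝ), IsCompactOperator Q ∧
      ∀ f x, Q f x = A.ext i (fun z => (c z * L f z).re) x := by
  have L0 (z) : L 0 z = 0 := norm_le_zero_iff.1 (by simpa using (hb 0 z z).1)
  have sq (z : ℂ) : Tendsto (fun w : ℂ => √‖z - w‖) (𝓝 z) (𝓝 0) := by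
    have : Continuous fun w : ℂ => √‖z - w‖ := by fun_prop
    simpa using this.tendsto z
  have Lc (f) : Continuous (L f) := continuous_iff_continuousAt.2 fun z =>
    tendsto_iff_norm_sub_tendsto_zero.2 (squeeze_zero (fun _ => norm_nonneg _)
      (fun w => (norm_sub_rev _ _).trans_le (hb f z w).2)
      (by simpa using (sq z).const_mul (C * ‖f‖)))
  obtain ⟨B, hB⟩ := (isCompact_closedBall (0 : ℂ) 3).exists_bound_of_continuousOn
    (hc.mono (closedBall_subset_ball (by norm_num)))
  have B0 : 0 ≤ B := (norm_nonneg _).trans (hB 0 (mem_closedBall_self (by norm_num)))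
  have cB (z) : ‖c z‖ ≤ B := by
    by_cases h : 3 < ‖z‖
    · rwa [h0 z h, norm_zero]
    · exact hB z (mem_closedBall_zero_iff.2 (not_lt.1 h))
  let q : C(M, ℝ) →ₗ[ℝ] C(M, ℝ) :=
    { toFun := fun f => ⟨A.ext i fun z => (c z * L f z).re, (sm_ext (k := 0) i
        (contDiffOn_zero.2 (Complex.continuous_re.comp_continuousOn (hc.mul (Lc f).continuousOn)))
        fun z hz => by simp [h0 z hz]).continuous⟩
      map_add' := fun f g => ContinuousMap.ext fun x => by
        have := hl 1 f g
        rw [one_smul] at this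
        by_cases hx : x ∈ (A.e i).source
        · simp [ext_mem _ hx, this, mul_add, -Complex.mul_re]
        · simp [ext_not _ hx]
      map_smul' := fun a f => ContinuousMap.ext fun x => by
        have := hl a f 0
        rw [add_zero] at this
        by_cases hx : x ∈ (A.e i).source
        · simp [ext_mem _ hx, this, L0, mul_left_comm (c _), -Complex.mul_re, Complex.re_ofReal_mul]
        · simp [ext_not _ hx] }
  have qe (f x) : q f x = A.ext i (fun z => (c z * L f z).re) x := rfl
  have lb (f z) : ‖L f z‖ ≤ |C| * ‖f‖ :=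
    (hb f z z).1.trans (mul_le_mul_of_nonneg_right (le_abs_self C) (norm_nonneg _))
  have qb (f) : ‖q f‖ ≤ B * |C| * ‖f‖ := (ContinuousMap.norm_le _ (by positivity)).2 fun x => by
    rw [qe]
    by_cases hx : x ∈ (A.e i).source
    · rw [ext_mem _ hx, mul_assoc]
      exact (Complex.abs_re_le_norm _).trans
        ((norm_mul_le _ _).trans (mul_le_mul (cB _) (lb f _) (norm_nonneg _) B0))
    · rw [ext_not _ hx, norm_zero]
      positivity
  let J := ContinuousMap.linearIsometryBoundedOfCompact M ℝ ℝ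
  have n1 {f : C(M, ℝ)} (hf : f ∈ ball (0 : C(M, ℝ)) 1) {D : ℝ} (hD : 0 ≤ D) : D * ‖f‖ ≤ D :=
    mul_le_of_le_one_right hD (mem_ball_zero_iff.1 hf).le
  have K : IsCompact (closure ((fun f => J (q f)) '' ball 0 1)) := by
    refine BoundedContinuousFunction.arzela_ascoli (closedBall 0 (B * |C|))
      (isCompact_closedBall _ _) _ ?_ fun x => ?_
    · rintro _ x ⟨f, hf, rfl⟩
      exact mem_closedBall_zero_iff.2 (((q f).norm_coe_le_norm x).trans
        ((qb f).trans (n1 hf (by positivity))))
    by_cases hx : x ∈ (A.e i).source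
    · have t := (A.e i).continuousAt hx
      refine Metric.equicontinuousAt_of_continuity_modulus (fun y =>
        B * (|C| * √‖A.e i x - A.e i y‖) + ‖c (A.e i x) - c (A.e i y)‖ * |C|) ?_ _ ?_
      · have u := ((hc.continuousAt (isOpen_ball.mem_nhds (map_mem hx))).tendsto.comp
          t).const_sub (c (A.e i x))
        simpa using ((((sq _).comp t).const_mul |C|).const_mul B).add (u.norm.mul_const |C|)
      · filter_upwards [(A.e i).open_source.mem_nhds hx] with y hy
        rintro ⟨_, f, hf, rfl⟩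
        change dist (q f x) (q f y) ≤ _
        rw [qe, qe, ext_mem _ hx, ext_mem _ hy, Real.dist_eq, ← Complex.sub_re]
        generalize A.e i x = z, A.e i y = w
        rw [show c z * L f z - c w * L f w = c z * (L f z - L f w) + (c z - c w) * L f w by ring]
        refine (Complex.abs_re_le_norm _).trans ((norm_add_le _ _).trans (add_le_add ?_ ?_))
        · refine (norm_mul_le _ _).trans (mul_le_mul (cB z) ((hb f z w).2.trans ?_)
            (norm_nonneg _) B0)
          exact mul_le_mul_of_nonneg_right ((mul_le_mul_of_nonneg_right (le_abs_self C)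
            (norm_nonneg _)).trans (n1 hf (abs_nonneg C))) (Real.sqrt_nonneg _)
        · exact (norm_mul_le _ _).trans (mul_le_mul_of_nonneg_left
            ((lb f w).trans (n1 hf (abs_nonneg C))) (norm_nonneg _))
    · refine Metric.equicontinuousAt_of_continuity_modulus (fun _ => 0) tendsto_const_nhds _ ?_
      filter_upwards [ev_far hx] with y hy
      rintro ⟨_, f, hf, rfl⟩
      change dist (q f x) (q f y) ≤ _
      rw [qe, qe, ext_not _ hx]
      by_cases h : y ∈ (A.e i).source
      · simp [ext_mem _ h, h0 _ (hy h)]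
      · simp [ext_not _ h]
  exact ⟨q.mkContinuous _ qb, ⟨_, K.image J.symm.continuous, mem_of_superset
    (ball_mem_nhds 0 one_pos) fun f hf => ⟨_, subset_closure ⟨f, hf, rfl⟩, J.symm_apply_apply _⟩⟩,
    qe⟩

/-- hint: Stone-Weierstrass; `ext i be`, `ext i (be * re)`, `ext i (be * im)` separate points -/
theorem sm_dense [CompactSpace M] [T2Space M] (f : C(M, ℝ)) {ε : ℝ} (hε : 0 < ε) :
    ∃ v : C(M, ℝ), A.Sm ∞ v ∧ ‖v - f‖ ≤ ε := by
  let S : Subalgebra ℝ C(M, ℝ) :=
    { carrier := {v | A.Sm ∞ v}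
      mul_mem' := fun h k x => (h x).mul (k x)
      add_mem' := fun h k x => (h x).add (k x)
      algebraMap_mem' := fun r _ => smAt_const r }
  have hS : S.SeparatesPoints := fun x y hxy => by
    by_contra! H
    have hx := A.idx_mem x
    have k (φ : ℂ → ℝ) (hφ : ContDiff ℝ ∞ φ) :
        φ (A.e (A.idx x) x) = A.ext (A.idx x) (fun z => be z * φ z) y := by
      have s : A.Sm ∞ (A.ext (A.idx x) fun z => be z * φ z) :=
        sm_ext _ (be.contDiff.mul hφ).contDiffOn fun z hz => by
          rw [be_zero (by linarith), zero_mul]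
      refine Eq.trans ?_ (H (A.ext _ _) ⟨⟨_, s.continuous⟩, s, rfl⟩)
      rw [ext_mem _ hx.1, be_one hx.2.le, one_mul]
    have k1 := k (fun _ => 1) contDiff_const
    have hy : y ∈ (A.e (A.idx x)).source := by_contra fun h => by simp [ext_not _ h] at k1
    have k2 := k _ Complex.reCLM.contDiff
    have k3 := k _ Complex.imCLM.contDiff
    rw [ext_mem _ hy] at k1 k2 k3
    rw [mul_one] at k1
    rw [← k1, one_mul] at k2 k3
    exact hxy ((A.e _).injOn hx.1 hy (Complex.ext k2 k3))
  obtain ⟨g, hg⟩ :=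
    ContinuousMap.exists_mem_subalgebra_near_continuousMap_of_separatesPoints S hS f ε hε
  exact ⟨g, g.2, hg.le⟩

end Atl

end

end Pool.Agent.Lib.MP_21f752_an.U
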