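import Mathlib

/-! Continuation of germs over the half-plane. -/

namespace Pool.Agent.Lib.MP_21f752_an.U

open Set Filter Topology Metric MeasureTheory
open Complex (I)
open scoped ContDiff Laplacian UpperHalfPlane Manifold MatrixGroups

noncomputable section

theorem ext_glue {X M ι : Type} [TopologicalSpace X] (d : X → M) (U : ι → Set X) (f : ι → X → M)
    (o : ∀ i, IsOpen (U i)) (h : ∀ i j, EqOn (f i) (f j) (U i ∩ U j)) :
    ∃ F : X → M, ∀ i, ∀ w ∈ U i, F =ᶠ[𝓝 w] f i := by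
  classical
  refine ⟨fun w => if k : ∃ i, w ∈ U i then f k.choose w else d w, fun i w hw => ?_⟩
  filter_upwards [(o i).mem_nhds hw] with y hy
  have k : ∃ i, y ∈ U i := ⟨i, hy⟩
  rw [dif_pos k]
  exact h _ _ ⟨k.choose_spec, hy⟩

theorem ext_conn (a b : ℍ) (r s : ℝ) : IsPreconnected (ball a r ∩ ball b s) := by
  rw [← UpperHalfPlane.isEmbedding_coe.isInducing.isPreconnected_image,
    image_inter UpperHalfPlane.isEmbedding_coe.injective, UpperHalfPlane.image_coe_ball,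
    UpperHalfPlane.image_coe_ball]
  exact ((convex_ball _ _).inter (convex_ball _ _)).isPreconnected

theorem ext_cl (z : ℍ) {R : ℝ} (h : 0 < R) : closedBall z R ⊆ closure (ball z R) := fun w hw => by
  rw [UpperHalfPlane.isEmbedding_coe.isInducing.closure_eq_preimage_closure_image,
    UpperHalfPlane.image_coe_ball,
    closure_ball _ (mul_pos z.im_pos (Real.sinh_pos_iff.2 h)).ne', ← UpperHalfPlane.image_coe_closedBall]
  exact ⟨w, hw, rfl⟩

theorem ext_more {z : ℍ} {R : ℝ} {D : Set ℍ} (o : IsOpen D) (h : closedBall z R ⊆ D) :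
    ∃ R', R < R' ∧ ball z R' ⊆ D := by
  by_cases e : (closedBall z (R + 1) \ D).Nonempty
  · obtain ⟨w, hw, m⟩ := ((isCompact_closedBall z (R + 1)).diff o).exists_isMinOn e
      (continuous_id.dist continuous_const (g := fun _ => z)).continuousOn
    refine ⟨dist w z, lt_of_not_ge fun k => hw.2 (h k), fun y hy => ?_⟩
    by_contra k
    have l : dist w z ≤ dist y z := m ⟨(mem_ball.1 hy).le.trans hw.1, k⟩
    exact l.not_gt hy
  · exact ⟨R + 1, lt_add_one R, fun y hy => by_contra fun k => e ⟨y, ball_subset_closedBall hy, k⟩⟩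

/-- hint: let `R` be a radius with a good `Q` on `ball z R`. For `w` in
`D = {w | ∃ m ∈ ball z R, dist m w < ε/2}` put `Q' w = q_m w` (`q_m` from `hext` at `m`); two
choices agree since `m' ∈ ball m ε ∩ ball m' ε ∩ ball z R` and intersections of balls are
preconnected (`UpperHalfPlane.image_coe_ball`: Euclidean discs). `D` is open and contains
`closedBall z R`, so a larger ball (proper space). Supremum of the radii. -/
theorem ext_germ {M : Type} (P : (ℍ → M) → ℍ → Prop)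
    (hloc : ∀ q q' z, q' =ᶠ[𝓝 z] q → P q z → P q' z)
    (hid : ∀ (U : Set ℍ) (q q' : ℍ → M) (z : ℍ), IsOpen U → IsPreconnected U →
      (∀ y ∈ U, P q y ∧ P q' y) → z ∈ U → q =ᶠ[𝓝 z] q' → EqOn q q' U)
    {ε : ℝ} (hε : 0 < ε)
    (hext : ∀ z q, (∀ᶠ y in 𝓝 z, P q y) → ∃ q', (∀ y ∈ ball z ε, P q' y) ∧ q' =ᶠ[𝓝 z] q)
    {z : ℍ} {q : ℍ → M} (h : ∀ᶠ y in 𝓝 z, P q y) : ∃ Q, (∀ y, P Q y) ∧ Q =ᶠ[𝓝 z] q := by
  let S : Set ℝ := {R | 0 < R ∧ ∃ Q, (∀ y ∈ ball z R, P Q y) ∧ Q =ᶠ[𝓝 z] q}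
  have s0 : ε ∈ S := ⟨hε, hext z q h⟩
  have more : ∀ R ∈ S, ∃ R' ∈ S, R < R' := by
    rintro R ⟨R0, Q, hQ, eQ⟩
    choose f pf ef using fun m : ball z R =>
      hext m Q (eventually_of_mem (isOpen_ball.mem_nhds m.2) hQ)
    obtain ⟨F, hF⟩ := ext_glue q (fun m : ball z R => ball m.1 (ε / 2)) f (fun _ => isOpen_ball)
      fun m m' w hw => by
        have d : m'.1 ∈ ball m.1 ε := mem_ball.2 (by
          linarith [mem_ball.1 hw.1, mem_ball.1 hw.2, dist_triangle_left m'.1 m.1 w])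
        have a := hid _ _ _ _ (isOpen_ball.inter isOpen_ball) (ext_conn m z ε R)
          (fun y hy => ⟨pf m y hy.1, hQ y hy.2⟩) ⟨mem_ball_self hε, m.2⟩ (ef m)
        have b : f m =ᶠ[𝓝 m'.1] Q :=
          a.eventuallyEq_of_mem ((isOpen_ball.inter isOpen_ball).mem_nhds ⟨d, m'.2⟩)
        exact hid _ _ _ _ (isOpen_ball.inter isOpen_ball) (ext_conn m m' ε ε)
          (fun y hy => ⟨pf m y hy.1, pf m' y hy.2⟩) ⟨d, mem_ball_self hε⟩ (b.trans (ef m').symm)
          ⟨ball_subset_ball (half_le_self hε.le) hw.1, ball_subset_ball (half_le_self hε.le) hw.2⟩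
    obtain ⟨R', a, b⟩ := ext_more (z := z) (R := R) (D := ⋃ m : ball z R, ball m.1 (ε / 2))
      (isOpen_iUnion fun _ => isOpen_ball) fun w hw => by
        obtain ⟨m, hm, d⟩ := Metric.mem_closure_iff.1 (ext_cl z R0 hw) _ (half_pos hε)
        exact mem_iUnion.2 ⟨⟨m, hm⟩, d⟩
    refine ⟨R', ⟨R0.trans a, F, fun y hy => ?_, ?_⟩, a⟩
    · obtain ⟨m, hm⟩ := mem_iUnion.1 (b hy)
      exact hloc _ _ _ (hF m y hm) (pf m y (ball_subset_ball (half_le_self hε.le) hm))
    · exact ((hF ⟨z, mem_ball_self R0⟩ z (mem_ball_self (half_pos hε))).trans (ef _)).trans eQ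
  choose f pf ef using fun R : S => R.2.2
  obtain ⟨F, hF⟩ := ext_glue q (fun R : S => ball z R.1) f (fun _ => isOpen_ball) fun R R' =>
    hid _ _ _ _ (isOpen_ball.inter isOpen_ball) (ext_conn z z R R')
      (fun y hy => ⟨pf R y hy.1, pf R' y hy.2⟩) ⟨mem_ball_self R.2.1, mem_ball_self R'.2.1⟩
      ((ef R).trans (ef R').symm)
  have e : F =ᶠ[𝓝 z] q := (hF ⟨ε, s0⟩ z (mem_ball_self hε)).trans (ef _)
  have p : ∀ y, ∀ R ∈ S, dist y z < R → P F y := fun y R hR k =>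
    hloc _ _ _ (hF ⟨R, hR⟩ y k) (pf _ y k)
  have nb : ¬ BddAbove S := fun b => by
    obtain ⟨R, hR, k⟩ := more (sSup S) ⟨hε.trans_le (le_csSup b s0), F, fun y hy => by
      obtain ⟨R, hR, k⟩ := exists_lt_of_lt_csSup ⟨ε, s0⟩ (mem_ball.1 hy)
      exact p y R hR k, e⟩
    exact (le_csSup b hR).not_gt k
  refine ⟨F, fun y => ?_, e⟩
  obtain ⟨R, hR, k⟩ := not_bddAbove_iff.1 nb (dist y z)
  exact p y R hR k

end

end Pool.Agent.Lib.MP_21f752_an.U
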