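import Pool.Agent.Lib.MP_21f752_an.U.Flat
import Pool.Agent.Lib.MP_21f752_an.U.Bas

/-! The Laplace operator, maximum principles. -/

namespace Pool.Agent.Lib.MP_21f752_an.U

open Set Filter Topology Metric MeasureTheory Pool.Agent.Lib.MP_1c0d65_gt
open Complex (I)
open scoped ContDiff Laplacian UpperHalfPlane Manifold MatrixGroups

noncomputable section

theorem two_le_infty : (2 : WithTop ℕ∞) ≤ ∞ := WithTop.coe_le_coe.2 (le_top : (2 : ℕ∞) ≤ ⊤)

namespace Atl
variable {M : Type} [TopologicalSpace M] {A : Atl M} {i j : A.ι} {x : M} {k : WithTop ℕ∞}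
  {F G u : M → ℝ}

theorem lam_at (hx : x ∈ (A.e i).source) : ContDiffAt ℝ ∞ (A.lam i) (A.e i x) :=
  (A.lam_sm i).contDiffAt (isOpen_ball.mem_nhds (map_mem hx))

theorem exp_tr (hi : x ∈ (A.e i).source) (hj : x ∈ (A.e j).source) :
    Real.exp (-2 * A.lam i (A.e i x)) * ‖deriv (A.e j ∘ (A.e i).symm) (A.e i x)‖ ^ 2 =
      Real.exp (-2 * A.lam j (A.e j x)) := by
  have h := A.lam_tr i j x hi hj
  have e : ∀ t : ℝ, Real.exp (-2 * t) = (Real.exp t ^ 2)⁻¹ := fun t => by
    rw [← Real.exp_nat_mul, ← Real.exp_neg]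
    norm_num
  have h0 := norm_ne_zero_iff.2 (deriv_ne hi hj)
  rw [e, e, h]
  field_simp

theorem lap_flat {Y : ℂ → ℝ} (hi : x ∈ (A.e i).source) (hj : x ∈ (A.e j).source)
    (h : ContDiffAt ℝ 2 Y (A.e j x)) :
    Real.exp (-2 * A.lam i (A.e i x)) * Δ (Y ∘ (A.e j ∘ (A.e i).symm)) (A.e i x) =
      Real.exp (-2 * A.lam j (A.e j x)) * Δ Y (A.e j x) := by
  have e : (A.e j ∘ (A.e i).symm) (A.e i x) = A.e j x := by
    rw [Function.comp_apply, (A.e i).left_inv hi]
  rw [lap_holo (A.hol i j x hi hj) (e ▸ h), e, ← exp_tr hi hj, mul_assoc]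

theorem lap_eq (h : A.SmAt 2 F x) (hx : x ∈ (A.e i).source) : A.lap F x = A.lapi i F x := by
  have hj := (A.idx_mem x).1
  rw [lap, lapi, lapi, (InnerProductSpace.laplacian_congr_nhds (comp_ev F hj hx)).self_of_nhds,
    lap_flat hj hx (h i hx)]

theorem Ki_eq (hi : x ∈ (A.e i).source) (hj : x ∈ (A.e j).source) : A.Ki i x = A.Ki j x := by
  have e : A.lam i =ᶠ[𝓝 (A.e i x)] (A.lam j ∘ (A.e j ∘ (A.e i).symm)) +
      fun z => Real.log ‖deriv (A.e j ∘ (A.e i).symm) z‖ := by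
    filter_upwards [isOpen_ball.mem_nhds (map_mem hi),
      (symm_tendsto hi).eventually ((A.e j).open_source.mem_nhds hj)] with z h1 h2
    have h3 := A.lam_tr i j _ (symm_mem i h1).1 h2
    have h4 := deriv_ne (symm_mem i h1).1 h2
    rw [(symm_mem i h1).2] at h3 h4
    have := congrArg Real.log h3
    rwa [Real.log_exp, Real.log_mul (Real.exp_pos _).ne' (norm_ne_zero_iff.2 h4),
      Real.log_exp] at this
  have e0 : (A.e j ∘ (A.e i).symm) (A.e i x) = A.e j x := by
    rw [Function.comp_apply, (A.e i).left_inv hi]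
  have l := lap_log_norm (A.hol i j x hi hj).deriv (deriv_ne hi hj)
  have h2 := (lam_at hj).of_le two_le_infty
  rw [Ki, Ki, (InnerProductSpace.laplacian_congr_nhds e).self_of_nhds,
    ContDiffAt.laplacian_add ((e0 ▸ h2).comp _ ((A.hol i j x hi hj).contDiffAt.restrict_scalars ℝ))
      (l.1.of_le two_le_infty), l.2, add_zero, neg_mul, lap_flat hi hj h2, neg_mul, neg_mul]

theorem K_eq (hx : x ∈ (A.e i).source) : A.K x = A.Ki i x := Ki_eq (A.idx_mem x).1 hx

theorem lap_congr (e : F =ᶠ[𝓝 x] G) : A.lap F x = A.lap G x := by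
  have e' : F ∘ (A.e _).symm =ᶠ[𝓝 _] G ∘ (A.e _).symm := (symm_tendsto (A.idx_mem x).1).eventually e
  rw [lap, lap, lapi, lapi, (InnerProductSpace.laplacian_congr_nhds e').self_of_nhds]

theorem lap_const (c : ℝ) : A.lap (fun _ => c) x = 0 := by
  rw [lap, lapi, show (fun _ : M => c) ∘ (A.e (A.idx x)).symm = fun _ => c from rfl,
    InnerProductSpace.laplacian_const, Pi.zero_apply, mul_zero]

theorem lap_add (h : A.SmAt 2 F x) (h' : A.SmAt 2 G x) :
    A.lap (fun y => F y + G y) x = A.lap F x + A.lap G x := by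
  have hj := (A.idx_mem x).1
  rw [lap, lap, lap, lapi, lapi, lapi, ← mul_add, ← (h _ hj).laplacian_add (h' _ hj)]
  rfl

theorem lap_sub (h : A.SmAt 2 F x) (h' : A.SmAt 2 G x) :
    A.lap (fun y => F y - G y) x = A.lap F x - A.lap G x := by
  have hj := (A.idx_mem x).1
  rw [lap, lap, lap, lapi, lapi, lapi, ← mul_sub, ← (h _ hj).laplacian_sub (h' _ hj)]
  rfl

theorem lap_cmul (c : ℝ) (h : A.SmAt 2 F x) : A.lap (fun y => c * F y) x = c * A.lap F x := by
  have hj := (A.idx_mem x).1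
  rw [lap, lap, lapi, lapi, mul_left_comm, ← smul_eq_mul c,
    ← InnerProductSpace.laplacian_smul c (h _ hj)]
  rfl

theorem lap_sum {κ : Type} {s : Finset κ} {f : κ → M → ℝ} (h : ∀ l ∈ s, A.SmAt 2 (f l) x) :
    A.lap (fun y => ∑ l ∈ s, f l y) x = ∑ l ∈ s, A.lap (f l) x := by
  classical
  induction s using Finset.induction_on with
  | empty => simpa using lap_const 0
  | insert a s ha ih =>
    have h1 := fun l hl => h l (Finset.mem_insert_of_mem hl)
    simp only [Finset.sum_insert ha]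
    rw [lap_add (h a (Finset.mem_insert_self _ _)) (SmAt.sum h1), ih h1]

theorem smAt_chart {Y : ℂ → ℝ} (hx : x ∈ (A.e i).source) (h : ContDiffAt ℝ k Y (A.e i x))
    (e : ∀ᶠ y in 𝓝 x, y ∈ (A.e i).source → F y = Y (A.e i y)) : A.SmAt k F x := by
  refine smAt_of hx (h.congr_of_eventuallyEq ?_)
  filter_upwards [isOpen_ball.mem_nhds (map_mem hx), (symm_tendsto hx).eventually e] with z h1 h2
  rw [Function.comp_apply, h2 (symm_mem i h1).1, (symm_mem i h1).2]

theorem smAt_lap (h : ∀ᶠ y in 𝓝 x, A.SmAt ∞ F y) : A.SmAt ∞ (A.lap F) x := by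
  have hx := (A.idx_mem x).1
  exact smAt_chart hx ((contDiffAt_const.mul (lam_at hx)).exp.mul
    (lap_contDiffAt (h.self_of_nhds _ hx)))
    (h.mono fun y h1 h2 => lap_eq (h1.of_le two_le_infty) h2)

theorem Sm.lap (h : A.Sm ∞ F) : A.Sm ∞ (A.lap F) := fun _ => smAt_lap (.of_forall h)

theorem sm_K (A : Atl M) : A.Sm ∞ A.K := fun x => by
  have hx := (A.idx_mem x).1
  exact smAt_chart hx ((contDiffAt_const.mul (lam_at hx)).exp.neg.mul
    (lap_contDiffAt (lam_at hx))) (.of_forall fun y h2 => K_eq h2)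

theorem K_conf (hu : A.Sm ∞ u) (x : M) :
    (A.conf u hu).K x = Real.exp (-2 * u x) * (A.K x - A.lap u x) := by
  have hx := (A.idx_mem x).1
  have := ((lam_at hx).of_le two_le_infty).laplacian_add ((hu x _ hx).of_le two_le_infty)
  rw [K_eq (A := A.conf u hu) (i := A.idx x) hx, K, lap, lapi]
  unfold Ki
  change -Real.exp (-2 * (A.lam _ (A.e (A.idx x) x) + u ((A.e _).symm (A.e (A.idx x) x)))) *
    Δ (A.lam (A.idx x) + u ∘ (A.e (A.idx x)).symm) (A.e (A.idx x) x) = _
  rw [this, (A.e _).left_inv hx, mul_add (-2 : ℝ), Real.exp_add]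
  ring

theorem lap_conf (hu : A.Sm ∞ u) (h : A.SmAt 2 F x) :
    (A.conf u hu).lap F x = Real.exp (-2 * u x) * A.lap F x := by
  have hx := (A.idx_mem x).1
  rw [lap_eq (A := A.conf u hu) (i := A.idx x) h hx, lap]
  unfold lapi
  change Real.exp (-2 * (A.lam _ (A.e (A.idx x) x) + u ((A.e _).symm (A.e (A.idx x) x)))) *
    Δ (F ∘ (A.e (A.idx x)).symm) (A.e (A.idx x) x) = _
  rw [(A.e _).left_inv hx, mul_add, Real.exp_add]
  ring

theorem lap_ext [T2Space M] (i : A.ι) {Y : ℂ → ℝ} (hY : ContDiffOn ℝ 2 Y (ball 0 4))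
    (h0 : ∀ z, 3 < ‖z‖ → Y z = 0) (x : M) :
    A.lap (A.ext i Y) x = A.ext i (fun z => Real.exp (-2 * A.lam i z) * Δ Y z) x := by
  by_cases hx : x ∈ (A.e i).source
  · rw [lap_eq (sm_ext i hY h0 x) hx, ext_mem _ hx, lapi,
      (InnerProductSpace.laplacian_congr_nhds (ext_ev Y hx)).self_of_nhds]
  · rw [lap_congr (ext_ev_zero h0 hx), lap_const, ext_not _ hx]

theorem max_chart (hx : x ∈ (A.e i).source) (hm : IsLocalMax F x) :
    IsLocalMax (F ∘ (A.e i).symm) (A.e i x) := by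
  filter_upwards [(symm_tendsto hx).eventually hm] with z hz
  simpa only [Function.comp_apply, (A.e i).left_inv hx] using hz

theorem max_weak (h : A.SmAt 2 F x) (hm : IsLocalMax F x) : A.lap F x ≤ 0 :=
  mul_nonpos_of_nonneg_of_nonpos (Real.exp_pos _).le
    (lap_max (h _ (A.idx_mem x).1) (max_chart (A.idx_mem x).1 hm))

theorem max_strong (h : ∀ᶠ y in 𝓝 x, A.SmAt 2 F y ∧ A.lap F y = 0) (hm : IsLocalMax F x) :
    ∀ᶠ y in 𝓝 x, F y = F x := by
  have hx := (A.idx_mem x).1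
  have := harm_max (F := F ∘ (A.e (A.idx x)).symm) (by
    filter_upwards [isOpen_ball.mem_nhds (map_mem hx), (symm_tendsto hx).eventually h] with z h1 h2
    have h3 := h2.1 _ (symm_mem _ h1).1
    have h4 := h2.2
    rw [lap_eq h2.1 (symm_mem _ h1).1, lapi] at h4
    rw [(symm_mem _ h1).2] at h3 h4
    exact ⟨h3, (mul_eq_zero.1 h4).resolve_left (Real.exp_pos _).ne'⟩) (max_chart hx hm)
  rw [ev_chart hx]
  simpa only [Function.comp_apply, (A.e _).left_inv hx] using this

theorem le_of_lap [CompactSpace M] (h : A.Sm 2 u) {l b : ℝ} (hl : 0 < l)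
    (hb : ∀ x, -(l * b) ≤ A.lap u x - l * u x) (x : M) : u x ≤ b := by
  obtain ⟨y, -, hy⟩ := isCompact_univ.exists_isMaxOn ⟨x, mem_univ _⟩ h.continuous.continuousOn
  have h1 := max_weak (h y) (hy.isLocalMax univ_mem)
  exact (hy (mem_univ x)).trans (le_of_mul_le_mul_left (by linarith [hb y]) hl)

theorem ge_of_lap [CompactSpace M] (h : A.Sm 2 u) {l a : ℝ} (hl : 0 < l)
    (hb : ∀ x, A.lap u x - l * u x ≤ -(l * a)) (x : M) : a ≤ u x := by
  have := le_of_lap (A := A) (u := fun y => -1 * u y) (b := -a)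
    (fun y => (smAt_const _).mul (h y)) hl (fun y => by
      rw [lap_cmul _ (h y)]
      linarith [hb y]) x
  linarith

theorem const_of_lap [CompactSpace M] [ConnectedSpace M] (h : A.Sm 2 u) {c : ℝ}
    (hc : ∀ x, A.lap u x = c) : c = 0 ∧ ∀ x y, u x = u y := by
  obtain ⟨p, -, hp⟩ := isCompact_univ.exists_isMaxOn univ_nonempty h.continuous.continuousOn
  obtain ⟨q, -, hq⟩ := isCompact_univ.exists_isMinOn univ_nonempty h.continuous.continuousOn
  have h1 := max_weak (h p) (hp.isLocalMax univ_mem)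
  have h2 := max_weak (A := A) (F := fun y => -1 * u y) ((smAt_const _).mul (h q))
    (.of_forall fun y => by have : u q ≤ u y := hq (mem_univ y); linarith)
  rw [lap_cmul _ (h q), hc] at h2
  have c0 : c = 0 := by linarith [hc p]
  have hcl : IsClopen {y | u y = u p} := by
    refine ⟨isClosed_eq h.continuous continuous_const, isOpen_iff_mem_nhds.2 fun y hy => ?_⟩
    have := max_strong (A := A) (F := u) (x := y) (.of_forall fun w => ⟨h w, c0 ▸ hc w⟩)
      (.of_forall fun w => (hp (mem_univ w)).trans (Eq.ge hy))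
    exact this.mono fun w hw => hw.trans hy
  have := hcl.eq_univ ⟨p, rfl⟩
  exact ⟨c0, fun x y => (eq_univ_iff_forall.1 this x).trans (eq_univ_iff_forall.1 this y).symm⟩

end Atl

end

end Pool.Agent.Lib.MP_21f752_an.U
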