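import Mathlib

/-! A linear holomorphic differential equation. -/

namespace Pool.Agent.Lib.MP_21f752_an.U

open Set Filter Topology Metric MeasureTheory
open Complex (I)
open scoped ContDiff Laplacian UpperHalfPlane Manifold MatrixGroups

noncomputable section

/-- Picard series for a linear system on a small disc -/
theorem ode_sys {E : Type} [NormedAddCommGroup E] [NormedSpace ℂ E] [CompleteSpace E] {c : ℂ}
    {r K : ℝ} (hr : 0 < r) {A : ℂ → E →L[ℂ] E} (hA : DifferentiableOn ℂ A (ball c r))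
    (hK : ∀ z ∈ ball c r, ‖A z‖ ≤ K) (hs : K * r ≤ 1 / 2) (v : E) :
    ∃ Y : ℂ → E, Y c = v ∧ ∀ z ∈ ball c r, HasDerivAt Y (A z (Y z)) z := by
  have K0 : 0 ≤ K := (norm_nonneg _).trans (hK c (mem_ball_self hr))
  have step : ∀ (F : ℂ → E) (B : ℝ), DifferentiableOn ℂ F (ball c r) ∧
      (∀ z ∈ ball c r, ‖F z‖ ≤ B) → ∃ G : ℂ → E, G c = 0 ∧
        ∀ z ∈ ball c r, HasDerivAt G (A z (F z)) z ∧ ‖G z‖ ≤ B * (1 / 2) := fun F B h => by
    obtain ⟨G, g0, hG⟩ := (hA.clm_apply h.1).isExactOn_ball.with_val_at c 0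
    refine ⟨G, g0, fun z hz => ⟨hG z hz, ?_⟩⟩
    have B0 : 0 ≤ B := (norm_nonneg _).trans (h.2 z hz)
    have m := (convex_ball c r).norm_image_sub_le_of_norm_hasDerivWithin_le (C := K * B)
      (fun x hx => (hG x hx).hasDerivWithinAt) (fun x hx => ((A x).le_opNorm _).trans
        (mul_le_mul (hK x hx) (h.2 x hx) (norm_nonneg _) K0)) (mem_ball_self hr) hz
    rw [g0, sub_zero] at m
    calc ‖G z‖ ≤ K * B * r := m.trans (mul_le_mul_of_nonneg_left (mem_ball_iff_norm.1 hz).le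
          (mul_nonneg K0 B0))
      _ = B * (K * r) := by ring
      _ ≤ B * (1 / 2) := mul_le_mul_of_nonneg_left hs B0
  choose! T hT using step
  let Y : ℕ → ℂ → E := fun n => Nat.rec (fun _ => v) (fun n F => T F (‖v‖ * (1 / 2) ^ n)) n
  have inv : ∀ n, DifferentiableOn ℂ (Y n) (ball c r) ∧
      ∀ z ∈ ball c r, ‖Y n z‖ ≤ ‖v‖ * (1 / 2) ^ n := fun n => by
    induction n with
    | zero => exact ⟨differentiableOn_const v, fun _ _ => by simp [Y]⟩
    | succ n ih =>
      exact ⟨fun z hz => ((hT _ _ ih).2 z hz).1.differentiableAt.differentiableWithinAt,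
        fun z hz => by rw [pow_succ, ← mul_assoc]; exact ((hT _ _ ih).2 z hz).2⟩
  have su : Summable fun n : ℕ => ‖v‖ * (1 / 2 : ℝ) ^ n := summable_geometric_two.mul_left _
  refine ⟨fun z => ∑' n, Y n z, ?_, fun z hz => ?_⟩
  · refine tsum_eq_single 0 fun n hn => ?_
    obtain ⟨n, rfl⟩ := Nat.exists_eq_succ_of_ne_zero hn
    exact (hT _ _ (inv n)).1
  · have d := (Complex.differentiableOn_tsum_of_summable_norm su (fun n => (inv n).1) isOpen_ball
      fun n => (inv n).2).differentiableAt (isOpen_ball.mem_nhds hz)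
    have a := (hasSum_nat_add_iff' 1).2 (Complex.hasSum_deriv_of_summable_norm su
      (fun n => (inv n).1) isOpen_ball (fun n => (inv n).2) hz)
    have b := (A z).hasSum (Summable.of_norm_bounded su fun n => (inv n).2 z hz).hasSum
    have e : ∀ n, deriv (Y (n + 1)) z = A z (Y n z) := fun n => ((hT _ _ (inv n)).2 z hz).1.deriv
    have e0 : deriv (Y 0) z = 0 := deriv_const z v
    simp only [e, Finset.sum_range_one, e0, sub_zero] at a
    exact b.unique a ▸ d.hasDerivAt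

/-- hint: Neumann series with primitives on a small disc (`DifferentiableOn.isExactOn_ball`), or a
fixed point of `y ↦ a + b (z - c) - ∫∫ Q y` -/
theorem holo_ode {Q : ℂ → ℂ} {c : ℂ} (hQ : AnalyticAt ℂ Q c) (a b : ℂ) :
    ∃ y : ℂ → ℂ, y c = a ∧ deriv y c = b ∧
      ∀ᶠ z in 𝓝 c, AnalyticAt ℂ y z ∧ deriv (deriv y) z = -(Q z * y z) := by
  let A : ℂ → ℂ × ℂ →L[ℂ] ℂ × ℂ := fun z =>
    (ContinuousLinearMap.inl ℂ ℂ ℂ).comp (.snd ℂ ℂ ℂ) -
      Q z • (ContinuousLinearMap.inr ℂ ℂ ℂ).comp (.fst ℂ ℂ ℂ)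
  have hA : AnalyticAt ℂ A c := analyticAt_const.sub (hQ.smul analyticAt_const)
  have K0 : 0 < ‖A c‖ + 1 := by positivity
  obtain ⟨ρ, ρ0, hρ⟩ := Metric.eventually_nhds_iff_ball.1 (hA.eventually_analyticAt.and
    (hA.continuousAt.norm.eventually_le_const (lt_add_one _)))
  have r0 : 0 < min ρ (1 / 2 / (‖A c‖ + 1)) := lt_min ρ0 (by positivity)
  have sub := ball_subset_ball (x := c) (min_le_left ρ (1 / 2 / (‖A c‖ + 1)))
  obtain ⟨Y, y0, hY⟩ := ode_sys r0
    (fun z hz => (hρ z (sub hz)).1.differentiableAt.differentiableWithinAt)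
    (fun z hz => (hρ z (sub hz)).2)
    ((mul_le_mul_of_nonneg_left (min_le_right _ _) K0.le).trans_eq (mul_div_cancel₀ _ K0.ne')) (a, b)
  have d1 : ∀ z ∈ ball c (min ρ (1 / 2 / (‖A c‖ + 1))), HasDerivAt (fun z => (Y z).1) (Y z).2 z :=
    fun z hz => ((ContinuousLinearMap.fst ℂ ℂ ℂ).hasFDerivAt.comp_hasDerivAt z
      (hY z hz)).congr_deriv (by simp [A])
  have d2 : ∀ z ∈ ball c (min ρ (1 / 2 / (‖A c‖ + 1))),
      HasDerivAt (fun z => (Y z).2) (-(Q z * (Y z).1)) z :=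
    fun z hz => ((ContinuousLinearMap.snd ℂ ℂ ℂ).hasFDerivAt.comp_hasDerivAt z
      (hY z hz)).congr_deriv (by simp [A])
  refine ⟨fun z => (Y z).1, congrArg Prod.fst y0,
    (d1 c (mem_ball_self r0)).deriv.trans (congrArg Prod.snd y0), ?_⟩
  filter_upwards [ball_mem_nhds c r0] with z hz
  have n := isOpen_ball.mem_nhds hz
  refine ⟨DifferentiableOn.analyticAt
    (fun w hw => (d1 w hw).differentiableAt.differentiableWithinAt) n, ?_⟩
  exact ((d2 z hz).congr_of_eventuallyEq (eventually_of_mem n fun w hw => (d1 w hw).deriv)).deriv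

end

end Pool.Agent.Lib.MP_21f752_an.U
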