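import Pool.Agent.Lib.MP_21f752_an.U.Flat
import Pool.Agent.Lib.MP_21f752_an.U.Ode

/-! Curvature minus one is locally hyperbolic. -/

namespace Pool.Agent.Lib.MP_21f752_an.U

open Set Filter Topology Metric MeasureTheory Pool.Agent.Lib.MP_1c0d65_gt
open Complex (I)
open scoped ContDiff Laplacian UpperHalfPlane Manifold MatrixGroups

noncomputable section

/-- `f` has the Wirtinger derivatives `a`, `b` at `z`. -/
def LW (f : ℂ → ℂ) (a b z : ℂ) : Prop := HasFDerivAt f (A.lin a b) z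

namespace LW

variable {f g : ℂ → ℂ} {a b a' b' z : ℂ}

theorem eq (h : LW f a b z) (e : a = a') (e' : b = b') : LW f a' b' z := e ▸ e' ▸ h

theorem add (h : LW f a b z) (k : LW g a' b' z) : LW (fun x => f x + g x) (a + a') (b + b') z :=
  (HasFDerivAt.fun_add h k).congr_fderiv (by ext ξ; simp [A.lin_app]; ring)

theorem sub (h : LW f a b z) (k : LW g a' b' z) : LW (fun x => f x - g x) (a - a') (b - b') z :=
  (HasFDerivAt.fun_sub h k).congr_fderiv (A.lin_sub ..)

theorem mul (h : LW f a b z) (k : LW g a' b' z) :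
    LW (fun x => f x * g x) (a * g z + f z * a') (b * g z + f z * b') z :=
  (HasFDerivAt.fun_mul h k).congr_fderiv (by ext ξ; simp [A.lin_app]; ring)

theorem conj (h : LW f a b z) :
    LW (fun x => starRingEnd ℂ (f x)) (starRingEnd ℂ b) (starRingEnd ℂ a) z :=
  (Complex.conjCLE.hasFDerivAt.comp z h).congr_fderiv (by ext ξ; simp [A.lin_app]; ring)

theorem cexp (h : LW f a b z) :
    LW (fun x => Complex.exp (f x)) (Complex.exp (f z) * a) (Complex.exp (f z) * b) z :=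
  (HasFDerivAt.cexp h).congr_fderiv (by ext ξ; simp [A.lin_app]; ring)

theorem holo (h : HasDerivAt f a z) : LW f a 0 z :=
  (h.hasFDerivAt.restrictScalars ℝ).congr_fderiv (by ext ξ; simp [A.lin_app])

theorem cmul (h : LW f a b z) (c : ℂ) : LW (fun x => c * f x) (c * a) (c * b) z :=
  ((holo (hasDerivAt_const z c)).mul h).eq (by simp) (by simp)

theorem deriv (h : LW f a 0 z) : HasDerivAt f a z :=
  hasDerivAt_iff_hasFDerivAt.2 (hasFDerivAt_of_restrictScalars ℝ h (by ext ξ; simp [A.lin_app]))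

theorem of (h : DifferentiableAt ℝ f z) : LW f (A.dz (fderiv ℝ f z)) (A.db (fderiv ℝ f z)) z := by
  rw [LW, A.lin_dz_db]
  exact h.hasFDerivAt

theorem real {w : ℂ → ℝ} (h : DifferentiableAt ℝ w z) :
    LW (fun x => (w x : ℂ)) (grd w z / 2) (starRingEnd ℂ (grd w z / 2)) z :=
  (Complex.ofRealCLM.hasFDerivAt.comp z h.hasFDerivAt).congr_fderiv (by
    ext ξ
    simp only [ContinuousLinearMap.comp_apply, Complex.ofRealCLM_apply, fderiv_grd, A.lin_app,
      Complex.re_eq_add_conj, smul_eq_mul, map_mul, map_div₀, map_ofNat]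
    ring)

end LW

theorem liou_sym {f : ℂ → ℂ} {z : ℂ} (h : ContDiffAt ℝ 2 f z) :
    DifferentiableAt ℝ (fun x => A.dz (fderiv ℝ f x)) z ∧
      A.db (fderiv ℝ (fun x => A.dz (fderiv ℝ f x)) z) =
        A.dz (fderiv ℝ (fun x => A.db (fderiv ℝ f x)) z) := by
  have h1 : HasFDerivAt (fderiv ℝ f) (fderiv ℝ (fderiv ℝ f) z) z :=
    ((h.fderiv_right (m := 1) le_rfl).differentiableAt one_ne_zero).hasFDerivAt
  have h2 (v : ℂ) : HasFDerivAt (fun w => fderiv ℝ f w v) ((fderiv ℝ (fderiv ℝ f) z).flip v) z := by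
    simpa using h1.clm_apply (hasFDerivAt_const v z)
  have a : HasFDerivAt (fun x => A.dz (fderiv ℝ f x)) _ z :=
    ((h2 1).sub ((h2 I).const_smul I)).const_smul (2 : ℂ)⁻¹
  have b : HasFDerivAt (fun x => A.db (fderiv ℝ f x)) _ z :=
    ((h2 1).add ((h2 I).const_smul I)).const_smul (2 : ℂ)⁻¹
  refine ⟨a.differentiableAt, ?_⟩
  rw [a.fderiv, b.fderiv]
  simp [A.db, A.dz, h.isSymmSndFDerivAt (by simp) 1 I]
  ring

/-- The first order equation. -/
theorem liou_first {w : ℂ → ℝ} {c : ℂ}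
    (h : ∀ᶠ z in 𝓝 c, ContDiffAt ℝ ∞ w z ∧ Δ w z = Real.exp (2 * w z)) :
    ∃ y : ℂ → ℂ, y c = 1 ∧ ∀ᶠ z in 𝓝 c, HasDerivAt y
      (-(grd w z / 2 * y z) - I / 2 * Complex.exp (w z) * starRingEnd ℂ (y z)) z := by
  let p (z : ℂ) : ℂ := 2⁻¹ * grd w z
  let q (z : ℂ) : ℂ := A.dz (fderiv ℝ p z)
  have e2 : (2 : WithTop ℕ∞) ≤ ∞ := WithTop.coe_le_coe.2 (le_top : (2 : ℕ∞) ≤ ⊤)
  have e3 : (2 + 1 : WithTop ℕ∞) ≤ ∞ := WithTop.coe_le_coe.2 (le_top : (2 + 1 : ℕ∞) ≤ ⊤)
  have a : ∀ᶠ z in 𝓝 c, LW (fun x => (w x : ℂ)) (p z) (starRingEnd ℂ (p z)) z ∧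
      ContDiffAt ℝ 2 p z ∧ LW p (q z) (4⁻¹ * Complex.exp (2 * w z)) z := h.mono fun z k => by
    have g := grd_contDiffAt k.1 e3
    have l := (LW.of (g.differentiableAt two_ne_zero)).cmul 2⁻¹
    refine ⟨(LW.real (k.1.differentiableAt (by simp))).eq (by simp only [p]; ring)
      (congrArg _ (by simp only [p]; ring)), contDiffAt_const.mul g, l.eq ?_ ?_⟩
    · simp only [q, p, HasFDerivAt.fderiv l, A.dz_lin]
    · rw [db_grd (k.1.of_le e2), k.2]
      push_cast
      ring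
  have b : ∀ᶠ z in 𝓝 c, DifferentiableAt ℂ (fun x => q x - p x * p x) z :=
    a.eventually_nhds.mono fun z k => by
      obtain ⟨k1, k2, k3⟩ := k.self_of_nhds
      obtain ⟨s1, s2⟩ := liou_sym k2
      have e : (fun x => A.db (fderiv ℝ p x)) =ᶠ[𝓝 z] fun x => 4⁻¹ * Complex.exp (2 * w x) :=
        k.mono fun x l => by simp only [HasFDerivAt.fderiv l.2.2, A.db_lin]
      rw [e.fderiv_eq, HasFDerivAt.fderiv ((k1.cmul 2).cexp.cmul 4⁻¹), A.dz_lin] at s2
      exact (((LW.of s1).sub (k3.mul k3)).eq rfl (by rw [s2]; ring)).deriv.differentiableAt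
  obtain ⟨y, y1, y2, y3⟩ := holo_ode (Complex.analyticAt_iff_eventually_differentiableAt.2 b) 1 (-p c)
  refine ⟨fun z => y z - I * (2 * starRingEnd ℂ (Complex.exp (-1 * w z) * (deriv y z + p z * y z))),
    by simp [y1, y2], (a.and y3).mono fun z ⟨⟨k1, _, k3⟩, k4, k5⟩ => ?_⟩
  have d1 := LW.holo k4.differentiableAt.hasDerivAt
  have d2 := LW.holo k4.deriv.differentiableAt.hasDerivAt
  have v := ((k1.cmul (-1)).cexp.mul (d2.add (k3.mul d1))).conj
  have r (k : ℂ) (l : starRingEnd ℂ k = k) :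
      starRingEnd ℂ (Complex.exp (k * w z)) = Complex.exp (k * w z) := by
    rw [← Complex.exp_conj, map_mul, l, Complex.conj_ofReal]
  have x1 : Complex.exp (-1 * w z) * Complex.exp (w z) = 1 := by simp [← Complex.exp_add]
  have x2 : Complex.exp (2 * w z) = Complex.exp (w z) * Complex.exp (w z) := by
    rw [← Complex.exp_add, two_mul]
  refine ((d1.sub ((v.cmul 2).cmul I)).eq ?_ ?_).deriv
  · simp only [map_add, map_mul, map_sub, map_neg, map_one, map_zero, map_inv₀, map_ofNat,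
      Complex.conj_conj, Complex.conj_I, r (-1) (by simp), r 2 (map_ofNat _ 2)]
    rw [show grd w z / 2 = p z by simp only [p]; ring, x2]
    generalize Complex.exp (-1 * w z) = η, Complex.exp (w z) = E at x1
    linear_combination (-(I / 2) * E * starRingEnd ℂ (y z) - (deriv y z + p z * y z)) * x1 +
      (E * η * (deriv y z + p z * y z)) * Complex.I_mul_I
  · rw [k5, show Complex.exp (-1 * w z) * (-1 * p z) * (deriv y z + p z * y z) +
      Complex.exp (-1 * w z) * (-((q z - p z * p z) * y z) + (q z * y z + p z * deriv y z)) = 0 by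
        ring]
    simp

/-- hint (∂ = dz, η = exp (-w)): `Q = ∂∂w - (∂w)²` is holomorphic, `∂∂η = -Q η`,
`η ∂∂̄η - ‖∂η‖² = -1/4`. For a solution `y` of `y'' = -Q y`, `σ y = 2 conj (η y' - ∂η y)` is
holomorphic and `σ σ y = y`. Take `y = y₀ - I σ y₀` with `y c ≠ 0` (`y₀` or `I y₀`); then
`2 (η y' - ∂η y) = -I conj y` (with `y₀ c = 1`, `y₀' c = ∂η c / η c` one has `y c = 1`), and a primitive `φ` of `-1/y²` has `im φ = η / ‖y‖² + const`. -/
theorem liouville {w : ℂ → ℝ} {c : ℂ}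
    (h : ∀ᶠ z in 𝓝 c, ContDiffAt ℝ ∞ w z ∧ Δ w z = Real.exp (2 * w z)) :
    ∃ φ : ℂ → ℂ, ∀ᶠ z in 𝓝 c, AnalyticAt ℂ φ z ∧ 0 < (φ z).im ∧
      ‖deriv φ z‖ = Real.exp (w z) * (φ z).im := by
  obtain ⟨y, y1, y2⟩ := liou_first h
  have y3 : ∀ᶠ z in 𝓝 c, y z ≠ 0 :=
    y2.self_of_nhds.continuousAt.eventually_ne (by rw [y1]; exact one_ne_zero)
  obtain ⟨r, r0, hr⟩ := Metric.eventually_nhds_iff_ball.1 (h.and (y2.and y3))
  have i (z) (k : z ∈ ball c r) := (hr z k).2.1.fun_inv (hr z k).2.2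
  obtain ⟨φ, f1, f2⟩ := (DifferentiableOn.isExactOn_ball (f := fun z => -((y z)⁻¹ * (y z)⁻¹))
    fun z k => ((i z k).differentiableAt.mul (i z k).differentiableAt).neg.differentiableWithinAt
      ).with_val_at c (I * Complex.exp (-1 * w c))
  have s (z : ℂ) : Complex.exp (-1 * w z) = (Real.exp (w z) : ℝ)⁻¹ := by
    simp [Complex.exp_neg]
  have R (z) (k : z ∈ ball c r) : LW (fun x => φ x - starRingEnd ℂ (φ x) - 2 * I *
      (Complex.exp (-1 * w x) * ((y x)⁻¹ * starRingEnd ℂ (y x)⁻¹))) 0 0 z := by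
    have a := LW.holo (f2 z k)
    have b := LW.holo (i z k)
    have d := LW.real ((hr z k).1.1.differentiableAt (by simp))
    have n := (hr z k).2.2
    have n' : starRingEnd ℂ (y z) ≠ 0 := by simpa using n
    have e := Complex.exp_ne_zero (w z)
    refine ((a.sub a.conj).sub (((d.cmul (-1)).cexp.mul (b.mul b.conj)).cmul (2 * I))).eq ?_ ?_ <;>
      simp only [map_mul, map_sub, map_neg, map_zero, map_inv₀, map_ofNat, map_div₀, map_pow,
        Complex.conj_conj, Complex.conj_I, ← Complex.exp_conj, Complex.conj_ofReal, neg_one_mul,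
        Complex.exp_neg] <;> field_simp <;> ring_nf <;> simp
  have R0 (z) (k : z ∈ ball c r) := isOpen_ball.is_const_of_fderiv_eq_zero (𝕜 := ℝ)
    (convex_ball c r).isPreconnected
    (fun x l => (HasFDerivAt.differentiableAt (R x l)).differentiableWithinAt)
    (fun x l => (HasFDerivAt.fderiv (R x l)).trans (by ext; simp [A.lin_app])) k (mem_ball_self r0)
  refine ⟨φ, mem_of_superset (ball_mem_nhds c r0) fun z k => ?_⟩
  have e : (φ z).im = (Real.exp (w z))⁻¹ * ‖(y z)⁻¹‖ ^ 2 := by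
    have := congrArg Complex.im (R0 z k)
    rw [f1, y1, s, s, Complex.mul_conj', ← Complex.ofReal_pow, ← Complex.ofReal_mul] at this
    generalize (Real.exp (w z))⁻¹ * ‖(y z)⁻¹‖ ^ 2 = u, (Real.exp (w c))⁻¹ = v at this ⊢
    simp at this
    linarith
  have := norm_pos_iff.2 (inv_ne_zero (hr z k).2.2)
  refine ⟨DifferentiableOn.analyticAt (s := ball c r)
    (fun x l => (f2 x l).differentiableAt.differentiableWithinAt) (isOpen_ball.mem_nhds k),
    by rw [e]; positivity, ?_⟩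
  rw [(f2 z k).deriv, e, norm_neg, norm_mul, mul_inv_cancel_left₀ (Real.exp_pos _).ne', sq]

end

end Pool.Agent.Lib.MP_21f752_an.U
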