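import Pool.Agent.Lib.MP_21f752_an.U.IsoA
import Pool.Agent.Lib.MP_21f752_an.U.Liou
import Pool.Agent.Lib.MP_21f752_an.U.Ext
import Pool.Agent.Lib.MP_21f752_an.U.LapA

/-! The covering and its group. -/

namespace Pool.Agent.Lib.MP_21f752_an.U

open Set Filter Topology Metric MeasureTheory Pool.Agent.Lib.MP_1c0d65_gt
open Complex (I)
open scoped ContDiff Laplacian UpperHalfPlane Manifold MatrixGroups

noncomputable section

theorem dev_coe (γ : SL(2, ℝ)) (y : ℍ) :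
    γ • y = y ↔ (γ 1 0 : ℂ) * y ^ 2 + (γ 1 1 - γ 0 0) * y - γ 0 1 = 0 := by
  have d : (γ 1 0 : ℂ) * y + γ 1 1 ≠ 0 := by
    simpa [UpperHalfPlane.denom] using UpperHalfPlane.denom_ne_zero (γ : GL (Fin 2) ℝ) y
  rw [UpperHalfPlane.ext_iff, UpperHalfPlane.coe_specialLinearGroup_apply]
  simp only [Algebra.algebraMap_self, RingHom.id_apply]
  rw [div_eq_iff d]
  constructor <;> intro h <;> linear_combination -h

theorem dev_fix {γ : SL(2, ℝ)} {z : ℍ} (h : ∀ᶠ y in 𝓝 z, γ • y = y) :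
    γ 0 1 = 0 ∧ γ 1 0 = 0 ∧ γ 0 0 = γ 1 1 := by
  have a : AnalyticOnNhd ℂ (fun y : ℂ => (γ 1 0 : ℂ) * y ^ 2 + (γ 1 1 - γ 0 0) * y - γ 0 1) univ :=
    fun y _ => by fun_prop
  have e := a.eqOn_zero_of_preconnected_of_eventuallyEq_zero isPreconnected_univ (mem_univ (z : ℂ))
    (by
      rw [← UpperHalfPlane.isOpenEmbedding_coe.map_nhds_eq]
      exact h.mono fun y hy => (dev_coe γ y).1 hy)
  have e0 := e (mem_univ 0)
  have e1 := e (mem_univ 1)
  have e2 := e (mem_univ (-1))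
  simp only [Pi.zero_apply] at e0 e1 e2
  refine ⟨?_, ?_, ?_⟩ <;> apply Complex.ofReal_injective <;> push_cast
  · linear_combination -e0
  · linear_combination (e1 + e2) / 2 - e0
  · linear_combination (e2 - e1) / 2

namespace Atl
variable {M : Type} [TopologicalSpace M] {A : Atl M} {q q' : ℍ → M} {z w : ℍ}

/-- hint: `liouville` for `lam i`; `q = (e i).symm ∘ φ⁻¹` -/
theorem exists_iso (hK : ∀ x, A.K x = -1) (x : M) :
    ∃ (q : ℍ → M) (z : ℍ), q z = x ∧ ∀ᶠ y in 𝓝 z, A.IsoAt q y := by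
  obtain ⟨i, hx, -⟩ := A.cov x
  have hb : ∀ᶠ u in 𝓝 (A.e i x), u ∈ ball (0 : ℂ) 4 := isOpen_ball.mem_nhds (map_mem hx)
  obtain ⟨φ, hφ⟩ := liouville (w := A.lam i) (c := A.e i x) (hb.mono fun u hu => by
    obtain ⟨h1, h2⟩ := symm_mem i hu
    refine ⟨h2 ▸ lam_at h1, ?_⟩
    have k := hK ((A.e i).symm u)
    rw [K_eq h1, Ki, h2] at k
    have e : Real.exp (2 * A.lam i u) * Real.exp (-2 * A.lam i u) = 1 := by
      rw [← Real.exp_add]; simp
    linear_combination -Real.exp (2 * A.lam i u) * k - Δ (A.lam i) u * e)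
  obtain ⟨a0, p0, n0⟩ := hφ.self_of_nhds
  have d0 : deriv φ (A.e i x) ≠ 0 := norm_ne_zero_iff.1 (by rw [n0]; positivity)
  let ψ := a0.hasStrictDerivAt.localInverse _ _ _ d0
  have aψ : AnalyticAt ℂ ψ (φ (A.e i x)) := a0.analyticAt_localInverse d0
  have l0 : ψ (φ (A.e i x)) = A.e i x := HasStrictFDerivAt.localInverse_apply_image ..
  have r0 : ∀ᶠ u in 𝓝 (φ (A.e i x)), φ (ψ u) = u := HasStrictDerivAt.eventually_right_inverse ..
  have t0 : Tendsto ψ (𝓝 (φ (A.e i x))) (𝓝 (A.e i x)) := by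
    have := aψ.continuousAt.tendsto
    rwa [l0] at this
  refine ⟨fun y => (A.e i).symm (ψ y), ⟨_, p0⟩, ?_, ?_⟩
  · exact (congrArg _ l0).trans ((A.e i).left_inv hx)
  have tc : Tendsto (fun y : ℍ => (y : ℂ)) (𝓝 ⟨_, p0⟩) (𝓝 (φ (A.e i x))) :=
    UpperHalfPlane.continuous_coe.tendsto _
  filter_upwards [tc.eventually aψ.eventually_analyticAt,
    tc.eventually (t0.eventually hb).eventually_nhds, tc.eventually r0.eventually_nhds,
    tc.eventually (t0.eventually hφ)] with y h1 h2 h3 ⟨h4, _, h5⟩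
  obtain ⟨m1, m2⟩ := symm_mem i h2.self_of_nhds
  have e : A.e i ∘ (fun y : ℍ => (A.e i).symm (ψ y)) ∘ UpperHalfPlane.ofComplex =ᶠ[𝓝 (y : ℂ)] ψ := by
    filter_upwards [h2, UpperHalfPlane.eventuallyEq_coe_comp_ofComplex y.im_pos] with u k1 k2
    simp only [Function.comp_apply, id] at k2 ⊢
    rw [k2, (symm_mem i k1).2]
  refine isoAt_of (i := i) ?_ m1 (h1.congr e.symm) ?_
  · exact ContinuousAt.comp (f := fun y : ℍ => ψ y)
      ((A.e i).continuousAt_symm (A.tgt i ▸ h2.self_of_nhds))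
      (h1.continuousAt.comp UpperHalfPlane.continuous_coe.continuousAt)
  · have c : deriv φ (ψ y) * deriv ψ y = 1 := by
      rw [← deriv_comp _ h4.differentiableAt h1.differentiableAt,
        EventuallyEq.deriv_eq (f₁ := φ ∘ ψ) (f := id) h3, deriv_id]
    have c' := congrArg norm c
    rw [norm_mul, norm_one, h5, h3.self_of_nhds] at c'
    rw [e.deriv_eq, m2, ← c', UpperHalfPlane.coe_im]
    ring

/-- hint: `q x` good on `ball (z x) (2 r x)`; finite subcover of the `q x '' ball (z x) (r x)`;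
`iso_rig` and `IsoAt.smul` -/
theorem iso_ext [CompactSpace M] (hK : ∀ x, A.K x = -1) : ∃ ε > 0, ∀ (z : ℍ) (q : ℍ → M),
    (∀ᶠ y in 𝓝 z, A.IsoAt q y) → ∃ q', (∀ y ∈ ball z ε, A.IsoAt q' y) ∧ q' =ᶠ[𝓝 z] q := by
  have H (x : M) : ∃ (q : ℍ → M) (z : ℍ) (r : ℝ), 0 < r ∧ q '' ball z r ∈ 𝓝 x ∧
      ∀ y ∈ ball z (2 * r), A.IsoAt q y := by
    obtain ⟨q, z, rfl, h⟩ := exists_iso hK x
    obtain ⟨r, r0, hr⟩ := Metric.eventually_nhds_iff_ball.1 h
    refine ⟨q, z, r / 2, by positivity, ?_, by rwa [mul_div_cancel₀ _ two_ne_zero]⟩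
    rw [← h.self_of_nhds.map_nhds]
    exact image_mem_map (ball_mem_nhds _ (by positivity))
  choose Q Z r r0 hU hQ using H
  obtain ⟨t, -, ht⟩ := isCompact_univ.elim_nhds_subcover _ fun x _ => hU x
  obtain ⟨ε, ε0, hε⟩ : ∃ ε > 0, ∀ x ∈ t, ε ≤ r x := by
    have : ∀ᶠ ε in 𝓝[>] (0 : ℝ), ∀ x ∈ t, ε ≤ r x := (eventually_all_finset t).2 fun x _ =>
      nhdsWithin_le_nhds (Iic_mem_nhds (r0 x))
    exact (this.and self_mem_nhdsWithin).exists.imp fun _ h => ⟨h.2, h.1⟩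
  refine ⟨ε, ε0, fun z q h => ?_⟩
  obtain ⟨x, hx, w, hw, e⟩ := mem_iUnion₂.1 (ht (mem_univ (q z)))
  have hw' : ball w (r x) ⊆ ball (Z x) (2 * r x) :=
    ball_subset_ball' (by linarith [mem_ball.1 hw])
  obtain ⟨γ, g1, g2⟩ := iso_rig h
    (mem_of_superset (ball_mem_nhds w (r0 x)) fun y hy => hQ x y (hw' hy)) e.symm
  refine ⟨_, fun y hy => IsoAt.smul γ (hQ x _ (hw' ?_)), g2⟩
  rw [mem_ball, ← g1, dist_smul]
  exact (mem_ball.1 hy).trans_le (hε x hx)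

/-- hint: `Γ = {γ | ∀ y, p (γ • y) = p y}`. Ranges of global isometries are open, equal or
disjoint, and cover `M`. Discrete and free: `p` is injective near each point; an element that fixes
an open set is `± 1`. Cocompact: the open sets `p '' ball I n` cover `M`. -/
theorem exists_dev [CompactSpace M] [T2Space M] [ConnectedSpace M] (hK : ∀ x, A.K x = -1) :
    ∃ (Γ : Subgroup SL(2, ℝ)) (p : ℍ → M), DiscreteTopology Γ ∧
      (∀ γ ∈ Γ, ∀ z : ℍ, γ • z = z → ∀ w : ℍ, γ • w = w) ∧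
      (∃ K : Set ℍ, IsCompact K ∧ ∀ z : ℍ, ∃ γ ∈ Γ, γ • z ∈ K) ∧ (∀ z, A.IsoAt p z) ∧
      Function.Surjective p ∧ (∀ γ ∈ Γ, ∀ z, p (γ • z) = p z) ∧
      ∀ z w, p z = p w → ∃ γ ∈ Γ, γ • z = w := by
  obtain ⟨ε, ε0, hε⟩ := iso_ext hK
  have glob (x : M) : ∃ (Q : ℍ → M) (z : ℍ), (∀ y, A.IsoAt Q y) ∧ Q z = x := by
    obtain ⟨q, z, e, h⟩ := exists_iso hK x
    obtain ⟨Q, h1, h2⟩ := ext_germ A.IsoAt (fun _ _ _ => IsoAt.congr)
      (fun _ _ _ _ a b c d e => iso_id a b c d e) ε0 hε h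
    exact ⟨Q, z, h1, h2.self_of_nhds.trans e⟩
  have same {P Q : ℍ → M} (hP : ∀ y, A.IsoAt P y) (hQ : ∀ y, A.IsoAt Q y) {z w : ℍ}
      (e : P z = Q w) : ∃ γ : SL(2, ℝ), γ • z = w ∧ ∀ y, Q (γ • y) = P y := by
    obtain ⟨γ, g1, g2⟩ := iso_rig (.of_forall hP) (.of_forall hQ) e
    exact ⟨γ, g1, fun y => iso_id isOpen_univ isPreconnected_univ
      (fun y _ => ⟨IsoAt.smul γ (hQ _), hP y⟩) (mem_univ z) g2 (mem_univ y)⟩
  have op {P : ℍ → M} (hP : ∀ y, A.IsoAt P y) : IsOpenMap P :=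
    isOpenMap_iff_nhds_le.2 fun y => (hP y).map_nhds.ge
  obtain ⟨p, z0, hp, -⟩ := glob (Classical.arbitrary M)
  have su : range p = univ := by
    refine IsClopen.eq_univ ⟨⟨isOpen_iff_mem_nhds.2 fun x hx => ?_⟩, (op hp).isOpen_range⟩
      (range_nonempty p)
    obtain ⟨Q, z, hQ, rfl⟩ := glob x
    refine mem_of_superset ((op hQ).isOpen_range.mem_nhds (mem_range_self z)) ?_
    rintro _ ⟨w, rfl⟩ ⟨w', e⟩
    obtain ⟨γ, -, g⟩ := same hQ hp e.symm
    exact hx ⟨_, g z⟩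
  let Γ : Subgroup SL(2, ℝ) :=
    { carrier := {γ | ∀ y, p (γ • y) = p y}
      mul_mem' := fun {a b} ha hb y => by rw [mul_smul, ha, hb]
      one_mem' := fun y => by rw [one_smul]
      inv_mem' := fun {a} ha y => by rw [← ha, smul_inv_smul] }
  have inj (z : ℍ) : ∃ U, IsOpen U ∧ z ∈ U ∧ InjOn p U := by
    obtain ⟨s, -, -, -, h⟩ := (hp z).inv (A.idx_mem (p z)).1
    obtain ⟨U, h1, h2, h3⟩ := _root_.eventually_nhds_iff.1 h
    exact ⟨U, h2, h3, fun a ha b hb e =>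
      UpperHalfPlane.ext (by rw [← h1 a ha, ← h1 b hb, e])⟩
  have fx {γ} (hγ : γ ∈ Γ) {z : ℍ} (h : γ • z = z) : γ 0 1 = 0 ∧ γ 1 0 = 0 ∧ γ 0 0 = γ 1 1 := by
    obtain ⟨U, h1, h2, h3⟩ := inj z
    refine dev_fix (z := z) ?_
    have c : Continuous fun y : ℍ => γ • y := continuous_const_smul γ
    filter_upwards [h1.mem_nhds h2, (h1.preimage c).mem_nhds (show γ • z ∈ U by rwa [h])]
      with y a b using h3 b a (hγ y)
  have fib (z w : ℍ) (e : p z = p w) : ∃ γ ∈ Γ, γ • z = w :=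
    let ⟨γ, g1, g2⟩ := same hp hp e
    ⟨γ, g2, g1⟩
  refine ⟨Γ, p, ?_, fun γ hγ z h w => ?_, ?_, hp, range_eq_univ.1 su, fun _ h => h, fib⟩
  · obtain ⟨U, h1, h2, h3⟩ := inj UpperHalfPlane.I
    rw [discreteTopology_iff_isOpen_singleton_one]
    have c1 : Continuous fun γ : Γ => (γ : SL(2, ℝ)) • UpperHalfPlane.I := by fun_prop
    have c2 : Continuous fun γ : Γ => (γ : SL(2, ℝ)) 0 0 := by fun_prop
    convert (h1.preimage c1).inter (isOpen_lt continuous_const c2 (f := fun _ => 0)) using 1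
    ext γ
    refine ⟨?_, fun ⟨a, b⟩ => ?_⟩
    · rintro rfl
      exact ⟨by simpa using h2, by simp⟩
    · obtain ⟨k1, k2, k3⟩ := fx γ.2 (h3 a h2 (γ.2 _))
      have d := (γ : SL(2, ℝ)).det_coe
      rw [Matrix.det_fin_two, k1, ← k3] at d
      have b' : 0 < (γ : SL(2, ℝ)) 0 0 := b
      have o : (γ : SL(2, ℝ)) 0 0 = 1 := by nlinarith
      refine Subtype.ext (Matrix.SpecialLinearGroup.ext _ _ fun u v => ?_)
      fin_cases u <;> fin_cases v <;> simp [k1, k2, ← k3, o]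
  · obtain ⟨k1, k2, k3⟩ := fx hγ h
    rw [dev_coe, k1, k2, k3]
    simp
  · obtain ⟨n, hn⟩ := isCompact_univ.elim_directed_cover
      (fun n : ℕ => p '' ball UpperHalfPlane.I n) (fun n => op hp _ isOpen_ball)
      (fun x _ => by
        obtain ⟨y, rfl⟩ := range_eq_univ.1 su x
        obtain ⟨n, hn⟩ := exists_nat_gt (dist y UpperHalfPlane.I)
        exact mem_iUnion.2 ⟨n, y, hn, rfl⟩)
      (Monotone.directed_le fun a b h => image_mono (ball_subset_ball (by exact_mod_cast h)))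
    refine ⟨closedBall UpperHalfPlane.I n, isCompact_closedBall _ _, fun z => ?_⟩
    obtain ⟨w, w1, w2⟩ := hn (mem_univ (p z))
    obtain ⟨γ, g1, g2⟩ := fib z w w2.symm
    exact ⟨γ, g1, g2 ▸ ball_subset_closedBall w1⟩

end Atl

end

end Pool.Agent.Lib.MP_21f752_an.U
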