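import Pool.Agent.Lib.MP_21f752_an.U.Bas

/-! The integral does not depend on the chart. -/

namespace Pool.Agent.Lib.MP_21f752_an.U

open Set Filter Topology Metric MeasureTheory Pool.Agent.Lib.MP_1c0d65_gt
open Complex (I)
open scoped ContDiff Laplacian UpperHalfPlane Manifold MatrixGroups

noncomputable section

theorem int_det (c : ℂ) : (c • (1 : ℂ →L[ℝ] ℂ)).det = ‖c‖ ^ 2 := by
  rw [Complex.sq_norm, ← Algebra.norm_complex_apply, Algebra.norm_apply]
  rfl

namespace Atl
variable {M : Type} [TopologicalSpace M] (A : Atl M)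

/-- hint: `integral_image_eq_integral_abs_det_fderiv_smul` for the transition on
`e i '' (source i ∩ source j)`; the determinant is `‖deriv τ‖²` -/
theorem int_change (i j : A.ι) {G : M → ℝ}
    (hs : ∀ x, G x ≠ 0 → x ∈ (A.e i).source ∧ x ∈ (A.e j).source) :
    ∫ z in ball (0 : ℂ) 4, Real.exp (2 * A.lam i z) * G ((A.e i).symm z) =
      ∫ z in ball (0 : ℂ) 4, Real.exp (2 * A.lam j z) * G ((A.e j).symm z) := by
  have op (i j : A.ι) : IsOpen (ball (0 : ℂ) 4 ∩ (A.e i).symm ⁻¹' (A.e j).source) := by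
    rw [← A.tgt i]
    exact (A.e i).continuousOn_symm.isOpen_inter_preimage (A.e i).open_target (A.e j).open_source
  have cut (i j : A.ι) (h : ∀ x, G x ≠ 0 → x ∈ (A.e j).source) :
      ∫ z in ball (0 : ℂ) 4, Real.exp (2 * A.lam i z) * G ((A.e i).symm z) =
        ∫ z in ball (0 : ℂ) 4 ∩ (A.e i).symm ⁻¹' (A.e j).source,
          Real.exp (2 * A.lam i z) * G ((A.e i).symm z) :=
    setIntegral_eq_of_subset_of_forall_sdiff_eq_zero measurableSet_ball inter_subset_left
      fun z hz => by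
        rw [of_not_not (mt (h _) fun k => hz.2 ⟨hz.1, k⟩), mul_zero]
  have im : (A.e j ∘ (A.e i).symm) '' (ball (0 : ℂ) 4 ∩ (A.e i).symm ⁻¹' (A.e j).source) =
      ball (0 : ℂ) 4 ∩ (A.e j).symm ⁻¹' (A.e i).source := by
    refine Subset.antisymm ?_ fun z ⟨h1, h2⟩ => ?_
    · rintro _ ⟨z, ⟨h1, h2⟩, rfl⟩
      refine ⟨map_mem h2, ?_⟩
      rw [mem_preimage, Function.comp_apply, (A.e j).left_inv h2]
      exact (symm_mem i h1).1
    · refine ⟨A.e i ((A.e j).symm z), ⟨map_mem h2, ?_⟩, ?_⟩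
      · rw [mem_preimage, (A.e i).left_inv h2]
        exact (symm_mem j h1).1
      · rw [Function.comp_apply, (A.e i).left_inv h2, (symm_mem j h1).2]
  rw [cut i j fun x h => (hs x h).2, cut j i fun x h => (hs x h).1, ← im,
    integral_image_eq_integral_abs_det_fderiv_smul volume (op i j).measurableSet
      (f' := fun z => deriv (A.e j ∘ (A.e i).symm) z • (1 : ℂ →L[ℝ] ℂ))]
  · refine setIntegral_congr_fun (op i j).measurableSet fun z ⟨h1, h2⟩ => ?_
    obtain ⟨m1, m2⟩ := symm_mem i h1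
    have e := A.lam_tr i j _ m1 h2
    rw [m2] at e
    simp only [int_det, Function.comp_apply, (A.e j).left_inv h2, smul_eq_mul, two_mul,
      Real.exp_add, e, abs_pow, abs_norm]
    ring
  · rintro z ⟨h1, h2⟩
    obtain ⟨m1, m2⟩ := symm_mem i h1
    have a := A.hol i j _ m1 h2
    rw [m2] at a
    exact a.differentiableAt.hasDerivAt.complexToReal_fderiv.hasFDerivWithinAt
  · rintro z ⟨h1, h2⟩ w ⟨h3, h4⟩ e
    rw [← (symm_mem i h1).2, ← (symm_mem i h3).2, (A.e j).injOn h2 h4 e]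

theorem int_on (i : A.ι) {H : M → ℝ} (hc : Continuous H)
    (hs : ∀ x, H x ≠ 0 → x ∈ (A.e i).source → ‖A.e i x‖ ≤ 3) :
    IntegrableOn (fun z => Real.exp (2 * A.lam i z) * H ((A.e i).symm z)) (ball 0 4) := by
  have c : ContinuousOn (fun z => Real.exp (2 * A.lam i z) * H ((A.e i).symm z)) (ball 0 4) :=
    (continuousOn_const.mul (A.lam_sm i).continuousOn).rexp.mul
      (hc.comp_continuousOn (A.tgt i ▸ (A.e i).continuousOn_symm))
  refine ((c.mono (closedBall_subset_ball (show (3 : ℝ) < 4 by norm_num))).integrableOn_compact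
    (isCompact_closedBall _ _)).of_forall_sdiff_eq_zero measurableSet_ball fun z hz => ?_
  obtain ⟨m1, m2⟩ := symm_mem i hz.1
  rw [of_not_not (mt (hs _) fun k => hz.2 (mem_closedBall_zero_iff.2 (m2 ▸ k m1))), mul_zero]

/-- hint: `J i (G i) = ∑ j, J i (θ j G i) = ∑ j, J j (θ j G i)` -/
theorem int_sum [T2Space M] (G : A.ι → M → ℝ) (hc : ∀ i, Continuous (G i))
    (hs : ∀ i x, G i x ≠ 0 → x ∈ (A.e i).source ∧ ‖A.e i x‖ ≤ 3) (h0 : ∀ x, ∑ i, G i x = 0) :
    ∑ i, ∫ z in ball (0 : ℂ) 4, Real.exp (2 * A.lam i z) * G i ((A.e i).symm z) = 0 := by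
  obtain ⟨θ, t0, t2, t3⟩ := A.exists_pou
  have t1 (j : A.ι) := (t0 j).continuous
  have e1 (i : A.ι) : ∫ z in ball (0 : ℂ) 4, Real.exp (2 * A.lam i z) * G i ((A.e i).symm z) =
      ∑ j, ∫ z in ball (0 : ℂ) 4, Real.exp (2 * A.lam j z) *
        (θ j ((A.e j).symm z) * G i ((A.e j).symm z)) := by
    rw [← Finset.sum_congr rfl fun j _ => A.int_change i j (G := fun x => θ j x * G i x) fun x h =>
      ⟨(hs i x (right_ne_zero_of_mul h)).1, (t2 j x (left_ne_zero_of_mul h)).1⟩,
      ← integral_finsetSum _ fun j _ => A.int_on i (H := fun x => θ j x * G i x)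
        ((t1 j).mul (hc i)) fun x h _ => (hs i x (right_ne_zero_of_mul h)).2]
    congr 1
    ext z
    rw [← Finset.mul_sum, ← Finset.sum_mul, t3, one_mul]
  rw [Finset.sum_congr rfl fun i _ => e1 i, Finset.sum_comm]
  refine Finset.sum_eq_zero fun j _ => ?_
  rw [← integral_finsetSum _ fun i _ => A.int_on j (H := fun x => θ j x * G i x)
    ((t1 j).mul (hc i)) fun x h _ => (t2 j x (left_ne_zero_of_mul h)).2.le.trans (by norm_num)]
  simp only [← Finset.mul_sum, h0, mul_zero, integral_zero]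

end Atl

end

end Pool.Agent.Lib.MP_21f752_an.U
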