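import Pool.Agent.Lib.MP_21f752_an.U.Flat

/-! Local isometries of the hyperbolic plane. -/

namespace Pool.Agent.Lib.MP_21f752_an.U

open Set Filter Topology Metric MeasureTheory Pool.Agent.Lib.MP_1c0d65_gt
open Complex (I)
open scoped ContDiff Laplacian UpperHalfPlane Manifold MatrixGroups ComplexConjugate

noncomputable section

/-- The isometry equation in algebraic form. -/
def RigE (h : ℂ → ℂ) (z : ℂ) : Prop :=
  deriv h z * conj (deriv h z) * (z - conj z) ^ 2 = (h z - conj (h z)) ^ 2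

theorem rig_line {h : ℂ → ℂ} {z p : ℂ} (ξ : ℂ) (t : ℝ) (a : HasDerivAt h p (z + t * ξ)) :
    HasDerivAt (fun s : ℝ => h (z + s * ξ)) (p * ξ) t := by
  simpa using (a.comp (t : ℂ) (((hasDerivAt_id (t : ℂ)).mul_const ξ).const_add z)).comp_ofReal

theorem rig_dir {h : ℂ → ℂ} {z : ℂ} (ha : AnalyticAt ℂ h z) (e : ∀ᶠ w in 𝓝 z, RigE h w) (ξ : ℂ) :
    (deriv (deriv h) z * ξ * conj (deriv h z) + deriv h z * conj (deriv (deriv h) z * ξ)) *
      (z - conj z) ^ 2 + deriv h z * conj (deriv h z) * (2 * (z - conj z) * (ξ - conj ξ)) =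
      2 * (h z - conj (h z)) * (deriv h z * ξ - conj (deriv h z * ξ)) := by
  have z0 : z + (0 : ℝ) * ξ = z := by simp
  have a := rig_line ξ 0 (z0.symm ▸ ha.differentiableAt.hasDerivAt)
  have b := rig_line ξ 0 (z0.symm ▸ ha.deriv.differentiableAt.hasDerivAt)
  have c := rig_line (z := z) ξ 0 (hasDerivAt_id _)
  have k := ((b.mul b.star).mul ((c.sub c.star).pow 2)).unique
    (((a.sub a.star).pow 2).congr_of_eventuallyEq
      ((c.continuousAt.tendsto.eventually (by simpa using e)).mono fun _ x => x))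
  simpa using k

theorem rig_ode {h : ℂ → ℂ} {z : ℂ} (ha : AnalyticAt ℂ h z) (e : ∀ᶠ w in 𝓝 z, RigE h w)
    (r : h z - conj (h z) ≠ 0) : deriv (deriv h) z =
      2 * deriv h z * (deriv h z / (h z - conj (h z)) - 1 / (z - conj z)) := by
  have a := rig_dir ha e 1
  have b := rig_dir ha e I
  have n : _ = _ := e.self_of_nhds
  have m := n.symm ▸ pow_ne_zero 2 r
  have p := left_ne_zero_of_mul (left_ne_zero_of_mul m)
  have s := pow_ne_zero_iff two_ne_zero |>.1 (right_ne_zero_of_mul m)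
  simp only [map_mul, map_one, Complex.conj_I] at a b
  generalize h z - conj (h z) = R, z - conj z = S, conj (deriv (deriv h) z) = Q',
    conj (deriv h z) = P' at *
  generalize deriv (deriv h) z = Q, deriv h z = P at *
  have k : Q * P' * S ^ 2 + 2 * P * P' * S = 2 * R * P := by
    linear_combination (1 / 2 : ℂ) * a - I / 2 * b + (Q * P' * S ^ 2 / 2 - P * Q' * S ^ 2 / 2 +
      2 * P * P' * S - R * P - R * P') * Complex.I_mul_I
  have k' : Q * R * S = 2 * P * (P * S - R) := mul_left_cancel₀ r (by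
    linear_combination P * S * k - (Q * S + 2 * P) * n)
  field_simp
  linear_combination k'

theorem rig_sol {h : ℂ → ℂ} {c : ℂ} (ha : AnalyticAt ℂ h c) (e : ∀ᶠ w in 𝓝 c, RigE h w)
    (r : h c - conj (h c) ≠ 0) {s : Set (ℂ × ℂ)} (hs : s ∈ 𝓝 (h c, deriv h c)) :
    ∀ᶠ t : ℝ in 𝓝 0, HasDerivAt (fun t : ℝ => (h (c + t * 1), deriv h (c + t * 1)))
      ((fun u : ℂ × ℂ => (u.2, 2 * u.2 * (u.2 / (u.1 - conj u.1) - 1 / (c - conj c))))
        (h (c + t * 1), deriv h (c + t * 1))) t ∧ (h (c + t * 1), deriv h (c + t * 1)) ∈ s := by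
  have T : Tendsto (fun t : ℝ => c + t * 1) (𝓝 0) (𝓝 c) :=
    Continuous.tendsto' (by fun_prop) _ _ (by simp)
  have a := ha.continuousAt
  filter_upwards [T.eventually ha.eventually_analyticAt, T.eventually e.eventually_nhds,
    T.eventually ((a.sub (Complex.continuous_conj.continuousAt.comp a)).eventually_ne r),
    T.eventually ((a.prodMk ha.deriv.continuousAt).eventually_mem hs)] with t a1 a2 a3 a4
  refine ⟨?_, a4⟩
  have := (rig_line 1 t a1.differentiableAt.hasDerivAt).prodMk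
    (rig_line 1 t a1.deriv.differentiableAt.hasDerivAt)
  rw [rig_ode a1 a2 a3] at this
  simpa using this

theorem rig_uniq {h g : ℂ → ℂ} {c : ℂ} (ha : AnalyticAt ℂ h c) (e : ∀ᶠ w in 𝓝 c, RigE h w)
    (ga : AnalyticAt ℂ g c) (e' : ∀ᶠ w in 𝓝 c, RigE g w) (r : h c - conj (h c) ≠ 0)
    (h0 : g c = h c) (h1 : deriv g c = deriv h c) : h =ᶠ[𝓝 c] g := by
  have v : ContDiffAt ℝ 1 (fun u : ℂ × ℂ =>
      (u.2, 2 * u.2 * (u.2 / (u.1 - conj u.1) - 1 / (c - conj c)))) (h c, deriv h c) := by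
    simp only [div_eq_mul_inv]
    exact contDiffAt_snd.prodMk ((contDiffAt_const.mul contDiffAt_snd).mul ((contDiffAt_snd.mul
      ((contDiffAt_fst.sub (Complex.conjCLE.contDiff.contDiffAt.comp _ contDiffAt_fst)).inv r)).sub
        contDiffAt_const))
  obtain ⟨K, s, hs, L⟩ := v.exists_lipschitzOnWith
  have u := ODE_solution_unique_of_eventually (s := fun _ => s) (.of_forall fun _ => L)
    (rig_sol ha e r hs) (rig_sol ga e' (h0 ▸ r) (h0 ▸ h1 ▸ hs)) (by simp [h0, h1])
  have T : Tendsto (fun t : ℝ => c + t * 1) (𝓝[≠] 0) (𝓝[≠] c) :=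
    tendsto_nhdsWithin_iff.2 ⟨(Continuous.tendsto' (by fun_prop) _ _ (by simp)).mono_left
      nhdsWithin_le_nhds, eventually_mem_nhdsWithin.mono fun t ht => by simpa using ht⟩
  exact (ha.frequently_eq_iff_eventually_eq ga).1 (T.frequently
    ((u.filter_mono nhdsWithin_le_nhds).mono fun _ x => congrArg Prod.fst x).frequently)

theorem rig_real (c : ℍ) (w : ℂ) : ∃ a b : ℝ, w = a * c + b :=
  ⟨w.im / c.im, w.re - w.im / c.im * c.re, by
    apply Complex.ext
    · simp
    · simp [c.im_ne_zero]⟩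

theorem rigid_loc {h : ℂ → ℂ} {c : ℍ} (ha : AnalyticAt ℂ h c) (hp : 0 < (h c).im)
    (he : ∀ᶠ z in 𝓝 (c : ℂ), ‖deriv h z‖ * z.im = (h z).im) :
    ∃ γ : SL(2, ℝ), ∀ᶠ z : ℍ in 𝓝 c, h z = ((γ • z : ℍ) : ℂ) := by
  have e0 := he.self_of_nhds
  have p0 : deriv h c ≠ 0 := fun z => by simp [z, hp.ne] at e0
  obtain ⟨j, hj⟩ := IsAlgClosed.exists_pow_nat_eq (deriv h c)⁻¹ two_pos
  have j0 : j ≠ 0 := fun z => by simp [z, p0, eq_comm] at hj
  obtain ⟨k, d, e1⟩ := rig_real c j
  obtain ⟨a, b, e2⟩ := rig_real c (h c * j)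
  have det : a * d - b * k = 1 := by
    have x : (h c * j * conj j).im = (a * d - b * k) * c.im := by
      rw [e2, e1]; simp; ring
    have y : ‖j‖ ^ 2 = ‖deriv h c‖⁻¹ := by rw [← norm_pow, hj, norm_inv]
    rw [mul_assoc, Complex.mul_conj', ← Complex.ofReal_pow, Complex.im_mul_ofReal, y, ← e0,
      mul_right_comm, mul_inv_cancel₀ (norm_ne_zero_iff.2 p0)] at x
    exact (mul_right_cancel₀ c.im_ne_zero x).symm
  have det' : (a : ℂ) * d - b * k = 1 := by exact_mod_cast det
  have D : ∀ z : ℂ, k * z + d ≠ 0 → deriv (fun z : ℂ => (a * z + b) / (k * z + d)) z =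
      1 / (k * z + d) ^ 2 := fun z hz => by
    rw [((((hasDerivAt_id' z).const_mul (a : ℂ)).add_const (b : ℂ)).fun_div
      (((hasDerivAt_id' z).const_mul (k : ℂ)).add_const (d : ℂ)) hz).deriv]
    congr 1
    linear_combination det'
  have u := rig_uniq (g := fun z : ℂ => (a * z + b) / (k * z + d)) ha
    (he.mono fun z x => by
      rw [RigE, Complex.mul_conj', Complex.sub_conj, Complex.sub_conj, ← x]; push_cast; ring)
    (AnalyticAt.div (by fun_prop) (by fun_prop) (e1 ▸ j0))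
    ((ContinuousAt.eventually_ne (g := fun z : ℂ => k * z + d) (by fun_prop) (e1 ▸ j0)).mono
      fun z x => by
        have x' : (k : ℂ) * conj z + d ≠ 0 := fun y => x (by simpa using congrArg conj y)
        rw [RigE, D z x]
        simp only [map_div₀, map_add, map_mul, map_pow, map_one, Complex.conj_ofReal]
        rw [div_sub_div _ _ x x', show (a * z + b) * (k * conj z + d) -
          (k * z + d) * (a * conj z + b) = z - conj z by linear_combination (z - conj z) * det']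
        field_simp)
    (by rw [Complex.sub_conj]; simpa using hp.ne')
    (by rw [← e1, ← e2, mul_div_cancel_right₀ _ j0])
    (by rw [D _ (e1 ▸ j0), ← e1, hj, one_div, inv_inv])
  refine ⟨⟨!![a, b; k, d], by rw [Matrix.det_fin_two_of, det]⟩,
    ((UpperHalfPlane.continuous_coe.tendsto c).eventually u).mono fun z x => ?_⟩
  rw [x, UpperHalfPlane.coe_specialLinearGroup_apply]
  simp

end

end Pool.Agent.Lib.MP_21f752_an.U
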