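import Pool.Agent.Lib.MP_21f752_an.U.Bas
import Pool.Agent.Lib.MP_21f752_an.U.Rig

/-! Germs of isometries. -/

namespace Pool.Agent.Lib.MP_21f752_an.U

open Set Filter Topology Metric MeasureTheory Pool.Agent.Lib.MP_1c0d65_gt
open Complex (I)
open scoped ContDiff Laplacian UpperHalfPlane Manifold MatrixGroups

noncomputable section

theorem isoa_ev {P : ℂ → Prop} {z : ℍ} : (∀ᶠ w in 𝓝 (z : ℂ), P w) ↔ ∀ᶠ y : ℍ in 𝓝 z, P y := by
  rw [← UpperHalfPlane.isOpenEmbedding_coe.map_nhds_eq, eventually_map]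

theorem isoa_oc (z : ℍ) : Tendsto UpperHalfPlane.ofComplex (𝓝 (z : ℂ)) (𝓝 z) := fun S hS =>
  isoa_ev.2 (mem_of_superset hS fun y hy => by simpa using hy)

theorem isoa_mob (γ : SL(2, ℝ)) (z : ℍ) :
    AnalyticAt ℂ (fun w => ((γ • UpperHalfPlane.ofComplex w : ℍ) : ℂ)) z ∧
      ‖deriv (fun w => ((γ • UpperHalfPlane.ofComplex w : ℍ) : ℂ)) z‖ * z.im = (γ • z).im := by
  have d : (Matrix.SpecialLinearGroup.mapGL ℝ γ).val.det = 1 := by simp
  refine ⟨UpperHalfPlane.analyticAt_smul (d ▸ one_pos) z, ?_⟩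
  refine (congrArg (‖·‖ * z.im) (UpperHalfPlane.deriv_smul (d ▸ one_pos) z)).trans
    (Eq.trans ?_ (UpperHalfPlane.im_smul_eq_div_normSq _ z).symm)
  simp [Complex.normSq_eq_norm_sq, div_eq_inv_mul]

namespace Atl
variable {M : Type} [TopologicalSpace M] {A : Atl M} {q q' : ℍ → M} {z w : ℍ}

theorem IsoAt.congr (e : q' =ᶠ[𝓝 z] q) (h : A.IsoAt q z) : A.IsoAt q' z := by
  refine ⟨h.1.congr e.symm, fun i hi => ?_⟩
  have k : A.e i ∘ q' ∘ UpperHalfPlane.ofComplex =ᶠ[𝓝 (z : ℂ)]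
      A.e i ∘ q ∘ UpperHalfPlane.ofComplex :=
    ((isoa_oc z).eventually e).mono fun y hy => congrArg (A.e i) hy
  rw [e.eq_of_nhds] at hi ⊢
  rw [k.deriv_eq]
  exact ⟨(h.2 i hi).1.congr k.symm, (h.2 i hi).2⟩

theorem isoAt_of {i : A.ι} (hc : ContinuousAt q z) (hi : q z ∈ (A.e i).source)
    (ha : AnalyticAt ℂ (A.e i ∘ q ∘ UpperHalfPlane.ofComplex) z)
    (he : ‖deriv (A.e i ∘ q ∘ UpperHalfPlane.ofComplex) z‖ *
      Real.exp (A.lam i (A.e i (q z))) * z.im = 1) : A.IsoAt q z := by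
  refine ⟨hc, fun j hj => ?_⟩
  have k : (A.e j ∘ (A.e i).symm) ∘ (A.e i ∘ q ∘ UpperHalfPlane.ofComplex) =ᶠ[𝓝 (z : ℂ)]
      A.e j ∘ q ∘ UpperHalfPlane.ofComplex :=
    ((hc.tendsto.comp (isoa_oc z)).eventually ((A.e i).eventually_left_inverse hi)).mono
      fun y hy => congrArg (A.e j) hy
  have v : (A.e i ∘ q ∘ UpperHalfPlane.ofComplex) z = A.e i (q z) := by simp
  have t := A.hol i j _ hi hj
  rw [← v] at t
  refine ⟨(t.comp ha).congr k, ?_⟩
  rw [← k.deriv_eq, deriv_comp _ t.differentiableAt ha.differentiableAt, v, norm_mul, ← he,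
    A.lam_tr i j _ hi hj]
  ring

theorem IsoAt.smul (γ : SL(2, ℝ)) (h : A.IsoAt q (γ • z)) : A.IsoAt (fun y => q (γ • y)) z := by
  refine ⟨h.1.comp (continuous_const_smul γ).continuousAt, fun i hi => ?_⟩
  obtain ⟨a, b⟩ := h.2 i hi
  obtain ⟨c, d⟩ := isoa_mob γ z
  have k : A.e i ∘ (fun y => q (γ • y)) ∘ UpperHalfPlane.ofComplex =
      (A.e i ∘ q ∘ UpperHalfPlane.ofComplex) ∘
        fun w => ((γ • UpperHalfPlane.ofComplex w : ℍ) : ℂ) := funext fun y => by simp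
  have v := congrArg (fun y : ℍ => ((γ • y : ℍ) : ℂ)) (UpperHalfPlane.ofComplex_apply z)
  rw [k]
  refine ⟨a.comp_of_eq c v, ?_⟩
  rw [deriv_comp _ (by rw [v]; exact a.differentiableAt) c.differentiableAt, norm_mul, v, ← b, ← d]
  ring

/-- hint: `HasStrictDerivAt.localInverse` / `toOpenPartialHomeomorph` of `e i ∘ q ∘ ofComplex` -/
theorem IsoAt.inv {i : A.ι} (h : A.IsoAt q z) (hi : q z ∈ (A.e i).source) :
    ∃ s : ℂ → ℂ, s (A.e i (q z)) = z ∧ AnalyticAt ℂ s (A.e i (q z)) ∧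
      (∀ᶠ y in 𝓝 (q z), q (UpperHalfPlane.ofComplex (s (A.e i y))) = y) ∧
      ∀ᶠ y : ℍ in 𝓝 z, s (A.e i (q y)) = y := by
  obtain ⟨a, b⟩ := h.2 i hi
  have d : deriv (A.e i ∘ q ∘ UpperHalfPlane.ofComplex) z ≠ 0 := fun e => by simp [e] at b
  have v : (A.e i ∘ q ∘ UpperHalfPlane.ofComplex) z = A.e i (q z) := by simp
  have l := a.hasStrictDerivAt.eventually_left_inverse d
  have r := a.hasStrictDerivAt.eventually_right_inverse d
  have n := a.analyticAt_localInverse d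
  have l0 := l.self_of_nhds
  rw [v] at r n l0
  refine ⟨_, l0, n, ?_, (isoa_ev.1 l).mono fun y hy => by simpa using hy⟩
  have t := n.continuousAt.tendsto.comp ((A.e i).continuousAt hi).tendsto
  rw [l0] at t
  filter_upwards [((A.e i).continuousAt hi).eventually r, (A.e i).open_source.mem_nhds hi,
    (h.1.tendsto.comp ((isoa_oc z).comp t)).eventually ((A.e i).open_source.mem_nhds hi)]
    with y h1 h2 h3 using (A.e i).injOn h3 h2 h1

theorem IsoAt.map_nhds (h : A.IsoAt q z) : map q (𝓝 z) = 𝓝 (q z) := by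
  obtain ⟨s, s0, n, r, -⟩ := h.inv (A.idx_mem (q z)).1
  have t := n.continuousAt.tendsto.comp ((A.e _).continuousAt (A.idx_mem (q z)).1).tendsto
  rw [s0] at t
  exact le_antisymm h.1 (le_map_of_right_inverse r ((isoa_oc z).comp t))

theorem iso_id [T2Space M] {U : Set ℍ} (hU : IsOpen U) (hc : IsPreconnected U)
    (h : ∀ y ∈ U, A.IsoAt q y ∧ A.IsoAt q' y) (hz : z ∈ U) (e : q =ᶠ[𝓝 z] q') :
    EqOn q q' U := by
  have _ := hU
  have k : U ⊆ {y | q =ᶠ[𝓝 y] q'} := by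
    refine hc.subset_of_closure_inter_subset isOpen_setOfPred_eventually_nhds ⟨z, hz, e⟩ ?_
    rintro y ⟨c, hy⟩
    obtain ⟨a, a'⟩ := h y hy
    have fr := mem_closure_iff_frequently.1 c
    have e0 : q y = q' y := tendsto_nhds_unique_of_frequently_eq a.1 a'.1
      (fr.mono fun _ k => EventuallyEq.eq_of_nhds k)
    have hi := (A.idx_mem (q y)).1
    have hi' : q' y ∈ (A.e (A.idx (q y))).source := e0 ▸ hi
    rcases (a.2 _ hi).1.eventually_eq_or_eventually_ne (a'.2 _ hi').1 with k | k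
    · filter_upwards [isoa_ev.1 k, a.1.eventually ((A.e _).open_source.mem_nhds hi),
        a'.1.eventually ((A.e _).open_source.mem_nhds hi')] with x h1 h2 h3
      exact (A.e _).injOn h2 h3 (by simpa using h1)
    · obtain ⟨x, h1, h2⟩ := (fr.and_eventually
        (isoa_ev.1 (eventually_nhdsWithin_iff.1 k).eventually_nhds)).exists
      have : ({(y : ℂ)} : Set ℂ) ∈ 𝓝 (x : ℂ) := by
        filter_upwards [h2, (isoa_oc x).eventually h1] with t h3 h4
        exact by_contra fun n => h3 n (congrArg (A.e _) h4)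
      simpa using mem_interior_iff_mem_nhds.2 this
  exact fun y hy => EventuallyEq.eq_of_nhds (k hy)

/-- hint: `rigid_loc` for `s' ∘ e i ∘ q ∘ ofComplex` -/
theorem iso_rig (h : ∀ᶠ y in 𝓝 z, A.IsoAt q y) (h' : ∀ᶠ y in 𝓝 w, A.IsoAt q' y)
    (e : q z = q' w) : ∃ γ : SL(2, ℝ), γ • z = w ∧ (fun y => q' (γ • y)) =ᶠ[𝓝 z] q := by
  have hi := (A.idx_mem (q z)).1
  generalize A.idx (q z) = i at hi
  obtain ⟨s, s0, n, r, -⟩ := h'.self_of_nhds.inv (e ▸ hi : q' w ∈ (A.e i).source)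
  rw [← e] at s0 n r
  have v : (A.e i ∘ q ∘ UpperHalfPlane.ofComplex) z = A.e i (q z) := by simp
  have c := h.self_of_nhds.1
  have a : AnalyticAt ℂ (s ∘ A.e i ∘ q ∘ UpperHalfPlane.ofComplex) z :=
    (v ▸ n : AnalyticAt ℂ s _).comp (h.self_of_nhds.2 i hi).1
  have a0 : (s ∘ A.e i ∘ q ∘ UpperHalfPlane.ofComplex) z = w := (congrArg s v).trans s0
  have t := a.continuousAt.tendsto
  rw [a0] at t
  have k := (c.tendsto.comp (isoa_oc z)).eventually r
  obtain ⟨γ, hγ⟩ := rigid_loc a (a0 ▸ w.im_pos) (isoa_ev.2 (by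
    filter_upwards [h, isoa_ev.1 a.eventually_analyticAt, isoa_ev.1 k.eventually_nhds,
      isoa_ev.1 (((isoa_oc w).comp t).eventually h'), isoa_ev.1 (t.eventually
        (UpperHalfPlane.isOpen_upperHalfPlaneSet.mem_nhds w.im_pos)),
      c.eventually ((A.e i).open_source.mem_nhds hi)] with y h1 h2 h3 h4 h5 h6
    obtain ⟨y', hy'⟩ : ∃ y' : ℍ, (s ∘ A.e i ∘ q ∘ UpperHalfPlane.ofComplex) y = y' := ⟨⟨_, h5⟩, rfl⟩
    have h7 : q' y' = q y := by
      have := h3.self_of_nhds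
      rw [← UpperHalfPlane.ofComplex_apply y', ← hy', ← UpperHalfPlane.ofComplex_apply y]
      simpa using this
    rw [Function.comp_apply, hy', UpperHalfPlane.ofComplex_apply] at h4
    obtain ⟨b, b'⟩ := h4.2 i (h7 ▸ h6)
    have d := (h1.2 i h6).2
    have k' : (A.e i ∘ q' ∘ UpperHalfPlane.ofComplex) ∘ (s ∘ A.e i ∘ q ∘ UpperHalfPlane.ofComplex)
        =ᶠ[𝓝 (y : ℂ)] A.e i ∘ q ∘ UpperHalfPlane.ofComplex :=
      h3.mono fun x hx => congrArg (A.e i) hx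
    rw [← k'.deriv_eq, deriv_comp _ (hy' ▸ b.differentiableAt) h2.differentiableAt, hy',
      norm_mul] at d
    rw [h7] at b'
    rw [hy', UpperHalfPlane.coe_im, UpperHalfPlane.coe_im]
    refine mul_left_cancel₀ (left_ne_zero_of_mul_eq_one b') ?_
    rw [b', ← d]
    ring))
  refine ⟨γ, UpperHalfPlane.ext (hγ.self_of_nhds.symm.trans a0), ?_⟩
  filter_upwards [hγ, isoa_ev.1 k] with y h1 h2
  rw [← UpperHalfPlane.ofComplex_apply (γ • y), ← h1]
  simpa using h2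

end Atl

end

end Pool.Agent.Lib.MP_21f752_an.U
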