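import Pool.Agent.Lib.MP_21f752_an.U.Flat

/-! The interior gradient estimate. -/

namespace Pool.Agent.Lib.MP_21f752_an.U

open Set Filter Topology Metric MeasureTheory Pool.Agent.Lib.MP_1c0d65_gt
open Complex (I)
open scoped ContDiff Laplacian UpperHalfPlane Manifold MatrixGroups

noncomputable section

variable {r : ℝ} {c : ℂ}

/-- the cut-off of the disc -/
def lb (hr : 0 < r) (c : ℂ) : ContDiffBump c := ⟨r / 2, 3 * r / 4, by positivity, by linarith⟩

/-- half of the cut-off density -/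
def lg (hr : 0 < r) (c : ℂ) (h : ℂ → ℝ) (s : ℂ) : ℂ := lb hr c s • ((h s : ℂ) / 2)

theorem lb_supp (hr : 0 < r) : tsupport (lb hr c) ⊆ ball c r := by
  rw [(lb hr c).tsupport_eq]
  exact closedBall_subset_ball (show 3 * r / 4 < r by linarith)

theorem lg_contDiff (hr : 0 < r) {h : ℂ → ℝ} {k : ℕ∞} (hk : ContDiffOn ℝ k h (ball c r)) :
    ContDiff ℝ k (lg hr c h) :=
  A.cut_contDiff (lb hr c).contDiff (lb_supp hr) fun z hz =>
    (Complex.ofRealCLM.contDiff.contDiffAt.comp z
      (hk.contDiffAt (isOpen_ball.mem_nhds hz))).div_const 2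

theorem lg_supp (hr : 0 < r) (h : ℂ → ℝ) : HasCompactSupport (lg hr c h) :=
  (lb hr c).hasCompactSupport.smul_right

theorem lg_eq (hr : 0 < r) (h : ℂ → ℝ) {z : ℂ} (hz : z ∈ ball c (r / 2)) :
    lg hr c h z = (h z : ℂ) / 2 := by
  rw [lg, (lb hr c).one_of_mem_closedBall (ball_subset_closedBall hz), one_smul]

theorem lg_bs (hr : 0 < r) {h : ℂ → ℝ} (hc : ContinuousOn h (ball c r)) {a : ℝ}
    (ha : ∀ z ∈ ball c r, |h z| ≤ a) : A.BS a c r (lg hr c h) := by
  have a0 : 0 ≤ a := (abs_nonneg _).trans (ha c (mem_ball_self hr))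
  have h0 : ∀ s, s ∉ ball c r → lg hr c h s = 0 := fun s hs => by
    rw [lg, image_eq_zero_of_notMem_tsupport fun h => hs (lb_supp hr h), zero_smul]
  refine ⟨(lg_contDiff (k := 0) hr (contDiffOn_zero.2 hc)).continuous.aestronglyMeasurable,
    fun s => ?_, h0⟩
  by_cases hs : s ∈ ball c r
  · rw [lg, norm_smul, norm_div, Complex.norm_real, Complex.norm_ofNat, Real.norm_eq_abs,
      Real.norm_eq_abs, abs_of_nonneg (lb hr c).nonneg]
    exact (mul_le_of_le_one_left (by positivity) (lb hr c).le_one).trans (by linarith [ha s hs])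
  · rw [h0 s hs, norm_zero]
    exact a0

theorem lap_contOn {v : ℂ → ℝ} (hv : ContDiffOn ℝ ∞ v (ball c r)) :
    ContDiffOn ℝ ∞ (Δ v) (ball c r) :=
  fun _ hz => (lap_contDiffAt (hv.contDiffAt (isOpen_ball.mem_nhds hz))).contDiffWithinAt

theorem lest_holo (hr : 0 < r) {v : ℂ → ℝ} (hv : ContDiffOn ℝ ∞ v (ball c r)) :
    DifferentiableOn ℂ (fun z => grd v z - A.T (lg hr c (Δ v)) z) (ball c (r / 2)) := by
  have h1 : ∀ z ∈ ball c (r / 2), ContDiffAt ℝ ∞ v z := fun z hz =>
    hv.contDiffAt (isOpen_ball.mem_nhds (ball_subset_ball (by linarith) hz))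
  obtain ⟨B, R, -, hb⟩ := D.Lin.bs_of_cont (lg_contDiff hr (lap_contOn hv)).continuous (lg_supp hr _)
  exact A.loc_holo isOpen_ball (fun z hz => grd_contDiffAt (h1 z hz) (by norm_cast))
    (fun z hz => by rw [lg_eq hr _ hz, db_grd ((h1 z hz).of_le (by norm_cast))])
    hb.integrable fun z _ => hb.T_int z

theorem lest_bc {P : ℂ → ℂ} {B : ℝ} (hr : 0 < r) (hB : 0 < B)
    (hP : DifferentiableOn ℂ P (ball c (r / 2))) (h0 : P c = 0)
    (hb : ∀ z ∈ ball c (r / 2), (P z).re ≤ B) {z : ℂ} (hz : z ∈ ball c (r / 8)) :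
    ‖deriv P z‖ ≤ 32 * B / r := by
  have hm : ∀ w ∈ ball (0 : ℂ) (r / 2), c + w ∈ ball c (r / 2) := fun w hw => by simpa using hw
  have h1 : ∀ w ∈ ball c (r / 4), ‖P w‖ ≤ 2 * B := fun w hw => by
    have hw' : ‖w - c‖ < r / 4 := by rwa [mem_ball, dist_eq_norm] at hw
    have := Complex.borelCaratheodory_zero (f := fun w => P (c + w)) (R := r / 2) (z := w - c) hB
      (hP.comp (by fun_prop) hm) (fun w hw => hb _ (hm w hw)) (by positivity)
      (mem_ball_zero_iff.2 (by linarith)) (by simpa using h0)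
    rw [add_sub_cancel] at this
    refine this.trans ?_
    rw [div_le_iff₀ (by linarith)]
    nlinarith
  have hs : ball z (r / 8) ⊆ ball c (r / 4) := ball_subset_ball' (by linarith [mem_ball.1 hz])
  have := Complex.norm_deriv_le_div_of_mapsTo_ball (f := P) (c := z) (R₁ := r / 8) (R₂ := 4 * B)
    (hP.mono (hs.trans (ball_subset_ball (by linarith)))) (fun w hw => by
      rw [mem_closedBall, dist_eq_norm]
      linarith [norm_sub_le (P w) (P z), h1 w (hs hw), h1 z (hs (mem_ball_self (by positivity)))])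
    (by positivity)
  refine this.trans_eq ?_
  field_simp
  norm_num

theorem lest {r : ℝ} (hr : 0 < r) : ∃ C : ℝ, ∀ (c : ℂ) (v : ℂ → ℝ) (a : ℝ),
    ContDiffOn ℝ ∞ v (ball c r) → (∀ z ∈ ball c r, |v z| ≤ a ∧ |Δ v z| ≤ a) →
    ∀ z ∈ ball c (r / 8), ‖grd v z‖ ≤ C * a := by
  have key : ∀ (c : ℂ) (v : ℂ → ℝ) (a : ℝ), 0 < a → ContDiffOn ℝ ∞ v (ball c r) →
      (∀ z ∈ ball c r, |v z| ≤ a ∧ |Δ v z| ≤ a) →
      ∀ z ∈ ball c (r / 8), ‖grd v z‖ ≤ (32 * (2 + 3 * r * r) / r + 3 * r) * a := by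
    intro c v a ha hv hb z hz
    have bs := lg_bs hr (lap_contOn hv).continuousOn fun z hz => (hb z hz).2
    obtain ⟨P, P0, hP⟩ := (lest_holo hr hv).isExactOn_ball.with_val_at c 0
    have hs : ball c (r / 2) ⊆ ball c r := ball_subset_ball (by linarith)
    have hd : ∀ w ∈ ball c (r / 2), ∃ L : ℂ →L[ℝ] ℝ, HasFDerivAt (fun w => (P w).re - v w) L w ∧
        ‖L‖ ≤ 3 * r * a := fun w hw => by
      refine ⟨_, (Complex.reCLM.hasFDerivAt.comp w
        ((hP w hw).hasFDerivAt.restrictScalars ℝ)).sub ((hv.contDiffAt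
          (isOpen_ball.mem_nhds (hs hw))).differentiableAt (by simp)).hasFDerivAt, ?_⟩
      refine ContinuousLinearMap.opNorm_le_bound _ (by positivity) fun ξ => ?_
      have e : (ξ * (grd v w - A.T (lg hr c (Δ v)) w)).re - (grd v w * ξ).re =
          (-(A.T (lg hr c (Δ v)) w * ξ)).re := by
        rw [← Complex.sub_re]
        congr 1
        ring
      rw [sub_apply, fderiv_grd]
      refine (congrArg _ e).trans_le ((Complex.abs_re_le_norm _).trans ?_)
      rw [norm_neg, norm_mul]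
      exact mul_le_mul_of_nonneg_right (bs.T_le hr w) (norm_nonneg _)
    choose! L hL hL' using hd
    have h1 : ∀ w ∈ ball c (r / 2), (P w).re ≤ (2 + 3 * r * r) * a := fun w hw => by
      have := (convex_ball c (r / 2)).norm_image_sub_le_of_norm_hasFDerivWithin_le
        (fun x hx => (hL x hx).hasFDerivWithinAt) hL' (mem_ball_self (by positivity)) hw
      rw [P0, Real.norm_eq_abs] at this
      have h2 : 3 * r * a * ‖w - c‖ ≤ 3 * r * a * r := by
        have : ‖w - c‖ < r := by simpa [dist_eq_norm] using hs hw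
        gcongr
      have h3 := abs_le.1 (hb w (hs hw)).1
      have h4 := abs_le.1 (hb c (mem_ball_self hr)).1
      have h5 := (abs_le.1 (this.trans h2)).2
      simp only [Complex.zero_re] at h5
      linarith
    have hz' : z ∈ ball c (r / 2) := ball_subset_ball (by linarith) hz
    have h2 := lest_bc hr (by positivity)
      (fun w hw => (hP w hw).differentiableAt.differentiableWithinAt) P0 h1 hz
    rw [(hP z hz').deriv] at h2
    have h3 := norm_add_le (grd v z - A.T (lg hr c (Δ v)) z) (A.T (lg hr c (Δ v)) z)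
    rw [sub_add_cancel] at h3
    refine h3.trans ((add_le_add h2 (bs.T_le hr z)).trans_eq ?_)
    ring
  refine ⟨32 * (2 + 3 * r * r) / r + 3 * r, fun c v a hv hb z hz => ?_⟩
  have a0 : 0 ≤ a := (abs_nonneg _).trans (hb c (mem_ball_self hr)).1
  have C0 : 0 < 32 * (2 + 3 * r * r) / r + 3 * r := by positivity
  refine le_of_forall_pos_le_add fun ε hε => ?_
  have e0 := div_pos hε C0
  refine (key c v (a + ε / _) (add_pos_of_nonneg_of_pos a0 e0) hv
    (fun w hw => ⟨by linarith [(hb w hw).1], by linarith [(hb w hw).2]⟩) z hz).trans_eq ?_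
  rw [mul_add, mul_div_cancel₀ _ C0.ne']

end

end Pool.Agent.Lib.MP_21f752_an.U
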