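import Pool.Agent.Lib.MP_21f752_an.U.LEst
import Pool.Agent.Lib.MP_21f752_an.U.LapA

/-! Regularity. -/

namespace Pool.Agent.Lib.MP_21f752_an.U

open Set Filter Topology Metric MeasureTheory Pool.Agent.Lib.MP_1c0d65_gt
open Complex (I)
open scoped ContDiff Laplacian UpperHalfPlane Manifold MatrixGroups

noncomputable section

/-- `w ↦ (ξ ↦ re (w ξ))` -/
def reL : ℂ →L[ℝ] ℂ →L[ℝ] ℝ :=
  (ContinuousLinearMap.compL ℝ ℂ ℂ ℝ Complex.reCLM).comp (ContinuousLinearMap.mul ℝ ℂ)

theorem reL_apply (w ξ : ℂ) : reL w ξ = (w * ξ).re := rfl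

theorem fderiv_reL (F : ℂ → ℝ) (z : ℂ) : fderiv ℝ F z = reL (grd F z) :=
  ContinuousLinearMap.ext fun ξ => fderiv_grd F z ξ

theorem grd_sub {F G : ℂ → ℝ} {z : ℂ} (hF : DifferentiableAt ℝ F z) (hG : DifferentiableAt ℝ G z) :
    grd (F - G) z = grd F z - grd G z :=
  grd_ext fun ξ => by rw [fderiv_sub hF hG, sub_apply, fderiv_grd, fderiv_grd, sub_mul,
    Complex.sub_re]

theorem lreg_unif {X Y : Type} [PseudoMetricSpace Y] {f : ℕ → X → Y} {g : X → Y} {s : Set X} {C : ℝ}
    (h : ∀ n, ∀ z ∈ s, dist (g z) (f n z) ≤ C * (1 / ((n : ℝ) + 1))) :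
    TendstoUniformlyOn f g atTop s := by
  refine Metric.tendstoUniformlyOn_iff.2 fun ε hε => ?_
  have := (tendsto_one_div_add_atTop_nhds_zero_nat (𝕜 := ℝ)).const_mul C
  rw [mul_zero] at this
  filter_upwards [this.eventually (gt_mem_nhds hε)] with n hn z hz using (h n z hz).trans_lt hn

theorem lreg {u h : ℂ → ℝ} {c : ℂ} {r : ℝ} (hr : 0 < r)
    (hw : ∀ ε > 0, ∃ v : ℂ → ℝ, ContDiffOn ℝ ∞ v (ball c r) ∧
      ∀ z ∈ ball c r, |v z - u z| ≤ ε ∧ |Δ v z - h z| ≤ ε)
    (k : ℕ) (hk : ContDiffOn ℝ k h (ball c r)) :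
    ContDiffAt ℝ (k + 1 : ℕ) u c ∧ (1 ≤ k → Δ u c = h c) := by
  choose v hv hb using fun n : ℕ => hw (1 / ((n : ℝ) + 1)) Nat.one_div_pos_of_nat
  obtain ⟨C, hC⟩ := lest hr
  have hs : ball c (r / 8) ⊆ ball c r := ball_subset_ball (by linarith)
  have hs2 : ball c (r / 8) ⊆ ball c (r / 2) := ball_subset_ball (by linarith)
  have sm : ∀ n, ∀ z ∈ ball c r, ContDiffAt ℝ ∞ (v n) z := fun n z hz =>
    (hv n).contDiffAt (isOpen_ball.mem_nhds hz)
  have df := fun n z hz => (sm n z hz).differentiableAt (by simp)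
  have cau : ∀ n m, ∀ z ∈ ball c (r / 8), dist (grd (v n) z) (grd (v m) z) ≤
      C * (1 / ((n : ℝ) + 1) + 1 / ((m : ℝ) + 1)) := fun n m z hz => by
    rw [dist_eq_norm, ← grd_sub (df n z (hs hz)) (df m z (hs hz))]
    refine hC c (v n - v m) _ ((hv n).sub (hv m)) (fun w hw => ?_) z hz
    rw [((sm n w hw).of_le two_le_infty).laplacian_sub ((sm m w hw).of_le two_le_infty),
      Pi.sub_apply]
    have h1 := hb n w hw
    have h2 := hb m w hw
    simp only [abs_le] at h1 h2 ⊢
    refine ⟨⟨?_, ?_⟩, ?_, ?_⟩ <;> linarith [h1.1.1, h1.1.2, h1.2.1, h1.2.2, h2.1.1, h2.1.2, h2.2.1, h2.2.2]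
  have t0 := tendsto_one_div_add_atTop_nhds_zero_nat (𝕜 := ℝ)
  have pt : ∀ z ∈ ball c (r / 8), ∃ W, Tendsto (fun n => grd (v n) z) atTop (𝓝 W) := fun z hz => by
    refine cauchySeq_tendsto_of_complete (cauchySeq_of_le_tendsto_0
      (fun N : ℕ => |C| * (1 / ((N : ℝ) + 1) + 1 / ((N : ℝ) + 1))) (fun n m N hn hm => ?_)
      (by simpa using (t0.add t0).const_mul |C|))
    refine (cau n m z hz).trans ((mul_le_mul_of_nonneg_right (le_abs_self C) (by positivity)).trans ?_)
    gcongr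
  choose! W hW using pt
  have uW : TendstoUniformlyOn (fun n => grd (v n)) W atTop (ball c (r / 8)) := by
    refine lreg_unif (C := C) fun n z hz => ?_
    have := le_of_tendsto_of_tendsto' ((hW z hz).dist tendsto_const_nhds)
      ((t0.add_const _).const_mul C) fun m => cau m n z hz
    simpa using this
  have uu : TendstoUniformlyOn v u atTop (ball c r) := lreg_unif (C := 1) fun n z hz => by
    rw [dist_comm, one_mul]
    exact (hb n z hz).1
  have hd : ∀ z ∈ ball c (r / 8), HasFDerivAt u (reL (W z)) z := fun z hz =>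
    hasFDerivAt_of_tendstoUniformlyOn isOpen_ball (reL.uniformContinuous.comp_tendstoUniformlyOn uW)
      (fun n x hx => by
        have := (df n x (hs hx)).hasFDerivAt
        rwa [fderiv_reL] at this)
      (fun x hx => uu.tendsto_at (hs hx)) hz
  have hh := hk.continuousOn
  have uT : TendstoUniformlyOn (fun n => A.T (lg hr c (Δ (v n)))) (A.T (lg hr c h)) atTop
      (ball c (r / 8)) := by
    refine lreg_unif (C := 3 * r) fun n z _ => ?_
    have c1 := (lap_contOn (hv n)).continuousOn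
    obtain ⟨B, R, -, b1⟩ := D.Lin.bs_of_cont
      (lg_contDiff (k := 0) hr (contDiffOn_zero.2 c1)).continuous (lg_supp hr _)
    obtain ⟨B', R', -, b2⟩ := D.Lin.bs_of_cont
      (lg_contDiff (k := 0) hr (contDiffOn_zero.2 hh)).continuous (lg_supp hr _)
    have := (lg_bs hr (c1.sub hh) fun w hw => (hb n w hw).2).T_le hr z
    rw [dist_comm, dist_eq_norm, ← A.T_sub (b1.T_int z) (b2.T_int z)]
    refine (congrArg (fun g => ‖A.T g z‖) (funext fun s => ?_)).trans_le this
    simp only [lg, Pi.sub_apply, Complex.ofReal_sub, sub_div, smul_sub]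
  have hol : DifferentiableOn ℂ (W - A.T (lg hr c h)) (ball c (r / 8)) :=
    (uW.sub uT).tendstoLocallyUniformlyOn.differentiableOn
      (.of_forall fun n => (lest_holo hr (hv n)).mono hs2) isOpen_ball
  have nb : ball c (r / 8) ∈ 𝓝 c := ball_mem_nhds c (by positivity)
  have an := hol.analyticAt nb
  have tk := D.Lin.T_contDiff (lg_contDiff (k := k) hr hk) (lg_supp hr h)
  have eW : W = (W - A.T (lg hr c h)) + A.T (lg hr c h) := (sub_add_cancel _ _).symm
  have cW : ContDiffAt ℝ k W c := by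
    rw [eW]
    exact (an.contDiffAt.restrict_scalars ℝ).add tk.contDiffAt
  have cu : ContDiffAt ℝ (k + 1 : ℕ) u c := by
    rw [Nat.cast_succ]
    exact contDiffAt_succ_iff_hasFDerivAt.2 ⟨_, ⟨_, nb, hd⟩, reL.contDiff.contDiffAt.comp c cW⟩
  refine ⟨cu, fun h1 => ?_⟩
  have e : grd u =ᶠ[𝓝 c] W := by
    filter_upwards [nb] with z hz using grd_ext fun ξ => by rw [(hd z hz).fderiv, reL_apply]
  have k1 : (1 : WithTop ℕ∞) ≤ k := by exact_mod_cast h1
  have h2 := db_grd (cu.of_le (by exact_mod_cast Nat.succ_le_succ h1))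
  rw [e.fderiv_eq, eW, fderiv_add (an.differentiableAt.restrictScalars ℝ)
    ((tk.of_le k1).differentiable one_ne_zero c), A.db_add, D.Lin.db_of_holo an.differentiableAt,
    D.Lin.db_T ((lg_contDiff (k := k) hr hk).of_le k1) (lg_supp hr h), zero_add,
    lg_eq hr _ (mem_ball_self (by positivity))] at h2
  exact Complex.ofReal_injective (by linear_combination (-2 : ℂ) * h2)

namespace Atl
variable {M : Type} [TopologicalSpace M] {A : Atl M}

theorem Wk.cont {u f : M → ℝ} (h : A.Wk u f) : Continuous u := by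
  choose v hv hb using fun n : ℕ => h (1 / ((n : ℝ) + 1)) Nat.one_div_pos_of_nat
  refine TendstoUniformly.continuous (F := v) (p := atTop) (tendstoUniformlyOn_univ.1
    (lreg_unif (C := 1) fun n z _ => ?_)) (.of_forall fun n => (hv n).continuous)
  rw [dist_comm, one_mul]
  exact (hb n z).1

theorem Wk.reg {u f : M → ℝ} (h : A.Wk u f) (k : ℕ) (hk : A.Sm k f) :
    A.Sm (k + 1 : ℕ) u ∧ (1 ≤ k → ∀ x, A.lap u x = f x) := by
  have key : ∀ x, ContDiffAt ℝ (k + 1 : ℕ) (u ∘ (A.e (A.idx x)).symm) (A.e (A.idx x) x) ∧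
      (1 ≤ k → Δ (u ∘ (A.e (A.idx x)).symm) (A.e (A.idx x) x) =
        Real.exp (2 * A.lam (A.idx x) (A.e (A.idx x) x)) * f x) := fun x => by
    set i := A.idx x
    have hx := A.idx_mem x
    have s1 : ball (A.e i x) 1 ⊆ closedBall 0 2 := fun z hz => by
      rw [mem_ball, dist_eq_norm] at hz
      rw [mem_closedBall_zero_iff]
      linarith [norm_add_le (z - A.e i x) (A.e i x), hx.2, sub_add_cancel z (A.e i x),
        congrArg norm (sub_add_cancel z (A.e i x))]
    have s2 : closedBall (0 : ℂ) 2 ⊆ ball 0 4 := closedBall_subset_ball (by norm_num)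
    have ce : ContDiffOn ℝ ∞ (fun z => Real.exp (2 * A.lam i z)) (ball 0 4) :=
      (contDiffOn_const.mul (A.lam_sm i)).exp
    obtain ⟨C, hC⟩ := (isCompact_closedBall (0 : ℂ) 2).exists_bound_of_continuousOn
      (ce.continuousOn.mono s2)
    have := lreg (u := u ∘ (A.e i).symm) (c := A.e i x)
      (h := fun z => Real.exp (2 * A.lam i z) * f ((A.e i).symm z)) one_pos (fun ε hε => by
        obtain ⟨v, hv, hb⟩ := h (ε / (|C| + 1)) (by positivity)
        have p : ε / (|C| + 1) * (|C| + 1) = ε := div_mul_cancel₀ _ (by positivity)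
        have q : 0 < ε / (|C| + 1) := by positivity
        refine ⟨v ∘ (A.e i).symm, (hv.on i).mono (s1.trans s2), fun z hz => ⟨(hb _).1.trans
          (by nlinarith [abs_nonneg C]), ?_⟩⟩
        have m := symm_mem i (s2 (s1 hz))
        have e := (hb ((A.e i).symm z)).2
        rw [lap_eq ((hv _).of_le two_le_infty) m.1, lapi, m.2] at e
        have e2 : Δ (v ∘ (A.e i).symm) z - Real.exp (2 * A.lam i z) * f ((A.e i).symm z) =
            Real.exp (2 * A.lam i z) * (Real.exp (-2 * A.lam i z) * Δ (v ∘ (A.e i).symm) z -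
              f ((A.e i).symm z)) := by
          rw [mul_sub, ← mul_assoc, ← Real.exp_add]
          simp
        rw [e2, abs_mul]
        refine (mul_le_mul ((hC z (s1 hz)).trans (le_abs_self C)) e (abs_nonneg _)
          (abs_nonneg _)).trans ?_
        nlinarith) k (((ce.of_le (by exact_mod_cast le_top)).mul (hk.on i)).mono (s1.trans s2))
    simpa only [(A.e i).left_inv hx.1] using this
  refine ⟨fun x => smAt_of (A.idx_mem x).1 (key x).1, fun h1 x => ?_⟩
  rw [lap, lapi, (key x).2 h1, ← mul_assoc, ← Real.exp_add]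
  simp

theorem Wk.boot {u : M → ℝ} (N : (M → ℝ) → M → ℝ)
    (hN : ∀ (k : ℕ) (v : M → ℝ), A.Sm k v → A.Sm k (N v)) (h : A.Wk u (N u)) :
    A.Sm ∞ u ∧ ∀ x, A.lap u x = N u x := by
  have key : ∀ k : ℕ, A.Sm k u := fun k => by
    induction k with
    | zero => exact sm_zero h.cont
    | succ k ih => exact (h.reg k (hN k u ih)).1
  exact ⟨sm_infty key, (h.reg 1 (hN 1 u (key 1))).2 le_rfl⟩

end Atl

end

end Pool.Agent.Lib.MP_21f752_an.U
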