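import Pool.Agent.Lib.MP_21f752_an.U.UDef

/-! Christoffel symbols and curvature under a change of chart. -/

namespace Pool.Agent.Lib.MP_21f752_an.U

open Set Filter Topology Metric MeasureTheory
open Complex (I)
open scoped ContDiff Laplacian UpperHalfPlane Manifold MatrixGroups

noncomputable section

section Law
variable {V W : Type} [NormedAddCommGroup V] [NormedSpace ℝ V] [NormedAddCommGroup W]
  [NormedSpace ℝ W] [CompleteSpace V] [CompleteSpace W]

theorem inv_of_pos [FiniteDimensional ℝ W] {B : W →L[ℝ] W →L[ℝ] ℝ} (h : ∀ v, v ≠ 0 → 0 < B v v) :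
    B.IsInvertible := by
  have i : Function.Injective (B : W →ₗ[ℝ] W →L[ℝ] ℝ) :=
    (injective_iff_map_eq_zero _).2 fun v hv => by_contra fun h0 => by
      have k := h v h0
      rw [show B v = 0 from hv] at k
      exact k.false
  have d : Module.finrank ℝ W = Module.finrank ℝ (W →L[ℝ] ℝ) := by
    rw [← (LinearMap.toContinuousLinearMap : (W →ₗ[ℝ] ℝ) ≃ₗ[ℝ] _).finrank_eq]
    exact Subspace.dual_finrank_eq.symm
  exact ⟨(LinearMap.linearEquivOfInjective _ i d).toContinuousLinearEquiv, by ext; rfl⟩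

omit [CompleteSpace W] in
theorem law_congr {G H : W → W →L[ℝ] W →L[ℝ] ℝ} {y : W} (e : G =ᶠ[𝓝 y] H) :
    chr G =ᶠ[𝓝 y] chr H := by
  filter_upwards [e.eventuallyEq_nhds] with x hx
  funext u v
  rw [chr, chr, hx.eq_of_nhds, hx.fderiv_eq]

theorem chr_congr {G H : W → W →L[ℝ] W →L[ℝ] ℝ} {y : W} (e : G =ᶠ[𝓝 y] H) :
    chr G =ᶠ[𝓝 y] chr H := law_congr e

theorem riem_congr {G H : W → W →L[ℝ] W →L[ℝ] ℝ} {y : W} (e : G =ᶠ[𝓝 y] H) :
    riem G y = riem H y := by
  have c := law_congr e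
  have d : ∀ a b, (fun x => chr G x a b) =ᶠ[𝓝 y] fun x => chr H x a b := fun a b =>
    c.mono fun x hx => by simp only [hx]
  funext u v w
  rw [riem, riem, (d v w).fderiv_eq, (d u w).fderiv_eq, c.eq_of_nhds]

/-- the Christoffel symbols as a bilinear map, with an abstract dual space -/
def lawT {X : Type} [NormedAddCommGroup X] [NormedSpace ℝ X] (τ : (W →L[ℝ] X) →L[ℝ] W →L[ℝ] X)
    (G : W → W →L[ℝ] X) (y : W) : W →L[ℝ] W →L[ℝ] W :=
  (ContinuousLinearMap.compL ℝ W X W (G y).inverse).comp ((1 / 2 : ℝ) •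
    (fderiv ℝ G y + ContinuousLinearMap.flipₗᵢ ℝ W W X (fderiv ℝ G y) -
      τ.comp (ContinuousLinearMap.flipₗᵢ ℝ W W X (fderiv ℝ G y))))

theorem law_dT {X : Type} [NormedAddCommGroup X] [NormedSpace ℝ X]
    (τ : (W →L[ℝ] X) →L[ℝ] W →L[ℝ] X) {G : W → W →L[ℝ] X} {y : W} (hG : ContDiffAt ℝ 2 G y)
    (hi : (G y).IsInvertible) : DifferentiableAt ℝ (lawT τ G) y := by
  have a : ContDiffAt ℝ 1 (fderiv ℝ G) y := hG.fderiv_right (by norm_num)
  have b : ContDiffAt ℝ 1 (fun x => (G x).inverse) y :=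
    hi.contDiffAt_map_inverse.comp y (hG.of_le (by norm_num))
  have c : ContDiffAt ℝ 1 (fun x => ContinuousLinearMap.flipₗᵢ ℝ W W X (fderiv ℝ G x)) y := by
    have k := LinearIsometryEquiv.contDiff (𝕜 := ℝ) (n := 1) (E := W →L[ℝ] W →L[ℝ] X)
      (F := W →L[ℝ] W →L[ℝ] X) (ContinuousLinearMap.flipₗᵢ ℝ W W X)
    have l := k.comp_contDiffAt y a
    exact l
  have d : ContDiffAt ℝ 1 (fun x => ContinuousLinearMap.compL ℝ W X W (G x).inverse) y := by
    have k := ContinuousLinearMap.contDiff (𝕜 := ℝ) (n := 1) (E := X →L[ℝ] W)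
      (F := (W →L[ℝ] X) →L[ℝ] W →L[ℝ] W) (ContinuousLinearMap.compL ℝ W X W)
    have l := k.comp_contDiffAt y b
    exact l
  exact (d.clm_comp (((a.add c).sub (contDiffAt_const.clm_comp c)).const_smul
    (1 / 2 : ℝ))).differentiableAt one_ne_zero

/-- the Christoffel symbols as a bilinear map -/
def lawG (G : W → W →L[ℝ] W →L[ℝ] ℝ) : W → W →L[ℝ] W →L[ℝ] W :=
  lawT (ContinuousLinearMap.flipₗᵢ ℝ W W ℝ).toContinuousLinearEquiv.toContinuousLinearMap G

omit [CompleteSpace W] in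
theorem law_G (G : W → W →L[ℝ] W →L[ℝ] ℝ) (y u v : W) : chr G y u v = lawG G y u v := rfl

theorem law_dG {G : W → W →L[ℝ] W →L[ℝ] ℝ} {y : W} (hG : ContDiffAt ℝ 2 G y)
    (hi : (G y).IsInvertible) : DifferentiableAt ℝ (lawG G) y := law_dT _ hG hi

omit [CompleteSpace V] [CompleteSpace W] in
theorem law_cd {n : ℕ∞ω} {B : V → W →L[ℝ] W →L[ℝ] ℝ} {A : V → V →L[ℝ] W} {z : V}
    (hB : ContDiffAt ℝ n B z) (hA : ContDiffAt ℝ n A z) :
    ContDiffAt ℝ n (fun y => (B y).bilinearComp (A y) (A y)) z := by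
  have d : ContDiffAt ℝ n (fun y => (ContinuousLinearMap.compL ℝ V W ℝ).flip (A y)) z := by
    have k := ContinuousLinearMap.contDiff (𝕜 := ℝ) (n := n) (E := V →L[ℝ] W)
      (F := (W →L[ℝ] ℝ) →L[ℝ] V →L[ℝ] ℝ) (ContinuousLinearMap.compL ℝ V W ℝ).flip
    have l := k.comp_contDiffAt z hA
    exact l
  exact d.clm_comp (hB.clm_comp hA)

omit [CompleteSpace V] [CompleteSpace W] in
theorem law_inv {B : W →L[ℝ] W →L[ℝ] ℝ} {A : V →L[ℝ] W} (hB : B.IsInvertible)
    (hA : A.IsInvertible) : (B.bilinearComp A A).IsInvertible := by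
  obtain ⟨g, rfl⟩ := hB
  obtain ⟨e, rfl⟩ := hA
  exact ⟨e.trans (g.trans (e.symm.arrowCongr (ContinuousLinearEquiv.refl ℝ ℝ))), by ext; simp⟩

omit [CompleteSpace V] [CompleteSpace W] in
/-- the derivative of a bilinear expression -/
theorem law_two {X : Type} [NormedAddCommGroup X] [NormedSpace ℝ X] {B : W → W →L[ℝ] W →L[ℝ] X}
    {φ : V → W} {z : V} (hφ : DifferentiableAt ℝ φ z) (h2 : DifferentiableAt ℝ (fderiv ℝ φ) z)
    (hB : DifferentiableAt ℝ B (φ z)) (a b c : V) :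
    DifferentiableAt ℝ (fun y => B (φ y) (fderiv ℝ φ y b) (fderiv ℝ φ y c)) z ∧
    fderiv ℝ (fun y => B (φ y) (fderiv ℝ φ y b) (fderiv ℝ φ y c)) z a =
      fderiv ℝ B (φ z) (fderiv ℝ φ z a) (fderiv ℝ φ z b) (fderiv ℝ φ z c) +
        B (φ z) (fderiv ℝ (fderiv ℝ φ) z a b) (fderiv ℝ φ z c) +
        B (φ z) (fderiv ℝ φ z b) (fderiv ℝ (fderiv ℝ φ) z a c) := by
  have k0 : HasFDerivAt (fun y => B (φ y)) ((fderiv ℝ B (φ z)).comp (fderiv ℝ φ z)) z :=
    HasFDerivAt.comp (𝕜 := ℝ) (G := W →L[ℝ] W →L[ℝ] X) z hB.hasFDerivAt hφ.hasFDerivAt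
  have k := (k0.clm_apply
    (h2.hasFDerivAt.clm_apply (hasFDerivAt_const b z))).clm_apply
    (h2.hasFDerivAt.clm_apply (hasFDerivAt_const c z))
  refine ⟨k.differentiableAt, (congrArg (fun L : V →L[ℝ] X => L a) k.fderiv).trans ?_⟩
  simp
  abel

omit [CompleteSpace W] in
theorem law_app {X : Type} [NormedAddCommGroup X] [NormedSpace ℝ X] {B : W → W →L[ℝ] W →L[ℝ] X}
    {y : W} (hB : DifferentiableAt ℝ B y) (a b c : W) :
    DifferentiableAt ℝ (fun x => B x b c) y ∧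
      fderiv ℝ (fun x => B x b c) y a = fderiv ℝ B y a b c := by
  have k := (hB.hasFDerivAt.clm_apply (hasFDerivAt_const b y)).clm_apply (hasFDerivAt_const c y)
  refine ⟨k.differentiableAt, (congrArg (fun L : W →L[ℝ] X => L a) k.fderiv).trans ?_⟩
  simp

omit [CompleteSpace W] in
theorem law_spec {G : W → W →L[ℝ] W →L[ℝ] ℝ} {y : W} (hi : (G y).IsInvertible) (u v w : W) :
    G y (chr G y u v) w =
      1 / 2 * (fderiv ℝ G y u v w + fderiv ℝ G y v u w - fderiv ℝ G y w u v) := by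
  rw [chr, hi.self_apply_inverse]
  simp

/-- hint: test against `G (φ z) · (Dφ w)`; `H z` is invertible as a pull-back -/
theorem chr_law {G : W → W →L[ℝ] W →L[ℝ] ℝ} {H : V → V →L[ℝ] V →L[ℝ] ℝ} {φ : V → W} {z : V}
    (hφ : ContDiffAt ℝ 2 φ z) (hi : (fderiv ℝ φ z).IsInvertible) (hG : Good G (φ z))
    (hH : ∀ᶠ y in 𝓝 z, H y = (G (φ y)).bilinearComp (fderiv ℝ φ y) (fderiv ℝ φ y)) (u v : V) :
    fderiv ℝ φ z (chr H z u v) =
      fderiv ℝ (fderiv ℝ φ) z u v + chr G (φ z) (fderiv ℝ φ z u) (fderiv ℝ φ z v) := by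
  obtain ⟨g1, g2, g3⟩ := hG.self_of_nhds
  have c2 : ContDiffAt ℝ 1 (fderiv ℝ φ) z := hφ.fderiv_right (by norm_num)
  have dH : DifferentiableAt ℝ H z :=
    ((law_cd ((g1.of_le (by norm_num)).comp z (hφ.of_le (by norm_num))) c2).differentiableAt
      one_ne_zero).congr_of_eventuallyEq hH
  have e := hH.self_of_nhds
  have iH : (H z).IsInvertible := e ▸ law_inv g3 hi
  have D : ∀ a b c, fderiv ℝ H z a b c = _ := fun a b c =>
    ((law_app dH a b c).2.symm.trans (by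
      rw [EventuallyEq.fderiv_eq (f := fun y => G (φ y) (fderiv ℝ φ y b) (fderiv ℝ φ y c))
        (hH.mono fun y hy => by simp only [hy, ContinuousLinearMap.bilinearComp_apply])])).trans
      (law_two (hφ.differentiableAt two_ne_zero) (c2.differentiableAt one_ne_zero)
        (g1.differentiableAt (by simp)) a b c).2
  have sy := hφ.isSymmSndFDerivAt (by simp)
  refine g3.injective (ContinuousLinearMap.ext fun x => ?_)
  obtain ⟨w, rfl⟩ := hi.surjective x
  have k := law_spec iH u v w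
  rw [D, D, D, e, ContinuousLinearMap.bilinearComp_apply] at k
  rw [k, map_add, add_apply, law_spec g3, sy.eq v u, sy.eq w u, sy.eq w v,
    g2 (fderiv ℝ (fderiv ℝ φ) z u w)]
  ring

/-- hint: `chr G y` is a smooth family of bilinear maps near `φ z`; differentiate `chr_law` in the
direction `u`, antisymmetrise, use the symmetry of the second and third derivatives of `φ` -/
theorem riem_law {G : W → W →L[ℝ] W →L[ℝ] ℝ} {H : V → V →L[ℝ] V →L[ℝ] ℝ} {φ : V → W} {z : V}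
    (hφ : ContDiffAt ℝ 3 φ z) (hi : (fderiv ℝ φ z).IsInvertible) (hG : Good G (φ z))
    (hH : ∀ᶠ y in 𝓝 z, H y = (G (φ y)).bilinearComp (fderiv ℝ φ y) (fderiv ℝ φ y)) (u v w : V) :
    fderiv ℝ φ z (riem H z u v w) =
      riem G (φ z) (fderiv ℝ φ z u) (fderiv ℝ φ z v) (fderiv ℝ φ z w) := by
  obtain ⟨g1, -, g3⟩ := hG.self_of_nhds
  have h2 : ContDiffAt ℝ 2 φ z := hφ.of_le (by norm_num)
  have c2 : ContDiffAt ℝ 2 (fderiv ℝ φ) z := hφ.fderiv_right (by norm_num)
  have c3 : ContDiffAt ℝ 1 (fderiv ℝ (fderiv ℝ φ)) z := c2.fderiv_right (by norm_num)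
  have g2 : ContDiffAt ℝ 2 G (φ z) := g1.of_le (by norm_cast)
  have dG := law_dG g2 g3
  have dH : DifferentiableAt ℝ (lawG H) z :=
    law_dG ((law_cd (g2.comp z h2) c2).congr_of_eventuallyEq hH) (hH.self_of_nhds ▸ law_inv g3 hi)
  have iv : ∀ᶠ y in 𝓝 z, (fderiv ℝ φ y).IsInvertible := by
    obtain ⟨e, he⟩ := hi
    exact c2.continuousAt (he ▸ e.nhds)
  have ev : ∀ᶠ y in 𝓝 z, ∀ a b, fderiv ℝ φ y (lawG H y a b) =
      fderiv ℝ (fderiv ℝ φ) y a b + lawG G (φ y) (fderiv ℝ φ y a) (fderiv ℝ φ y b) := by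
    filter_upwards [h2.eventually (by simp), iv, h2.continuousAt hG.eventually_nhds,
      hH.eventually_nhds] with y a b c d
    exact chr_law a b c d
  have d2 := c2.differentiableAt two_ne_zero
  have key : ∀ a b c, fderiv ℝ φ z (fderiv ℝ (lawG H) z a b c) +
      fderiv ℝ (fderiv ℝ φ) z a (lawG H z b c) = fderiv ℝ (fderiv ℝ (fderiv ℝ φ)) z a b c + _ :=
    fun a b c => by
    have l := (d2.hasFDerivAt.clm_apply (law_app dH a b c).1.hasFDerivAt).fderiv
    have t := law_two (h2.differentiableAt two_ne_zero) d2 dG a b c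
    have s := law_app (c3.differentiableAt one_ne_zero) a b c
    rw [EventuallyEq.fderiv_eq (ev.mono fun y hy => hy b c), fderiv_fun_add s.1 t.1] at l
    have m := congrArg (fun L : V →L[ℝ] W => L a) l
    simp only [add_apply, ContinuousLinearMap.comp_apply,
      ContinuousLinearMap.flip_apply, s.2, t.2, (law_app dH a b c).2] at m
    exact m.symm
  have s2 := h2.isSymmSndFDerivAt (by simp)
  have s3 := c2.isSymmSndFDerivAt (by simp)
  have e0 := ev.self_of_nhds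
  simp only [riem, law_G, (law_app dH _ _ _).2, (law_app dG _ _ _).2, map_add, map_sub, e0]
  rw [eq_sub_of_add_eq (key u v w), eq_sub_of_add_eq (key v u w), s2.eq v u, s3.eq v u]
  abel

end Law

end

end Pool.Agent.Lib.MP_21f752_an.U
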