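import Pool.Agent.Lib.MP_21f752_an.U.ParM
import Pool.Agent.Lib.MP_21f752_an.U.LReg
import Pool.Agent.Lib.MP_1c0d65_gt.Hol.Cpt

/-! Linear equations. -/

namespace Pool.Agent.Lib.MP_21f752_an.U

open Set Filter Topology Metric MeasureTheory Pool.Agent.Lib.MP_1c0d65_gt
open Complex (I)
open scoped ContDiff Laplacian UpperHalfPlane Manifold MatrixGroups

noncomputable section

namespace Atl
variable {M : Type} [TopologicalSpace M] (A : Atl M)

theorem solve [CompactSpace M] [T2Space M] (B : C(M, ℝ) →L[ℝ] C(M, ℝ))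
    (hu : ∀ u : C(M, ℝ), A.Wk u (B u) → u = 0) (g : C(M, ℝ)) :
    ∃ u : C(M, ℝ), A.Wk u fun x => B u x + g x := by
  obtain ⟨P, R, Θ, hP, hR, hΘ, hW, hi⟩ := A.exists_par
  let Θ' : C(M, ℝ) := ⟨fun x => (Θ x)⁻¹, Θ.continuous.inv₀ fun x => (hΘ x).ne'⟩
  let D : C(M, ℝ) ≃L[ℝ] C(M, ℝ) := ContinuousLinearEquiv.equivOfInverse
    (ContinuousLinearMap.mul ℝ _ Θ) (ContinuousLinearMap.mul ℝ _ Θ')
    (fun f => by ext x; simp [Θ', (hΘ x).ne']) fun f => by ext x; simp [Θ', (hΘ x).ne']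
  have e : ∀ f x, ((D : C(M, ℝ) →L[ℝ] C(M, ℝ)) + (R - B.comp P)) f x =
      Θ x * f x + (R f x - B (P f) x) := fun f x => rfl
  obtain ⟨L, hL⟩ := isInvertible_of_compact D (R - B.comp P) (D + (R - B.comp P))
    (hR.sub (hP.clm_comp B)) (fun _ => rfl) fun f hf => hi f (hu _ (by
      convert hW f using 2 with x
      have := e f x
      rw [hf, ContinuousMap.zero_apply] at this
      linarith))
  refine ⟨P (L.symm g), ?_⟩
  convert hW (L.symm g) using 2 with x
  have := e (L.symm g) x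
  rw [← hL, ContinuousLinearEquiv.coe_coe, L.apply_symm_apply] at this
  linarith

theorem solve_pos [CompactSpace M] [T2Space M] {l : ℝ} (hl : 0 < l) {g : M → ℝ} (hg : A.Sm ∞ g) :
    ∃ u, A.Sm ∞ u ∧ ∀ x, A.lap u x - l * u x = g x := by
  obtain ⟨u, hu⟩ := A.solve (l • .id ℝ _) (fun u hu => by
    obtain ⟨h1, h2⟩ := Wk.boot (u := u) (fun v x => l * v x)
      (fun k v hv x => (smAt_const l).mul (hv x)) hu
    have h3 : A.Sm 2 u := fun x => (h1 x).of_le two_le_infty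
    ext x
    exact le_antisymm (le_of_lap h3 hl (fun y => by simp [h2]) x)
      (ge_of_lap h3 hl (fun y => by simp [h2]) x)) ⟨g, hg.continuous⟩
  obtain ⟨h1, h2⟩ := Wk.boot (u := u) (fun v x => l * v x + g x) (fun k v hv x =>
    ((smAt_const l).mul (hv x)).add ((hg x).of_le (by exact_mod_cast le_top))) hu
  exact ⟨u, h1, fun x => by rw [h2, add_sub_cancel_left]⟩

theorem solve_zero [CompactSpace M] [T2Space M] [ConnectedSpace M] {g : M → ℝ} (hg : A.Sm ∞ g) :
    ∃ (u : M → ℝ) (c : ℝ), A.Sm ∞ u ∧ ∀ x, A.lap u x = g x + c := by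
  obtain ⟨p⟩ : Nonempty M := inferInstance
  obtain ⟨u, hu⟩ := A.solve ((ContinuousMap.evalCLM ℝ p).smulRight (1 : C(M, ℝ))) (fun u hu => by
    obtain ⟨h1, h2⟩ := Wk.boot (A := A) (u := u) (fun v _ => v p * 1)
      (fun k v hv x => smAt_const _) hu
    obtain ⟨h3, h4⟩ := const_of_lap (fun x => (h1 x).of_le two_le_infty) h2
    ext x
    rw [h4 x p, ← mul_one (u p), h3, ContinuousMap.zero_apply]) ⟨g, hg.continuous⟩
  obtain ⟨h1, h2⟩ := Wk.boot (u := u) (fun v x => v p * 1 + g x) (fun k v hv x =>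
    (smAt_const _).add ((hg x).of_le (by exact_mod_cast le_top))) hu
  exact ⟨u, u p * 1, h1, fun x => by rw [h2, add_comm]⟩

end Atl

end

end Pool.Agent.Lib.MP_21f752_an.U
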