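import Pool.Agent.Lib.MP_21f752_an.U.TrA
import Pool.Agent.Lib.MP_21f752_an.Act

/-! Conjugate points and entropy. -/

namespace Pool.Agent.Lib.MP_21f752_an.U

open Set Filter Topology Metric MeasureTheory Pool.Agent.Lib.MP_1c0d65_gt
open Complex (I)
open scoped ContDiff Laplacian UpperHalfPlane Manifold MatrixGroups

noncomputable section

variable {E : Type} [NormedAddCommGroup E] [NormedSpace ℝ E] [FiniteDimensional ℝ E]
  {M : Type} [TopologicalSpace M] [ChartedSpace E M] [IsManifold 𝓘(ℝ, E) ∞ M]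
  {V : Type} [NormedAddCommGroup V] [NormedSpace ℝ V] (g : Met E M) {J : M → E →L[ℝ] E}

namespace Unif
variable {g} (U : Unif g J) {b : M → ℝ} {k : ℝ}

theorem noConj (hb : ContMDiff 𝓘(ℝ, E) 𝓘(ℝ, ℝ) ∞ b) (h : NoConjugate g J b k) :
    NoConj U.f (b ∘ U.p) k := by
  intro c h1 h2 h3 T hT hd
  refine h (fun θ => U.p ∘ c θ) (fun θ => U.mag hb (h1 θ)) (fun θ => congrArg U.p (h2 θ))
    (fun θ => ?_) T hT ?_
  · rw [U.velo_eq (h1 θ).1, U.velo_eq (h1 0).1, h2 θ, h3 θ, Function.comp_apply, ← U.rot,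
      ← map_smul, ← map_smul, ← map_add, Complex.exp_mul_I]
    congr 1
    simp only [Complex.real_smul, Complex.ofReal_cos, Complex.ofReal_sin]
    ring
  · have := ((U.sm (c 0 T)).mdifferentiableAt (by simp)).hasMFDerivAt.comp (0 : ℝ)
      hd.hasFDerivAt.hasMFDerivAt
    convert this using 1
    · ext θ
      simp only [Function.comp_apply, UpperHalfPlane.ofComplex_apply]
    · exact ContinuousLinearMap.ext fun t => by
        change (0 : E) = dif E (U.p ∘ UpperHalfPlane.ofComplex) (c 0 T) (@id ℝ t • (0 : ℂ))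
        rw [smul_zero]
        exact (map_zero _).symm

/-- the differential of the covering -/
def TP (x : ℍ × ℂ) : TangentBundle 𝓘(ℝ, E) M :=
  tv (U.p x.1) (dif E (U.p ∘ UpperHalfPlane.ofComplex) x.1 x.2)

theorem dif_inj (z : ℍ) : Function.Injective (dif E (U.p ∘ UpperHalfPlane.ofComplex) z) := by
  obtain ⟨L, hL⟩ := U.dif_inv z
  rw [← hL]
  exact L.injective

theorem TP_fib {x y : ℍ × ℂ} (e : U.TP x = U.TP y) : ∃ γ ∈ U.Γ, tact γ x = y := by
  obtain ⟨γ, hγ, h1⟩ := U.fib x.1 y.1 (congrArg Bundle.TotalSpace.proj e)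
  refine ⟨γ, hγ, Prod.ext h1 (U.dif_inj y.1 ?_)⟩
  have e2 : dif E (U.p ∘ UpperHalfPlane.ofComplex) x.1 x.2 =
      dif E (U.p ∘ UpperHalfPlane.ofComplex) y.1 y.2 :=
    congrArg (fun p : TangentBundle 𝓘(ℝ, E) M => (p.2 : E)) e
  have e3 : mob γ x.1 = y.1 := by rw [← coe_smul_mob, h1]
  have e4 : U.p ∘ UpperHalfPlane.ofComplex =ᶠ[𝓝 (x.1 : ℂ)]
      (U.p ∘ UpperHalfPlane.ofComplex) ∘ mob γ := by
    filter_upwards [UpperHalfPlane.isOpen_upperHalfPlaneSet.mem_nhds x.1.im_pos] with z hz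
    simp only [Function.comp_apply, ofComplex_mob γ hz, U.inv γ hγ]
  have hd := (hasDerivAt_mob γ x.1.im_pos).hasFDerivAt.restrictScalars ℝ
  rw [← e2, dif_congr e4, dif_comp (e3 ▸ (U.sm y.1).mdifferentiableAt (by simp))
    hd.differentiableAt, hd.fderiv, e3, ContinuousLinearMap.comp_apply]
  congr 1
  change x.2 / den γ x.1 ^ 2 = x.2 * (1 / den γ x.1 ^ 2)
  ring

theorem TP_open {O : Set (ℍ × ℂ)} (hO : IsOpen O) : IsOpen (U.TP '' O) := by
  refine isOpen_iff_mem_nhds.2 ?_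
  rintro _ ⟨⟨z, v⟩, hx, rfl⟩
  obtain ⟨r, r0, hr⟩ := U.loc z
  have rc := hr.self_of_nhds.1.continuousAt
  have hp : ∀ᶠ y in 𝓝 (U.p z), 0 < (r y).im :=
    rc.eventually (r0 ▸ UpperHalfPlane.isOpen_upperHalfPlaneSet.mem_nhds z.im_pos)
  obtain ⟨W, hW, oW, mW⟩ := eventually_nhds_iff.1 (hr.and hp)
  let D : M → E →L[ℝ] ℂ := fun y => mfderiv 𝓘(ℝ, E) 𝓘(ℝ, ℂ) r y
  have o : ∀ y ∈ W, (UpperHalfPlane.ofComplex (r y) : ℂ) = r y := fun y hy => by
    rw [UpperHalfPlane.ofComplex_apply_of_im_pos (hW y hy).2]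
  have hD : ∀ y ∈ W, ∀ w, dif E (U.p ∘ UpperHalfPlane.ofComplex) (r y) (D y w) = w := by
    intro y hy w
    have h1 := mfderiv_comp y (o y hy ▸ (U.sm _).mdifferentiableAt (by simp))
      ((hW y hy).1.1.mdifferentiableAt (by simp))
    have h2 : (U.p ∘ UpperHalfPlane.ofComplex) ∘ r =ᶠ[𝓝 y] id := by
      filter_upwards [oW.mem_nhds hy] with x hx using (hW x hx).1.2
    rw [h2.mfderiv_eq, mfderiv_id] at h1
    exact (congrArg (fun L : E →L[ℝ] E => L w) h1).symm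
  have oT : IsOpen (Bundle.TotalSpace.proj ⁻¹' W : Set (TangentBundle 𝓘(ℝ, E) M)) :=
    oW.preimage (FiberBundle.continuous_proj E _)
  have mT : U.TP (z, v) ∈ (Bundle.TotalSpace.proj ⁻¹' W : Set (TangentBundle 𝓘(ℝ, E) M)) := mW
  have c1 : ContinuousAt (tangentMap 𝓘(ℝ, E) 𝓘(ℝ, ℂ) r) (U.TP (z, v)) := by
    refine ((ContMDiffOn.continuousOn_tangentMapWithin (n := ∞)
      (fun y hy => (hW y hy).1.1.contMDiffWithinAt) (by simp) oW.uniqueMDiffOn).continuousAt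
      (oT.mem_nhds mT)).congr ?_
    filter_upwards [oT.mem_nhds mT] with y hy
    exact tangentMapWithin_eq_tangentMap (oW.uniqueMDiffOn _ hy)
      ((hW _ hy).1.1.mdifferentiableAt (by simp))
  have c2 := ((tangentBundleModelSpaceHomeomorph 𝓘(ℝ, ℂ)).continuous.continuousAt.comp c1)
  have c3 : ContinuousAt (fun y : TangentBundle 𝓘(ℝ, E) M =>
      (UpperHalfPlane.ofComplex (r y.1), D y.1 y.2)) (U.TP (z, v)) :=
    ((UpperHalfPlane.contMDiffAt_ofComplex (n := 0) (hW _ mW).2).continuousAt.comp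
      (f := fun y : TangentBundle 𝓘(ℝ, E) M => r y.1) c2.fst).prodMk c2.snd
  have e0 : (UpperHalfPlane.ofComplex (r (U.TP (z, v)).1), D (U.TP (z, v)).1 (U.TP (z, v)).2) =
      (z, v) := by
    refine Prod.ext ?_ (U.dif_inj z ?_)
    · exact (congrArg _ r0).trans (UpperHalfPlane.ofComplex_apply z)
    · have := hD _ mW (dif E (U.p ∘ UpperHalfPlane.ofComplex) z v)
      rwa [r0] at this
  filter_upwards [c3.eventually (e0 ▸ hO.mem_nhds hx), oT.mem_nhds mT] with y h1 h2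
  refine ⟨_, h1, ?_⟩
  simp only [TP, o _ h2, (hW _ h2).1.2]
  exact congrArg (tv y.1) (hD _ h2 y.2)

theorem ent (hb : ContMDiff 𝓘(ℝ, E) 𝓘(ℝ, ℝ) ∞ b) (h : ZeroEnt g J b k) :
    ZeroEntropy U.Γ U.f (b ∘ U.p) k := by
  intro m O h1 h2 h3 η hη
  obtain ⟨C, hC⟩ := h m (fun i => U.TP '' O i) (fun i => U.TP_open (h1 i)) (fun x v hv => by
    obtain ⟨z, rfl⟩ := U.surj x
    obtain ⟨L, hL⟩ := U.dif_inv z
    have e : dif E (U.p ∘ UpperHalfPlane.ofComplex) z (L.symm v) = v := by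
      rw [← hL]
      exact L.apply_symm_apply v
    obtain ⟨i, hi⟩ := h3 (z, L.symm v) (by
      have := congrArg (fun B : ℂ →L[ℝ] ℂ →L[ℝ] ℝ => B (L.symm v) (L.symm v)) (U.met z)
      simp only [pull, ContinuousLinearMap.bilinearComp_apply, e, Function.comp_apply,
        UpperHalfPlane.ofComplex_apply] at this
      rw [← hv, this, energy, ← real_inner_self_eq_norm_sq]
      rfl)
    exact ⟨i, _, hi, by rw [TP, e]⟩) η hη
  refine ⟨C, fun n => (hC n).imp fun W hW => ⟨hW.1, fun c hc => ?_⟩⟩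
  obtain ⟨w, hw, h4⟩ := hW.2 _ (U.mag hb hc)
  refine ⟨w, hw, fun j => ?_⟩
  obtain ⟨x, hx, e⟩ := h4 j
  rw [U.velo_eq hc.1] at e
  obtain ⟨γ, hγ, e2⟩ := U.TP_fib (y := (c j, vel c j)) e
  exact e2 ▸ h2 _ γ hγ x hx

end Unif

end

end Pool.Agent.Lib.MP_21f752_an.U
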