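import Pool.Agent.Lib.MP_21f752_an.U.Uni
import Pool.Agent.Lib.MP_21f752_an.U.TrB
import Pool.Agent.Lib.MP_21f752_an.FAll

/-! Rigidity on a closed oriented surface of genus at least two. -/

namespace Pool.Agent.Lib.MP_21f752_an.U

open scoped Manifold ContDiff

theorem rigid_surface {E : Type} [NormedAddCommGroup E] [NormedSpace ℝ E]
    (hE : Module.finrank ℝ E = 2) {M : Type} [TopologicalSpace M] [T2Space M] [CompactSpace M]
    [ConnectedSpace M] [ChartedSpace E M] [IsManifold 𝓘(ℝ, E) ∞ M] (h : 4 ≤ betti1 M) (g : Met E M)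
    (J : M → E →L[ℝ] E) (hJ : IsRot g J) (b : M → ℝ) (hb : ContMDiff 𝓘(ℝ, E) 𝓘(ℝ, ℝ) ∞ b) (k : ℝ)
    (hk : 0 < k) (hnc : NoConjugate g J b k) (hent : ZeroEnt g J b k) :
    (∃ κ, ∀ x u v, LinearIndependent ℝ ![u, v] → gauss g x u v = κ) ∧ ∃ β, ∀ x, b x = β := by
  have : FiniteDimensional ℝ E := Module.finite_of_finrank_pos (by omega)
  obtain ⟨U⟩ := exists_unif g hE hJ h
  have := U.disc
  obtain ⟨⟨κ, h1⟩, β, h2⟩ := fin_of rigid_sys U.Γ U.free U.coc U.f (b ∘ U.p) U.fsm (U.smooth_b hb)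
    U.finv (fun γ hγ z => congrArg b (U.inv γ hγ z)) k hk (U.noConj hb hnc) (U.ent hb hent)
  refine ⟨⟨κ, fun x u v huv => ?_⟩, β, fun x => ?_⟩
  · obtain ⟨z, rfl⟩ := U.surj x
    rw [U.gauss_eq z huv, h1]
  · obtain ⟨z, rfl⟩ := U.surj x
    exact h2 z

end Pool.Agent.Lib.MP_21f752_an.U
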