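import Pool.Agent.Lib.MP_21f752_an.U.Lin

/-! The Liouville equation. -/

namespace Pool.Agent.Lib.MP_21f752_an.U

open Set Filter Topology Metric MeasureTheory Pool.Agent.Lib.MP_1c0d65_gt
open Complex (I)
open scoped ContDiff Laplacian UpperHalfPlane Manifold MatrixGroups

noncomputable section

theorem non_exp {a b s s' : ℝ} (h1 : a ≤ s) (h2 : s ≤ s') (h3 : s' ≤ b) :
    Real.exp (2 * a) * (2 * (s' - s)) ≤ Real.exp (2 * s') - Real.exp (2 * s) ∧
      Real.exp (2 * s') - Real.exp (2 * s) ≤ Real.exp (2 * b) * (2 * (s' - s)) := by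
  have e1 : Real.exp (2 * s') = Real.exp (2 * s) * Real.exp (2 * (s' - s)) := by
    rw [← Real.exp_add]
    ring_nf
  have e2 : Real.exp (2 * s) = Real.exp (2 * s') * Real.exp (-(2 * (s' - s))) := by
    rw [← Real.exp_add]
    ring_nf
  have a1 := mul_le_mul_of_nonneg_left (Real.add_one_le_exp (2 * (s' - s))) (Real.exp_pos (2 * s)).le
  have a2 := mul_le_mul_of_nonneg_left (Real.add_one_le_exp (-(2 * (s' - s))))
    (Real.exp_pos (2 * s')).le
  have a3 := mul_le_mul_of_nonneg_right (Real.exp_le_exp.2 (show 2 * a ≤ 2 * s by linarith))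
    (show 0 ≤ 2 * (s' - s) by linarith)
  have a4 := mul_le_mul_of_nonneg_right (Real.exp_le_exp.2 (show 2 * s' ≤ 2 * b by linarith))
    (show 0 ≤ 2 * (s' - s) by linarith)
  constructor <;> linarith

theorem non_bd {M : Type} [TopologicalSpace M] [CompactSpace M] [Nonempty M] {m : M → ℝ}
    (hm : Continuous m) (h0 : ∀ x, 0 < m x) : ∃ a b, 0 < a ∧ a ≤ b ∧ ∀ x, a ≤ m x ∧ m x ≤ b := by
  obtain ⟨p, -, hp⟩ := isCompact_univ.exists_isMaxOn univ_nonempty hm.continuousOn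
  obtain ⟨q, -, hq⟩ := isCompact_univ.exists_isMinOn univ_nonempty hm.continuousOn
  exact ⟨m q, m p, h0 q, hp (mem_univ q), fun x => ⟨hq (mem_univ x), hp (mem_univ x)⟩⟩

namespace Atl
variable {M : Type} [TopologicalSpace M] (A : Atl M)

theorem non_fix [CompactSpace M] [T2Space M] {G : M → ℝ → ℝ} {a b l μ : ℝ} (hab : a ≤ b)
    (hμ : 0 < μ) (hl : μ ≤ l)
    (hG : ∀ (k : WithTop ℕ∞) (v : M → ℝ), k ≤ ∞ → A.Sm k v → A.Sm k fun x => G x (v x))
    (ha : ∀ x, G x a ≤ -(l * a)) (hb : ∀ x, -(l * b) ≤ G x b)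
    (hm : ∀ x s s', a ≤ s → s ≤ s' → s' ≤ b → G x s' ≤ G x s ∧ G x s - G x s' ≤ (l - μ) * (s' - s)) :
    ∃ t, A.Sm ∞ t ∧ ∀ x, A.lap t x = l * t x + G x (t x) := by
  have l0 : 0 < l := hμ.trans_le hl
  have lip : ∀ x s s' D, s ∈ Icc a b → s' ∈ Icc a b → |s - s'| ≤ D →
      |G x s - G x s'| ≤ (l - μ) * D := fun x s s' D hs hs' hD => by
    have h0 := sub_nonneg.2 hl
    have h1 := abs_le.1 hD
    rcases le_total s s' with h | h
    · have := hm x s s' hs.1 h hs'.2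
      rw [abs_of_nonneg (sub_nonneg.2 this.1)]
      exact this.2.trans (mul_le_mul_of_nonneg_left (by linarith) h0)
    · have := hm x s' s hs'.1 h hs.2
      rw [abs_sub_comm, abs_of_nonneg (sub_nonneg.2 this.1)]
      exact this.2.trans (mul_le_mul_of_nonneg_left (by linarith) h0)
  let X := {t : C(M, ℝ) // A.Sm ∞ t ∧ ∀ x, t x ∈ Icc a b}
  have step : ∀ t : X, ∃ s : X, ∀ x, A.lap s.1 x - l * s.1 x = G x (t.1 x) := fun t => by
    obtain ⟨u, h1, h2⟩ := A.solve_pos l0 (hG _ _ le_rfl t.2.1)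
    have h3 : A.Sm 2 u := fun x => (h1 x).of_le two_le_infty
    exact ⟨⟨⟨u, h1.continuous⟩, h1, fun x => ⟨ge_of_lap h3 l0 (fun y => (h2 y).trans_le
      ((hm y _ _ le_rfl (t.2.2 y).1 (t.2.2 y).2).1.trans (ha y))) x, le_of_lap h3 l0
      (fun y => ((hb y).trans (hm y _ _ (t.2.2 y).1 (t.2.2 y).2 le_rfl).1).trans_eq (h2 y).symm) x⟩⟩,
      h2⟩
  choose S hS using step
  have q0 : 0 ≤ (l - μ) / l := div_nonneg (sub_nonneg.2 hl) l0.le
  have con : ∀ s t : X, dist (S s).1 (S t).1 ≤ (l - μ) / l * dist s.1 t.1 := fun s t => by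
    have h1 := fun x => ((S s).2.1 x).of_le two_le_infty
    have h2 := fun x => ((S t).2.1 x).of_le two_le_infty
    have h3 : ∀ x, |A.lap (fun y => (S s).1 y - (S t).1 y) x - l * ((S s).1 x - (S t).1 x)| ≤
        l * ((l - μ) / l * dist s.1 t.1) := fun x => by
      rw [lap_sub (h1 x) (h2 x), ← mul_assoc, mul_div_cancel₀ _ l0.ne']
      refine le_of_eq_of_le (congrArg _ ?_)
        (lip x _ _ _ (s.2.2 x) (t.2.2 x) (ContinuousMap.dist_apply_le_dist (f := s.1) (g := t.1) x))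
      linarith [hS s x, hS t x]
    refine (ContinuousMap.dist_le (mul_nonneg q0 dist_nonneg)).2 fun x => abs_le.2 ⟨?_, ?_⟩
    · exact ge_of_lap (fun x => (h1 x).sub (h2 x)) l0
        (fun y => by linarith [(abs_le.1 (h3 y)).2]) x
    · exact le_of_lap (fun x => (h1 x).sub (h2 x)) l0 (fun y => (abs_le.1 (h3 y)).1) x
  let t : ℕ → X := fun n => S^[n] ⟨.const M a, fun x => smAt_const a, fun _ => ⟨le_rfl, hab⟩⟩
  have ht : ∀ n, t (n + 1) = S (t n) := fun n => Function.iterate_succ_apply' _ _ _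
  have geo : ∀ n, dist (t n).1 (t (n + 1)).1 ≤ dist (t 0).1 (t 1).1 * ((l - μ) / l) ^ n := by
    intro n
    induction n with
    | zero => simp
    | succ n ih =>
      rw [ht (n + 1)]
      conv_lhs => rw [ht n, ← ht n]
      calc _ ≤ (l - μ) / l * dist (t n).1 (t (n + 1)).1 := by rw [ht n]; exact con _ _
        _ ≤ _ := mul_le_mul_of_nonneg_left ih q0
        _ = _ := by ring
  obtain ⟨u, hu⟩ := cauchySeq_tendsto_of_complete (cauchySeq_of_le_geometric _ _
    ((div_lt_one l0).2 (sub_lt_self l hμ)) geo)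
  have um : ∀ x, u x ∈ Icc a b := fun x => isClosed_Icc.mem_of_tendsto
    (((continuous_eval_const x).tendsto u).comp hu) (.of_forall fun n => (t n).2.2 x)
  refine ⟨u, Wk.boot (fun v x => l * v x + G x (v x)) (fun k v hv x => ((smAt_const l).mul
    (hv x)).add (hG _ v (by exact_mod_cast le_top) hv x)) fun ε hε => ?_⟩
  have d0 : 0 < ε / (2 * l + 1) := by positivity
  have d1 : ε / (2 * l + 1) * (2 * l + 1) = ε := div_mul_cancel₀ _ (by positivity)
  obtain ⟨n, hn⟩ := Metric.tendsto_atTop.1 hu _ d0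
  refine ⟨(t (n + 1)).1, (t _).2.1, fun x => ?_⟩
  have h1 : |(t n).1 x - u x| ≤ _ := (ContinuousMap.dist_apply_le_dist x).trans (hn n le_rfl).le
  have h2 : |(t (n + 1)).1 x - u x| ≤ _ :=
    (ContinuousMap.dist_apply_le_dist x).trans (hn _ n.le_succ).le
  have h3 := abs_le.1 (lip x _ _ _ ((t n).2.2 x) (um x) h1)
  have h4 := hS (t n) x
  rw [← ht] at h4
  refine ⟨h2.trans (by nlinarith), ?_⟩
  have h5 := abs_le.1 h2
  have h6 := mul_le_mul_of_nonneg_left h5.1 l0.le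
  have h7 := mul_le_mul_of_nonneg_left h5.2 l0.le
  have h8 := mul_pos hμ d0
  exact abs_le.2 ⟨by linarith [h3.1], by linarith [h3.2]⟩

theorem solve_exp [CompactSpace M] [T2Space M] {m k : M → ℝ} (hm : A.Sm ∞ m) (hk : A.Sm ∞ k)
    (hm0 : ∀ x, 0 < m x) (hk0 : ∀ x, 0 < k x) :
    ∃ t, A.Sm ∞ t ∧ ∀ x, A.lap t x = m x * Real.exp (2 * t x) - k x := by
  rcases isEmpty_or_nonempty M with h | h
  · exact ⟨0, fun x => h.elim x, fun x => h.elim x⟩
  obtain ⟨m1, m2, p1, p2, hp⟩ := non_bd hm.continuous hm0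
  obtain ⟨k1, k2, q1, q2, hq⟩ := non_bd hk.continuous hk0
  have p3 := p1.trans_le p2
  have q3 := q1.trans_le q2
  obtain ⟨a, ha⟩ : ∃ a, Real.exp (2 * a) = k1 / m2 :=
    ⟨Real.log (k1 / m2) / 2, by rw [mul_div_cancel₀ _ two_ne_zero, Real.exp_log (by positivity)]⟩
  obtain ⟨b, hb⟩ : ∃ b, Real.exp (2 * b) = k2 / m1 :=
    ⟨Real.log (k2 / m1) / 2, by rw [mul_div_cancel₀ _ two_ne_zero, Real.exp_log (by positivity)]⟩
  have e : Real.exp (2 * a) ≤ Real.exp (2 * b) := by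
    rw [ha, hb]
    gcongr
  obtain ⟨t, h1, h2⟩ := A.non_fix (a := a) (b := b) (l := 2 * m2 * Real.exp (2 * b))
    (μ := 2 * m1 * Real.exp (2 * a))
    (G := fun x s => m x * Real.exp (2 * s) - k x - 2 * m2 * Real.exp (2 * b) * s)
    (by linarith [Real.exp_le_exp.1 e]) (by positivity) (by gcongr)
    (fun n v hn hv x => ((((hm x).of_le hn).mul (((smAt_const 2).mul (hv x)).comp
      Real.contDiff_exp.contDiffAt)).sub ((hk x).of_le hn)).sub ((smAt_const _).mul (hv x)))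
    (fun x => by
      have : m x * Real.exp (2 * a) ≤ m2 * (k1 / m2) := ha ▸ by gcongr; exact (hp x).2
      rw [mul_div_cancel₀ _ p3.ne'] at this
      linarith [(hq x).1])
    (fun x => by
      have : m1 * (k2 / m1) ≤ m x * Real.exp (2 * b) := hb ▸ by gcongr; exact (hp x).1
      rw [mul_div_cancel₀ _ p1.ne'] at this
      linarith [(hq x).2])
    (fun x s s' a1 a2 a3 => by
      obtain ⟨b1, b2⟩ := non_exp a1 a2 a3
      have d : 0 ≤ 2 * (s' - s) := by linarith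
      have c1 := mul_le_mul (hp x).1 b1 (by positivity) (hm0 x).le
      have c2 := mul_le_mul (hp x).2 b2 (le_trans (by positivity) b1) p3.le
      constructor <;> linarith)
  exact ⟨t, h1, fun x => by rw [h2]; ring⟩

theorem exists_hyp [CompactSpace M] [T2Space M] {w : M → ℝ} {c : ℝ} (hw : A.Sm ∞ w) (hc : c < 0)
    (h : ∀ x, A.lap w x = A.K x - c) : ∃ (u : M → ℝ) (hu : A.Sm ∞ u),
      ∀ x, (A.conf u hu).K x = -1 := by
  obtain ⟨t, h1, h2⟩ := A.solve_exp (m := fun x => Real.exp (2 * w x)) (k := fun _ => -c)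
    (fun x => ((smAt_const 2).mul (hw x)).comp Real.contDiff_exp.contDiffAt)
    (fun x => smAt_const _) (fun x => Real.exp_pos _) fun _ => neg_pos.2 hc
  have hu : A.Sm ∞ fun x => w x + t x := fun x => (hw x).add (h1 x)
  refine ⟨_, hu, fun x => ?_⟩
  rw [K_conf, lap_add ((hw x).of_le two_le_infty) ((h1 x).of_le two_le_infty), h, h2,
    ← Real.exp_add]
  have : Real.exp (-2 * (w x + t x)) * Real.exp (2 * w x + 2 * t x) = 1 := by
    rw [← Real.exp_add, ← Real.exp_zero]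
    ring_nf
  linear_combination -this

end Atl

end

end Pool.Agent.Lib.MP_21f752_an.U
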