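import Pool.Agent.Lib.MP_21f752_an.U.Flat

/-! The flat parametrix, bounds. -/

namespace Pool.Agent.Lib.MP_21f752_an.U

open Set Filter Topology Metric MeasureTheory Pool.Agent.Lib.MP_1c0d65_gt
open Complex (I)
open scoped ContDiff Laplacian UpperHalfPlane Manifold MatrixGroups

noncomputable section

theorem pa_et : ∃ L : ℝ, 0 ≤ L ∧ ∀ x y : ℂ, |et x - et y| ≤ L * √‖x - y‖ := by
  obtain ⟨K, hK⟩ := ContDiff.lipschitzWith_of_hasCompactSupport et.hasCompactSupport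
    (et.contDiff (n := 1)) one_ne_zero
  refine ⟨√K, Real.sqrt_nonneg _, A.hol_of_lip K.2 (fun _ => et.nonneg) (fun _ => et.le_one)
    fun x y => ?_⟩
  simpa [Real.dist_eq, dist_eq_norm] using hK.dist_le_mul x y

theorem pa_bs {f : ℂ → ℝ} {B : ℝ} (hf : Continuous f) (hB : ∀ z, |f z| ≤ B)
    (h0 : ∀ z, 2 ≤ ‖z‖ → f z = 0) : A.BS B 0 2 fun s => (f s : ℂ) :=
  ⟨(Complex.continuous_ofReal.comp hf).aestronglyMeasurable,
    fun s => by simpa using hB s,
    fun s hs => by rw [h0 s (by simpa using hs), Complex.ofReal_zero]⟩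

/-- the conjugate of the inner transform is bounded, Hoelder and supported in a disc -/
theorem pa_pG : ∃ H : ℝ, 0 ≤ H ∧ ∀ (f : ℂ → ℝ) (B : ℝ), Continuous f → (∀ z, |f z| ≤ B) →
    (∀ z, 2 ≤ ‖z‖ → f z = 0) → A.BS (6 * B) 0 3 (fun s => starRingEnd ℂ (pG f s)) ∧
      ∀ z w, ‖starRingEnd ℂ (pG f z) - starRingEnd ℂ (pG f w)‖ ≤ H * B * √‖z - w‖ := by
  obtain ⟨L, L0, hL⟩ := pa_et
  refine ⟨20 * √2 + L * 6, by positivity, fun f B hf hB h0 => ?_⟩
  have B0 : 0 ≤ B := (abs_nonneg _).trans (hB 0)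
  have b := pa_bs hf hB h0
  have h1 : ∀ s, ‖A.T (fun s => (f s : ℂ)) s‖ ≤ 6 * B := fun s => by
    linarith [b.T_le two_pos s]
  have h2 : ∀ z w, ‖starRingEnd ℂ (pG f z) - starRingEnd ℂ (pG f w)‖ ≤
      (20 * √2 + L * 6) * B * √‖z - w‖ := fun z w => by
    rw [← map_sub, Complex.norm_conj]
    have := A.hol_cut (U := univ) (χ := et) (f := A.T fun s => (f s : ℂ)) (M := 6 * B)
      (H := 20 * √2 * B) (by positivity) (by positivity) L0 (fun _ => et.nonneg)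
      (fun _ => et.le_one) hL (fun x hx => (hx trivial).elim) (fun s _ => h1 s)
      (fun s _ s' _ => b.T_hol two_pos s s') z w
    calc _ ≤ _ := this
      _ = _ := by ring
  refine ⟨⟨(A.continuous_of_hol h2).aestronglyMeasurable, fun s => ?_, fun s hs => ?_⟩, h2⟩
  · rw [Complex.norm_conj, pG, norm_smul, Real.norm_of_nonneg et.nonneg]
    nlinarith [h1 s, et.nonneg (x := s), et.le_one (x := s),
      norm_nonneg (A.T (fun s => (f s : ℂ)) s)]
  · have : et s = 0 := et.zero_of_le_dist (not_lt.1 hs)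
    rw [pG, this, zero_smul, map_zero]

/-- sup and Hoelder bounds for the parametrix -/
theorem par_bd : ∃ C : ℝ, 0 ≤ C ∧ ∀ (f : ℂ → ℝ) (B : ℝ), Continuous f → (∀ z, |f z| ≤ B) →
    (∀ z, 2 ≤ ‖z‖ → f z = 0) → ∀ z w,
      (‖pY f z‖ ≤ C * B ∧ ‖pY f z - pY f w‖ ≤ C * B * √‖z - w‖) ∧
      ‖pZ f z‖ ≤ C * B ∧ ‖pZ f z - pZ f w‖ ≤ C * B * √‖z - w‖ := by
  obtain ⟨H, H0, hH⟩ := pa_pG
  have s3 := Real.sqrt_nonneg 3
  refine ⟨60 + 30 * √3 + 101 * H, by positivity, fun f B hf hB h0 z w => ?_⟩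
  have B0 : 0 ≤ B := (abs_nonneg _).trans (hB 0)
  obtain ⟨b, h⟩ := hH f B hf hB h0
  have p := Real.sqrt_nonneg ‖z - w‖
  have q1 : 0 ≤ √3 * B := by positivity
  have q2 : 0 ≤ H * B := by positivity
  have q3 : 0 ≤ B * √‖z - w‖ := by positivity
  have q4 : 0 ≤ √3 * (B * √‖z - w‖) := by positivity
  have q5 : 0 ≤ H * (B * √‖z - w‖) := by positivity
  refine ⟨⟨?_, ?_⟩, ?_, ?_⟩
  · rw [pY, norm_div, Complex.norm_ofNat]
    linarith [b.T_le three_pos z]
  · rw [pY, pY, ← sub_div, norm_div, Complex.norm_ofNat]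
    linarith [b.T_hol three_pos z w]
  · have h1 := b.S_le (h · z) one_pos
    have h2 := b.bd z
    rw [Complex.norm_conj] at h2
    rw [Real.sqrt_one] at h1
    rw [pZ]
    linarith [norm_add_le_of_le h1 h2]
  · have h1 := b.S_hol h z w
    have h2 := h z w
    rw [← map_sub, Complex.norm_conj] at h2
    rw [pZ, pZ, add_sub_add_comm]
    linarith [norm_add_le_of_le h1 h2]

theorem pa_ex {f : ℂ → ℝ} (hf : Continuous f) (h0 : ∀ z, 2 ≤ ‖z‖ → f z = 0) :
    ∃ B, ∀ z, |f z| ≤ B := by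
  obtain ⟨B, b⟩ := A.bs_of_compact (c := 0) (R := 2) hf fun s hs => h0 s (by simpa using hs)
  exact ⟨B, b.bd⟩

theorem par_lin {f g : ℂ → ℝ} (hf : Continuous f) (hg : Continuous g)
    (hf0 : ∀ z, 2 ≤ ‖z‖ → f z = 0) (hg0 : ∀ z, 2 ≤ ‖z‖ → g z = 0) (a : ℝ) (z : ℂ) :
    pY (fun s => a * f s + g s) z = a * pY f z + pY g z ∧
      pZ (fun s => a * f s + g s) z = a * pZ f z + pZ g z := by
  obtain ⟨H, -, hH⟩ := pa_pG
  obtain ⟨B, hB⟩ := pa_ex hf hf0
  obtain ⟨B', hB'⟩ := pa_ex hg hg0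
  obtain ⟨b, h⟩ := hH f B hf hB hf0
  obtain ⟨b', h'⟩ := hH g B' hg hB' hg0
  have e : ∀ s, pG (fun s => a * f s + g s) s = a * pG f s + pG g s := fun s => by
    have e1 : (fun s => ((a * f s + g s : ℝ) : ℂ)) =
        fun s => (a : ℂ) • (f s : ℂ) + (g s : ℂ) := by
      funext s; simp
    have i1 : Integrable fun t => (s - t)⁻¹ • ((a : ℂ) • (f t : ℂ)) := by
      simp only [smul_comm _ (a : ℂ)]
      exact ((pa_bs hf hB hf0).T_int s).smul (a : ℂ)
    rw [pG, pG, pG, e1, A.T_add i1 ((pa_bs hg hB' hg0).T_int s), A.T_smul]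
    simp only [Complex.real_smul, smul_eq_mul]
    ring
  have e2 : (fun s => starRingEnd ℂ (pG (fun s => a * f s + g s) s)) =
      fun s => (a : ℂ) • starRingEnd ℂ (pG f s) + starRingEnd ℂ (pG g s) := by
    funext s; simp [e]
  constructor
  · have i1 : Integrable fun t => (z - t)⁻¹ • ((a : ℂ) • starRingEnd ℂ (pG f t)) := by
      simp only [smul_comm _ (a : ℂ)]
      exact (b.T_int z).smul (a : ℂ)
    rw [pY, pY, pY, e2, A.T_add i1 (b'.T_int z), A.T_smul, smul_eq_mul]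
    ring
  · have i1 : Integrable fun t : ℂ => (t ^ 2)⁻¹ • ((a : ℂ) • starRingEnd ℂ (pG f (z + t)) -
        (a : ℂ) • starRingEnd ℂ (pG f (z + I * t))) := by
      simp only [← smul_sub, smul_comm _ (a : ℂ)]
      exact (b.S_int (h · z)).smul (a : ℂ)
    have h3 := A.S_add (f := fun s => (a : ℂ) • starRingEnd ℂ (pG f s))
      (g := fun s => starRingEnd ℂ (pG g s)) (z := z) i1 (b'.S_int (h' · z))
    rw [A.S_smul, smul_eq_mul] at h3
    rw [pZ, pZ, pZ, e2, e, h3]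
    ring

end

end Pool.Agent.Lib.MP_21f752_an.U
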