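import Pool.Agent.Lib.MP_21f752_an.U.Flat
import Pool.Agent.Lib.MP_21f752_an.U.LapA

/-! The flat parametrix, identities. -/

namespace Pool.Agent.Lib.MP_21f752_an.U

open Set Filter Topology Metric MeasureTheory Pool.Agent.Lib.MP_1c0d65_gt
open Complex (I)
open scoped ContDiff Laplacian UpperHalfPlane Manifold MatrixGroups

noncomputable section

theorem parb_cs {F : ℂ → ℂ} (h0 : ∀ s, s ∉ ball (0 : ℂ) 3 → F s = 0) : HasCompactSupport F :=
  HasCompactSupport.intro (isCompact_closedBall 0 3)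
    fun s hs => h0 s fun hb => hs (ball_subset_closedBall hb)

theorem parb_f0 {f : ℂ → ℝ} (hf0 : ∀ z, 2 ≤ ‖z‖ → f z = 0) (s : ℂ) (hs : s ∉ ball (0 : ℂ) 3) :
    (f s : ℂ) = 0 := by
  rw [mem_ball_zero_iff, not_lt] at hs
  rw [hf0 s (by linarith), Complex.ofReal_zero]

theorem parb_g0 (f : ℂ → ℝ) (s : ℂ) (hs : s ∉ ball (0 : ℂ) 3) :
    starRingEnd ℂ (pG f s) = 0 := by
  rw [mem_ball_zero_iff, not_lt] at hs
  rw [pG, et_zero hs, zero_smul, map_zero]

theorem parb_fd {h : ℂ → ℂ} (hh : ContDiff ℝ 1 h) (h0 : ∀ s, s ∉ ball (0 : ℂ) 3 → h s = 0)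
    (z : ℂ) : HasFDerivAt (A.T h) (A.lin (A.S h z) (h z)) z := by
  obtain ⟨M, hM⟩ := A.bs_of_compact hh.continuous h0
  obtain ⟨L, hL⟩ := hh.lipschitzWith_of_hasCompactSupport (parb_cs h0) one_ne_zero
  refine hM.T_hasFDerivAt (A.hol_at one_pos L.2 hM.bd fun s hs => ?_)
  refine (hL.norm_sub_le s z).trans (mul_le_mul_of_nonneg_left ?_ L.2)
  rw [mem_ball, dist_eq_norm] at hs
  exact Real.le_sqrt_of_sq_le (by nlinarith [norm_nonneg (s - z)])

theorem parb_swap {F h : ℂ → ℂ} (hF : Continuous F) (hh : Continuous h)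
    (F0 : ∀ s, s ∉ ball (0 : ℂ) 3 → F s = 0) (h0 : ∀ s, s ∉ ball (0 : ℂ) 3 → h s = 0) :
    ∫ z, F z * A.T h z = -∫ s, A.T F s * h s := by
  obtain ⟨M, hM⟩ := A.bs_of_compact hF F0
  obtain ⟨N, hN⟩ := A.bs_of_compact hh h0
  have hk : Integrable ((ball (0 : ℂ) 6).indicator fun t : ℂ => t⁻¹) :=
    (integrable_indicator_iff measurableSet_ball).2
      ((D.Lin.ker_li.integrableOn_isCompact (isCompact_closedBall 0 6)).mono_set
        ball_subset_closedBall)
  have i1 := (hN.integrable.convolution_integrand (ContinuousLinearMap.mul ℝ ℂ) hk).bdd_mul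
    (f := fun p : ℂ × ℂ => F p.1) (c := M) (hF.comp continuous_fst).aestronglyMeasurable
    (ae_of_all _ fun p => hM.bd p.1)
  have i2 : Integrable (Function.uncurry fun z s : ℂ => F z * ((z - s)⁻¹ * h s))
      (volume.prod volume) := by
    refine i1.congr (ae_of_all _ fun p => ?_)
    simp only [Function.uncurry, ContinuousLinearMap.mul_apply']
    by_cases h1 : p.1 ∈ ball (0 : ℂ) 3
    · by_cases h2 : p.2 ∈ ball (0 : ℂ) 3
      · rw [indicator_of_mem, mul_comm (h _)]
        rw [mem_ball_zero_iff] at h1 h2 ⊢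
        linarith [norm_sub_le p.1 p.2]
      · simp [h0 _ h2]
    · simp [F0 _ h1]
  have e1 : ∀ z, F z * A.T h z = (Real.pi : ℂ)⁻¹ * ∫ s, F z * ((z - s)⁻¹ * h s) := fun z => by
    rw [integral_const_mul, A.T]
    simp only [smul_eq_mul]
    ring
  have e2 : ∀ s, A.T F s * h s = -((Real.pi : ℂ)⁻¹ * ∫ z, F z * ((z - s)⁻¹ * h s)) := fun s => by
    rw [A.T, smul_eq_mul, mul_assoc, ← integral_mul_const, ← mul_neg, ← integral_neg]
    congr 2
    funext z
    rw [← neg_sub z s, inv_neg, smul_eq_mul]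
    ring
  simp only [e1, e2, integral_neg, integral_const_mul (Real.pi : ℂ)⁻¹, neg_neg]
  rw [integral_integral_swap i2]

/-- hint: `w = re (pY f)` has `fderiv w z ξ = re (ξ * pZ f z) / 4` (`BS.T_hasFDerivAt`) and
`Δ w = re (db (pG f)) = f` on `ball 0 2` (`D.Lin.db_T`, `T_fderiv`, `lap_mul`) -/
theorem par_sm {f : ℂ → ℝ} (hf : ContDiff ℝ ∞ f) (hf0 : ∀ z, 2 ≤ ‖z‖ → f z = 0) :
    ContDiff ℝ ∞ (fun z => (pY f z).re) ∧ ∀ z, Δ (fun w => be w * (pY f w).re) z =
      be z * f z + (dbar be z * pZ f z).re + Δ (be : ℂ → ℝ) z * (pY f z).re := by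
  have hF : ContDiff ℝ ∞ fun s => (f s : ℂ) := Complex.ofRealCLM.contDiff.comp hf
  have hT := D.Lin.T_contDiff hF (parb_cs (parb_f0 hf0))
  have hh : ContDiff ℝ ∞ fun s => starRingEnd ℂ (pG f s) :=
    Complex.conjCLE.contDiff.comp ((et.contDiff (n := ⊤)).smul hT)
  have hY : ContDiff ℝ ∞ (pY f) := (D.Lin.T_contDiff hh (parb_cs (parb_g0 f))).div_const _
  have hw : ContDiff ℝ ∞ fun z => (pY f z).re := Complex.reCLM.contDiff.comp hY
  have hv : ContDiff ℝ ∞ fun z => (pY f z).im := Complex.imCLM.contDiff.comp hY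
  have hd : ∀ z, HasFDerivAt (pY f) _ z := fun z =>
    (parb_fd (hh.of_le (by simp)) (parb_g0 f) z).mul_const (4 : ℂ)⁻¹
  have gw : ∀ z, grd (fun z => (pY f z).re) z = pZ f z / 4 := fun z => grd_ext fun ξ => by
    have h1 : HasFDerivAt (fun z => (pY f z).re) _ z := Complex.reCLM.hasFDerivAt.comp z (hd z)
    rw [h1.fderiv]
    simp [A.lin_app, pZ]
    ring
  have gv : ∀ z, grd (fun z => (pY f z).im) z = -I * (pZ f z - 2 * pG f z) / 4 :=
    fun z => grd_ext fun ξ => by
      have h1 : HasFDerivAt (fun z => (pY f z).im) _ z := Complex.imCLM.hasFDerivAt.comp z (hd z)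
      rw [h1.fderiv]
      simp [A.lin_app, pZ]
      ring
  have eg : pG f = fun z => 2 * (grd (fun z => (pY f z).re) z -
      I * grd (fun z => (pY f z).im) z) := funext fun z => by
    rw [gw, gv]
    linear_combination (-(pZ f z - 2 * pG f z) / 2) * Complex.I_mul_I
  refine ⟨hw, fun z => ?_⟩
  have w2 := (hw.of_le two_le_infty).contDiffAt (x := z)
  have v2 := (hv.of_le two_le_infty).contDiffAt (x := z)
  have key : be z * Δ (fun z => (pY f z).re) z = be z * f z := by
    by_cases hz : ‖z‖ < 2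
    · have d1 := ((grd_contDiffAt (k := 1) w2 le_rfl).differentiableAt one_ne_zero).hasFDerivAt
      have d2 := ((grd_contDiffAt (k := 1) v2 le_rfl).differentiableAt one_ne_zero).hasFDerivAt
      have d3 : HasFDerivAt (pG f) _ z := eg ▸ (d1.sub (d2.const_mul I)).const_mul 2
      have e1 : A.db (fderiv ℝ (pG f) z) = 2 * (A.db (fderiv ℝ (grd fun z => (pY f z).re) z) -
          I * A.db (fderiv ℝ (grd fun z => (pY f z).im) z)) := by
        rw [d3.fderiv]
        simp [A.db]
        ring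
      have e2 : pG f =ᶠ[𝓝 z] A.T fun s => (f s : ℂ) := by
        filter_upwards [isOpen_ball.mem_nhds (mem_ball_zero_iff.2 hz)] with y hy
        rw [pG, et_one (mem_ball_zero_iff.1 hy).le, one_smul]
      rw [db_grd w2, db_grd v2, e2.fderiv_eq,
        D.Lin.db_T (hF.of_le (by simp)) (parb_cs (parb_f0 hf0))] at e1
      have e3 := congrArg Complex.re e1
      simp at e3
      rw [e3]
      ring
    · rw [be_zero (not_lt.1 hz), zero_mul, zero_mul]
  rw [lap_mul ((be.contDiff (n := ⊤)).of_le two_le_infty).contDiffAt w2, key,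
    fderiv_grd (fun z => (pY f z).re), fderiv_grd (fun z => (pY f z).re), gw]
  simp [dbar]
  ring

/-- hint: Fubini gives `∫ f * T h = - ∫ T f * h`, so the integral is `-(1/4) ∫ et ‖T f‖²`; if it
vanishes, `T f = 0` on `ball 0 3` and `∫ f φ = ∫ f * T (db φ) = 0` (`A.cp`,
`IsOpen.ae_eq_zero_of_integral_contDiff_smul_eq_zero`) -/
theorem par_neg {f : ℂ → ℝ} (hf : Continuous f) (hf0 : ∀ z, 2 ≤ ‖z‖ → f z = 0) :
    ∫ z, f z * (pY f z).re ≤ 0 ∧ (∫ z, f z * (pY f z).re = 0 → ∀ z, f z = 0) := by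
  have hF : Continuous fun s => (f s : ℂ) := Complex.continuous_ofReal.comp hf
  obtain ⟨M, hM⟩ := A.bs_of_compact hF (parb_f0 hf0)
  have hT := hM.T_cont (by norm_num)
  have hh : Continuous fun s => starRingEnd ℂ (pG f s) :=
    Complex.continuous_conj.comp (et.continuous.smul hT)
  obtain ⟨N, hN⟩ := A.bs_of_compact hh (parb_g0 f)
  have i1 : Integrable fun z => (f z : ℂ) * A.T (fun s => starRingEnd ℂ (pG f s)) z :=
    (hF.mul (hN.T_cont (by norm_num))).integrable_of_hasCompactSupport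
      (parb_cs (parb_f0 hf0)).mul_right
  have e1 : ∀ s, A.T (fun s => (f s : ℂ)) s * starRingEnd ℂ (pG f s) =
      (et s * ‖A.T (fun s => (f s : ℂ)) s‖ ^ 2 : ℝ) := fun s => by
    rw [pG, Complex.real_smul, map_mul, Complex.conj_ofReal, mul_left_comm, Complex.mul_conj,
      Complex.normSq_eq_norm_sq, Complex.ofReal_mul]
  have e2 : ∫ z, f z * (pY f z).re = -(∫ s, et s * ‖A.T (fun s => (f s : ℂ)) s‖ ^ 2) / 4 := by
    have h1 := congrArg Complex.re (parb_swap hF hh (parb_f0 hf0) (parb_g0 f))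
    simp only [e1] at h1
    rw [integral_complex_ofReal, Complex.neg_re, Complex.ofReal_re] at h1
    have h2 := integral_re i1
    simp only [RCLike.re_to_complex] at h2
    rw [← h2] at h1
    rw [eq_div_iff four_ne_zero, ← integral_mul_const]
    refine Eq.trans (integral_congr_ae (ae_of_all _ fun z => ?_)) h1
    simp [pY]
    ring
  have hn : 0 ≤ fun s => et s * ‖A.T (fun s => (f s : ℂ)) s‖ ^ 2 := fun s =>
    mul_nonneg et.nonneg (sq_nonneg _)
  have hc : Continuous fun s => et s * ‖A.T (fun s => (f s : ℂ)) s‖ ^ 2 :=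
    et.continuous.mul (hT.norm.pow 2)
  refine ⟨by rw [e2]; linarith [integral_nonneg (μ := volume) hn], fun h0 => ?_⟩
  have h1 : ∫ s, et s * ‖A.T (fun s => (f s : ℂ)) s‖ ^ 2 = 0 := by linarith
  rw [integral_eq_zero_iff_of_nonneg hn
    (hc.integrable_of_hasCompactSupport et.hasCompactSupport.mul_right),
    Continuous.ae_eq_iff_eq volume hc continuous_zero] at h1
  have h2 : ∀ s ∈ ball (0 : ℂ) 2, A.T (fun s => (f s : ℂ)) s = 0 := fun s hs => by
    simpa [et_one (mem_ball_zero_iff.1 hs).le] using congrFun h1 s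
  have h3 := isOpen_ball.ae_eq_zero_of_integral_contDiff_smul_eq_zero (μ := volume)
    (U := ball (0 : ℂ) 2) (hF.locallyIntegrable.locallyIntegrableOn _) fun φ hφ hs hU => by
      have hΦ : ContDiff ℝ 1 fun s => (φ s : ℂ) :=
        Complex.ofRealCLM.contDiff.comp (hφ.of_le (by simp))
      have hz : ∀ s, s ∉ ball (0 : ℂ) 2 → A.db (fderiv ℝ (fun s => (φ s : ℂ)) s) = 0 :=
        fun s hs => by
          have : (fun s => (φ s : ℂ)) =ᶠ[𝓝 s] fun _ => 0 := by
            filter_upwards [notMem_tsupport_iff_eventuallyEq.1 fun h => hs (hU h)] with y hy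
            simp [hy]
          rw [this.fderiv_eq]
          simp
      have h4 := parb_swap hF (A.continuous_db.comp (hΦ.continuous_fderiv one_ne_zero))
        (parb_f0 hf0) fun s hs => hz s fun h => hs (ball_subset_ball (by norm_num) h)
      have h5 : ∀ s, A.T (fun s => (f s : ℂ)) s * A.db (fderiv ℝ (fun s => (φ s : ℂ)) s) = 0 :=
        fun s => by
          by_cases h : s ∈ ball (0 : ℂ) 2
          · rw [h2 s h, zero_mul]
          · rw [hz s h, mul_zero]
      simp only [Function.comp_def, h5, integral_zero, neg_zero,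
        A.cp hΦ (hs.comp_left (g := fun x : ℝ => (x : ℂ)) Complex.ofReal_zero)] at h4
      simpa only [Complex.real_smul, mul_comm] using h4
  have h4 : f =ᵐ[volume] 0 := h3.mono fun s hs => by
    by_cases h : s ∈ ball (0 : ℂ) 2
    · exact Complex.ofReal_eq_zero.1 (hs h)
    · exact hf0 s (not_lt.1 fun h' => h (mem_ball_zero_iff.2 h'))
  exact congrFun ((Continuous.ae_eq_iff_eq volume hf continuous_zero).1 h4)

end

end Pool.Agent.Lib.MP_21f752_an.U
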