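import Pool.Agent.Lib.MP_21f752_an.U.ParA
import Pool.Agent.Lib.MP_21f752_an.U.ParB
import Pool.Agent.Lib.MP_21f752_an.U.Cpt
import Pool.Agent.Lib.MP_21f752_an.U.Int
import Pool.Agent.Lib.MP_21f752_an.U.LapA

/-! The global parametrix. -/

namespace Pool.Agent.Lib.MP_21f752_an.U

open Set Filter Topology Metric MeasureTheory Pool.Agent.Lib.MP_1c0d65_gt
open Complex (I)
open scoped ContDiff Laplacian UpperHalfPlane Manifold MatrixGroups

noncomputable section

theorem parm_ev {z : ℂ} (hz : 3 < ‖z‖) : (be : ℂ → ℝ) =ᶠ[𝓝 z] fun _ => 0 := by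
  filter_upwards [continuous_norm.continuousAt.eventually (lt_mem_nhds hz)] with w hw
  exact be_zero (by linarith)

theorem parm_dbar : Continuous (dbar be) := by
  have := (be.contDiff (n := 1)).continuous_fderiv one_ne_zero
  unfold dbar
  fun_prop

theorem parm_lap : Continuous (Δ (be : ℂ → ℝ)) :=
  continuous_iff_continuousAt.2 fun _ => (lap_contDiffAt be.contDiff.contDiffAt).continuousAt

namespace Atl
variable {M : Type} [TopologicalSpace M] (A : Atl M)

theorem parm_cont (i : A.ι) (f : C(M, ℝ)) : Continuous (A.den i f) :=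
  (den_contDiff i (sm_zero f.continuous) (by simp)).continuous

theorem parm_op [CompactSpace M] [T2Space M] (i : A.ι) {c : ℂ → ℂ}
    (hc : ContinuousOn c (ball 0 4)) (h0 : ∀ z, 3 < ‖z‖ → c z = 0) :
    (∃ Q : C(M, ℝ) →L[ℝ] C(M, ℝ), IsCompactOperator Q ∧
      ∀ f x, Q f x = A.ext i (fun z => (c z * pY (A.den i f) z).re) x) ∧
    ∃ Q : C(M, ℝ) →L[ℝ] C(M, ℝ), IsCompactOperator Q ∧
      ∀ f x, Q f x = A.ext i (fun z => (c z * pZ (A.den i f) z).re) x := by
  obtain ⟨C, -, hC⟩ := par_bd
  obtain ⟨D, -, hD⟩ := A.den_bd i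
  have lin := fun (a : ℝ) (f g : C(M, ℝ)) => par_lin (A.parm_cont i f) (A.parm_cont i g)
    (fun _ => den_zero i f) (fun _ => den_zero i g) a
  have e : ∀ (a : ℝ) (f g : C(M, ℝ)), A.den i (a • f + g : C(M, ℝ)) =
      fun s => a * A.den i f s + A.den i g s := fun a f g => funext fun s => by
    simp only [den, ContinuousMap.add_apply, ContinuousMap.smul_apply, smul_eq_mul]
    ring
  have bd := fun f : C(M, ℝ) => hC _ _ (A.parm_cont i f) (hD f ‖f‖ f.norm_coe_le_norm)
    fun _ => den_zero i f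
  simp only [← mul_assoc] at bd
  exact ⟨A.exists_op i hc h0 (fun f => pY (A.den i f)) (fun a f g z => e a f g ▸ (lin a f g z).1)
      fun f z w => (bd f z w).1,
    A.exists_op i hc h0 (fun f => pZ (A.den i f)) (fun a f g z => e a f g ▸ (lin a f g z).2)
      fun f z w => (bd f z w).2⟩

theorem parm_sum {X : Type} [NormedAddCommGroup X] [NormedSpace ℝ X] {κ : Type} (s : Finset κ)
    {Q : κ → X →L[ℝ] X} (h : ∀ i, IsCompactOperator (Q i)) :
    IsCompactOperator (∑ i ∈ s, Q i : X →L[ℝ] X) :=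
  (compactOperator (RingHom.id ℝ) X X).sum_mem fun i _ => h i

theorem exists_par [CompactSpace M] [T2Space M] :
    ∃ (P R : C(M, ℝ) →L[ℝ] C(M, ℝ)) (Θ : C(M, ℝ)), IsCompactOperator P ∧ IsCompactOperator R ∧
      (∀ x, 0 < Θ x) ∧ (∀ f, A.Wk (P f) fun x => Θ x * f x + R f x) ∧
      ∀ f, P f = 0 → f = 0 := by
  have ce : ∀ i, ContinuousOn (fun z => ((Real.exp (-2 * A.lam i z) : ℝ) : ℂ)) (ball 0 4) := fun i =>
    Complex.continuous_ofReal.comp_continuousOn
      (continuousOn_const.mul (A.lam_sm i).continuousOn).rexp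
  choose P hP eP using fun i => (A.parm_op i (c := fun z => (be z : ℝ))
    (Complex.continuous_ofReal.comp be.continuous).continuousOn
    fun z hz => by rw [be_zero (by linarith), Complex.ofReal_zero]).1
  choose R hR eR using fun i => (A.parm_op i
    (c := fun z => (Real.exp (-2 * A.lam i z) : ℝ) * dbar be z) ((ce i).mul parm_dbar.continuousOn)
    fun z hz => by simp [dbar, (parm_ev hz).fderiv_eq]).2
  choose S hS eS using fun i => (A.parm_op i
    (c := fun z => (Real.exp (-2 * A.lam i z) : ℝ) * (Δ (be : ℂ → ℝ) z : ℝ))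
    ((ce i).mul (Complex.continuous_ofReal.comp parm_lap).continuousOn) fun z hz => by
      simp [(InnerProductSpace.laplacian_congr_nhds (parm_ev hz)).self_of_nhds]).1
  simp only [Complex.re_ofReal_mul, mul_assoc] at eP eR eS
  let Θ : C(M, ℝ) := ⟨fun x => ∑ i, A.ext i be x * A.ext i be x,
    continuous_finsetSum _ fun i _ => (sm_be i).continuous.mul (sm_be i).continuous⟩
  have sm : ∀ f : C(M, ℝ), A.Sm ∞ f → A.Sm ∞ ((∑ i, P i) f) ∧ ∀ x, A.lap ((∑ i, P i) f) x =
      Θ x * f x + (∑ i, (R i + S i)) f x := fun f hf => by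
    have p := fun i => par_sm (den_contDiff i hf le_rfl) fun _ => den_zero i f
    have c : ∀ i, ContDiffOn ℝ ∞ (fun z => be z * (pY (A.den i f) z).re) (ball 0 4) := fun i =>
      (be.contDiff.mul (p i).1).contDiffOn
    have z0 : ∀ i z, 3 < ‖z‖ → be z * (pY (A.den i f) z).re = 0 := fun i z hz => by
      rw [be_zero (by linarith), zero_mul]
    have e : ⇑((∑ i, P i) f) = fun x => ∑ i, A.ext i (fun z => be z * (pY (A.den i f) z).re) x := by
      ext x
      simp [eP]
    rw [e]
    refine ⟨fun x => SmAt.sum fun i _ => sm_ext i (c i) (z0 i) x, fun x => ?_⟩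
    rw [lap_sum fun i _ => (sm_ext i (c i) (z0 i) x).of_le two_le_infty]
    simp only [Θ, ContinuousMap.coe_mk, sum_apply, ContinuousMap.sum_apply,
      add_apply, ContinuousMap.add_apply, Finset.sum_mul, ← Finset.sum_add_distrib, eR, eS]
    refine Finset.sum_congr rfl fun i _ => ?_
    rw [lap_ext i ((c i).of_le two_le_infty) (z0 i)]
    by_cases hx : x ∈ (A.e i).source
    · simp only [ext_mem _ hx, (p i).2, den, (A.e i).left_inv hx]
      have : Real.exp (-2 * A.lam i (A.e i x)) * Real.exp (2 * A.lam i (A.e i x)) = 1 := by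
        rw [← Real.exp_add]
        simp
      linear_combination (be (A.e i x) * be (A.e i x) * f x) * this
    · simp [ext_not _ hx]
  refine ⟨∑ i, P i, ∑ i, (R i + S i), Θ, parm_sum _ hP, parm_sum _ fun i => (hR i).add (hS i),
    fun x => Finset.sum_pos' (fun i _ => mul_self_nonneg _)
      ⟨A.idx x, Finset.mem_univ _, by rw [ext_be_idx]; norm_num⟩, fun f ε hε => ?_, fun f hf => ?_⟩
  · generalize ∑ i, P i = P' at sm ⊢
    generalize ∑ i, (R i + S i) = R' at sm ⊢
    have d0 : 0 < ε / (‖P'‖ + ‖Θ‖ + ‖R'‖ + 1) := by positivity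
    have d1 : ε / (‖P'‖ + ‖Θ‖ + ‖R'‖ + 1) * (‖P'‖ + ‖Θ‖ + ‖R'‖ + 1) = ε :=
      div_mul_cancel₀ _ (by positivity)
    obtain ⟨v, hv, hd⟩ := A.sm_dense f d0
    generalize ε / (‖P'‖ + ‖Θ‖ + ‖R'‖ + 1) = δ at d0 d1 hd
    have b : ∀ (Q : C(M, ℝ) →L[ℝ] C(M, ℝ)) x, |Q v x - Q f x| ≤ ‖Q‖ * δ := fun Q x =>
      ((Q v - Q f).norm_coe_le_norm x).trans (map_sub Q v f ▸ Q.le_opNorm_of_le hd)
    have n1 := mul_nonneg (norm_nonneg P') d0.le
    have n2 := mul_nonneg (norm_nonneg Θ) d0.le
    have n3 := mul_nonneg (norm_nonneg R') d0.le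
    refine ⟨P' v, (sm v hv).1, fun x => ⟨(b P' x).trans (by linarith), ?_⟩⟩
    have b2 : |Θ x * (v x - f x)| ≤ ‖Θ‖ * δ := by
      rw [abs_mul]
      exact mul_le_mul (Θ.norm_coe_le_norm x) (((v - f).norm_coe_le_norm x).trans hd)
        (abs_nonneg _) (norm_nonneg _)
    rw [(sm v hv).2]
    have b3 := abs_le.1 (b R' x)
    have b4 := abs_le.1 b2
    exact abs_le.2 ⟨by linarith [b3.1, b4.1], by linarith [b3.2, b4.2]⟩
  · have p := fun i => par_neg (A.parm_cont i f) fun _ => den_zero i f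
    have h1 := A.int_sum (fun i x => f x * P i f x) (fun i => f.continuous.mul (P i f).continuous)
      (fun i x h => by
        have h2 := right_ne_zero_of_mul h
        rw [eP] at h2
        have hx : x ∈ (A.e i).source := by_contra fun hx => h2 (ext_not _ hx)
        refine ⟨hx, not_lt.1 fun h3 => h2 ?_⟩
        rw [ext_mem _ hx, be_zero (by linarith), zero_mul])
      fun x => by
        have : (∑ i, P i) f x = 0 := by rw [hf, ContinuousMap.zero_apply]
        simp only [sum_apply, ContinuousMap.sum_apply] at this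
        rw [← Finset.mul_sum, this, mul_zero]
    have h2 : ∀ i, ∫ z in ball (0 : ℂ) 4, Real.exp (2 * A.lam i z) *
        (f ((A.e i).symm z) * P i f ((A.e i).symm z)) =
        ∫ z, A.den i f z * (pY (A.den i f) z).re := fun i => by
      refine (setIntegral_congr_fun measurableSet_ball fun z hz => ?_).trans
        (setIntegral_eq_integral_of_forall_compl_eq_zero (s := ball (0 : ℂ) 4) fun z hz => by
          rw [den_zero i f (by rw [mem_ball_zero_iff] at hz; linarith), zero_mul])
      simp only [eP, ext_mem _ (symm_mem i hz).1, (symm_mem i hz).2, den]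
      ring
    simp only [h2] at h1
    ext x
    have := (p (A.idx x)).2 ((Finset.sum_eq_zero_iff_of_nonpos fun i _ => (p i).1).1 h1 _
      (Finset.mem_univ _)) (A.e (A.idx x) x)
    rw [den, be_one (A.idx_mem x).2.le, one_mul, (A.e _).left_inv (A.idx_mem x).1] at this
    exact (mul_eq_zero.1 this).resolve_left (Real.exp_pos _).ne'

end Atl

end

end Pool.Agent.Lib.MP_21f752_an.U
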