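import Mathlib

/-! Magnetic systems on a smooth surface. -/

namespace Pool.Agent.Lib.MP_21f752_an.U

open scoped Manifold ContDiff

section Coord

variable {V : Type} [NormedAddCommGroup V] [NormedSpace ℝ V]

/-- Christoffel symbols of the metric with coefficients `G`: the vector `Γ(u, v)` with
`2 G(Γ(u, v), w) = ∂_u G(v, w) + ∂_v G(u, w) - ∂_w G(u, v)` for all `w` -/
noncomputable def chr (G : V → V →L[ℝ] V →L[ℝ] ℝ) (z u v : V) : V :=
  (G z).inverse ((1 / 2 : ℝ) •
    (fderiv ℝ G z u v + fderiv ℝ G z v u - ((fderiv ℝ G z).flip u).flip v))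

/-- the curvature tensor `R(u, v) w` -/
noncomputable def riem (G : V → V →L[ℝ] V →L[ℝ] ℝ) (z u v w : V) : V :=
  fderiv ℝ (fun y => chr G y v w) z u - fderiv ℝ (fun y => chr G y u w) z v +
    chr G z u (chr G z v w) - chr G z v (chr G z u w)

/-- the sectional curvature of the plane spanned by `u` and `v` -/
noncomputable def sec (G : V → V →L[ℝ] V →L[ℝ] ℝ) (z u v : V) : ℝ :=
  G z (riem G z u v v) u / (G z u u * G z v v - G z u v ^ 2)

end Coord

variable {V : Type} [NormedAddCommGroup V] [NormedSpace ℝ V]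
  {E : Type} [NormedAddCommGroup E] [NormedSpace ℝ E]
  {M : Type} [TopologicalSpace M] [ChartedSpace E M]

variable (E) in
/-- the differential of a map from a normed space to `M`; the preferred chart at `x` identifies
the tangent plane at `x` with the model plane `E` -/
noncomputable def dif (ψ : V → M) (z : V) : V →L[ℝ] E := mfderiv 𝓘(ℝ, V) 𝓘(ℝ, E) ψ z

variable (E) in
/-- the velocity of a curve -/
noncomputable def velo (c : ℝ → M) (t : ℝ) : E := dif E c t 1

variable [IsManifold 𝓘(ℝ, E) ∞ M]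

variable (E M) in
/-- smooth Riemannian metrics -/
abbrev Met := Bundle.ContMDiffRiemannianMetric 𝓘(ℝ, E) ∞ E fun x : M => TangentSpace 𝓘(ℝ, E) x

/-- the scalar product on the tangent plane at `x` -/
noncomputable def ip (g : Met E M) (x : M) : E →L[ℝ] E →L[ℝ] ℝ := g.inner x

/-- the coefficients of the pull-back of `g` by `ψ` -/
noncomputable def pull (g : Met E M) (ψ : V → M) (z : V) : V →L[ℝ] V →L[ℝ] ℝ :=
  (ip g (ψ z)).bilinearComp (dif E ψ z) (dif E ψ z)

/-- the coefficients of `g` in the preferred chart at `a` -/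
noncomputable def coef (g : Met E M) (a : M) : E → E →L[ℝ] E →L[ℝ] ℝ :=
  pull g (chartAt E a).symm

/-- Gaussian curvature at `x`, computed with the basis `u, v` of the tangent plane -/
noncomputable def gauss (g : Met E M) (x : M) (u v : E) : ℝ := sec (coef g x) (chartAt E x x) u v

/-- the point of the tangent bundle given by the vector `v` at `x` -/
def tv (x : M) (v : E) : TangentBundle 𝓘(ℝ, E) M := ⟨x, v⟩

/-- `J` is a smooth field of rotations by a right angle, that is, the rotation by `+π/2` for an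
orientation of `M` -/
def IsRot (g : Met E M) (J : M → E →L[ℝ] E) : Prop :=
  (∀ x v, J x (J x v) = -v) ∧ (∀ x v w, ip g x (J x v) (J x w) = ip g x v w) ∧
    ContMDiff 𝓘(ℝ, E).tangent 𝓘(ℝ, E).tangent ∞ fun p : TangentBundle 𝓘(ℝ, E) M => tv p.1 (J p.1 p.2)

/-- the covariant derivative of the velocity, computed in the preferred chart at `c t` -/
noncomputable def acc (g : Met E M) (c : ℝ → M) (t : ℝ) : E :=
  deriv (deriv (chartAt E (c t) ∘ c)) t +
    chr (coef g (c t)) (chartAt E (c t) (c t)) (velo E c t) (velo E c t)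

/-- a magnetic geodesic of energy `k`: `D c' / dt = b(c) J c'` and `|c'|² / 2 = k` -/
def IsMag (g : Met E M) (J : M → E →L[ℝ] E) (b : M → ℝ) (k : ℝ) (c : ℝ → M) : Prop :=
  ContMDiff 𝓘(ℝ, ℝ) 𝓘(ℝ, E) 2 c ∧
    ∀ t, acc g c t = b (c t) • J (c t) (velo E c t) ∧ ip g (c t) (velo E c t) (velo E c t) / 2 = k

/-- The level `k` has no conjugate points. The family `c θ` consists of the magnetic geodesics of
energy `k` through one point whose initial vectors run through the fibre circle; the image of the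
tangent line of the fibre under the differential of the time `T` map is again vertical exactly when
the base point `c θ T` has derivative zero at `θ = 0`. -/
def NoConjugate (g : Met E M) (J : M → E →L[ℝ] E) (b : M → ℝ) (k : ℝ) : Prop :=
  ∀ c : ℝ → ℝ → M, (∀ θ, IsMag g J b k (c θ)) → (∀ θ, c θ 0 = c 0 0) →
    (∀ θ, velo E (c θ) 0 = Real.cos θ • velo E (c 0) 0 + Real.sin θ • J (c 0 0) (velo E (c 0) 0)) →
    ∀ T : ℝ, T ≠ 0 → ¬HasMFDerivAt 𝓘(ℝ, ℝ) 𝓘(ℝ, E) (fun θ => c θ T) 0 0

/-- The time one map of the magnetic flow on the energy level `k` has topological entropy zero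
(open cover definition): for every finite open cover `O` of the level, the covers
`O ∨ φ₁⁻¹ O ∨ … ∨ φ_{n-1}⁻¹ O` have subcovers of subexponential size. -/
def ZeroEnt (g : Met E M) (J : M → E →L[ℝ] E) (b : M → ℝ) (k : ℝ) : Prop :=
  ∀ (m : ℕ) (O : Fin m → Set (TangentBundle 𝓘(ℝ, E) M)), (∀ i, IsOpen (O i)) →
    (∀ x v, ip g x v v / 2 = k → ∃ i, tv x v ∈ O i) →
    ∀ η : ℝ, 0 < η → ∃ C : ℝ, ∀ n : ℕ, ∃ W : Finset (Fin n → Fin m),
      (W.card : ℝ) ≤ C * Real.exp (η * n) ∧
      ∀ c, IsMag g J b k c → ∃ w ∈ W, ∀ j : Fin n, tv (c j) (velo E c j) ∈ O (w j)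

/-- the first Betti number (singular homology with rational coefficients) -/
noncomputable def betti1 (X : Type) [TopologicalSpace X] : ℕ :=
  Module.finrank ℚ
    (((AlgebraicTopology.singularHomologyFunctor (ModuleCat.{0} ℚ) 1).obj (ModuleCat.of ℚ ℚ)).obj
      (TopCat.of X))

end Pool.Agent.Lib.MP_21f752_an.U
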