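import Pool.Agent.Lib.MP_21f752_an.U.ChF
import Pool.Agent.Lib.MP_21f752_an.U.Conf

/-! Curvature and geodesics. -/

namespace Pool.Agent.Lib.MP_21f752_an.U

open Set Filter Topology Metric MeasureTheory Pool.Agent.Lib.MP_1c0d65_gt
open Complex (I)
open scoped ContDiff Laplacian UpperHalfPlane Manifold MatrixGroups

noncomputable section

variable {E : Type} [NormedAddCommGroup E] [NormedSpace ℝ E] [FiniteDimensional ℝ E]
  {M : Type} [TopologicalSpace M] [ChartedSpace E M] [IsManifold 𝓘(ℝ, E) ∞ M]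
  {V : Type} [NormedAddCommGroup V] [NormedSpace ℝ V] (g : Met E M) {J : M → E →L[ℝ] E}

namespace Unif
variable {g} (U : Unif g J) {b : M → ℝ} {k : ℝ}

theorem tra_le (n : ℕ) : (n : WithTop ℕ∞) ≤ ∞ := by exact_mod_cast le_top

/-- the second derivative of a composition -/
theorem tra_dd {φ : ℂ → E} {c : ℝ → ℂ} {t : ℝ} (h : ContDiffAt ℝ 2 φ (c t))
    (h1 : Differentiable ℝ c) (h2 : Differentiable ℝ (deriv c)) : deriv (deriv (φ ∘ c)) t =
      fderiv ℝ (fderiv ℝ φ) (c t) (deriv c t) (deriv c t) + fderiv ℝ φ (c t) (deriv (deriv c) t) := by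
  have d1 : deriv (φ ∘ c) =ᶠ[𝓝 t] fun s => fderiv ℝ φ (c s) (deriv c s) := by
    filter_upwards [(h1 t).continuousAt.eventually (h.eventually (by simp))] with s hs
    exact ((hs.differentiableAt (by simp)).hasFDerivAt.comp_hasDerivAt s (h1 s).hasDerivAt).deriv
  have d2 : HasDerivAt (fun s => fderiv ℝ φ (c s)) (fderiv ℝ (fderiv ℝ φ) (c t) (deriv c t)) t :=
    ((h.fderiv_right (m := 1) le_rfl).differentiableAt one_ne_zero).hasFDerivAt.comp_hasDerivAt
      t (h1 t).hasDerivAt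
  rw [d1.deriv_eq, (d2.clm_apply (h2 t).hasDerivAt).deriv]

theorem tra_p (z : ℍ) : (U.p ∘ UpperHalfPlane.ofComplex) z = U.p z :=
  congrArg U.p (UpperHalfPlane.ofComplex_apply z)

theorem tra_md (z : ℍ) : MDifferentiableAt 𝓘(ℝ, ℂ) 𝓘(ℝ, E) (U.p ∘ UpperHalfPlane.ofComplex) z :=
  (U.sm z).mdifferentiableAt (by simp)

theorem tra_ip (z : ℍ) (u v : ℂ) : ip g (U.p z) (dif E (U.p ∘ UpperHalfPlane.ofComplex) z u)
    (dif E (U.p ∘ UpperHalfPlane.ofComplex) z v) = cm (lam U.f) z u v := by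
  rw [← U.met z, ← U.tra_p z]
  rfl

theorem tra_nhds (z : ℍ) : {w : ℂ | 0 < w.im} ∈ 𝓝 (z : ℂ) :=
  (isOpen_lt continuous_const Complex.continuous_im).mem_nhds z.im_pos

theorem tra_lam (z : ℍ) : ContDiffAt ℝ ∞ (lam U.f) z :=
  (U.fsm.contDiffAt (tra_nhds z)).sub (Complex.imCLM.contDiff.contDiffAt.log z.im_pos.ne')

/-- the covering read in the preferred chart -/
theorem tra_phi (z : ℍ) {φ : ℂ → E} (e : φ = chartAt E (U.p z) ∘ U.p ∘ UpperHalfPlane.ofComplex) :
    ContDiffAt ℝ ∞ φ z ∧ fderiv ℝ φ z = dif E (U.p ∘ UpperHalfPlane.ofComplex) z ∧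
      φ z = chartAt E (U.p z) (U.p z) ∧ Good (coef g (U.p z)) (φ z) ∧
      ∀ᶠ y in 𝓝 (z : ℂ), cm (lam U.f) y =
        (coef g (U.p z) (φ y)).bilinearComp (fderiv ℝ φ y) (fderiv ℝ φ y) := by
  subst e
  have m : (U.p ∘ UpperHalfPlane.ofComplex) z ∈ (chartAt E (U.p z)).source := by
    rw [U.tra_p]; exact mem_chart_source E _
  have n := (chartAt E (U.p z)).open_source.mem_nhds m
  refine ⟨contMDiffAt_iff_contDiffAt.1 (((contMDiffOn_chart (I := 𝓘(ℝ, E)) (n := ∞)
    (x := U.p z)).contMDiffAt n).comp _ (U.sm z)), ?_, congrArg _ (U.tra_p z),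
    coef_good g _ ((chartAt E (U.p z)).map_source m), ?_⟩
  · rw [dif_self (U.tra_md z), U.tra_p]
  · filter_upwards [tra_nhds z, (U.sm z).continuousAt n] with y h1 h2
    exact (U.met ⟨y, h1⟩).symm.trans (pull_chart g _ (U.tra_md ⟨y, h1⟩) h2)

theorem tra_gram (x : M) {u v : E} (h : LinearIndependent ℝ ![u, v]) :
    ip g x u u * ip g x v v - ip g x u v ^ 2 ≠ 0 := fun e => by
  have v0 : v ≠ 0 := h.ne_zero 1
  have k := ip_pos g x v0
  refine k.ne' (LinearIndependent.pair_iff.1 h (ip g x v v) (-ip g x u v)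
    (by_contra fun n => (ip_pos g x n).ne' ?_)).1
  simp only [map_add, map_smul, add_apply, smul_apply,
    smul_eq_mul, ip_symm g x v u]
  linear_combination ip g x v v * e

theorem dif_inv (z : ℍ) : (dif E (U.p ∘ UpperHalfPlane.ofComplex) z).IsInvertible := by
  have i : Function.Injective (dif E (U.p ∘ UpperHalfPlane.ofComplex) z : ℂ →ₗ[ℝ] E) :=
    (injective_iff_map_eq_zero _).2 fun v hv => by
      have k := U.tra_ip z v v
      rw [show dif E (U.p ∘ UpperHalfPlane.ofComplex) z v = 0 from hv] at k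
      rw [map_zero] at k
      exact (inner_self_eq_zero (𝕜 := ℝ)).1
        ((mul_eq_zero.1 k.symm).resolve_left (Real.exp_pos _).ne')
  exact ⟨(LinearMap.linearEquivOfInjective _ i
    (Complex.finrank_real_complex.trans U.dim.symm)).toContinuousLinearEquiv, rfl⟩

theorem smooth_b (hb : ContMDiff 𝓘(ℝ, E) 𝓘(ℝ, ℝ) ∞ b) : SmoothH (b ∘ U.p) := fun z hz =>
  (contMDiffAt_iff_contDiffAt.1 ((hb _).comp z (U.sm ⟨z, hz⟩))).contDiffWithinAt

/-- hint: `φ = chartAt a ∘ p ∘ ofComplex`, `a = p z`; `riem_law`, `riem_cm`, `pull_chart` -/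
theorem gauss_eq (z : ℍ) {u v : E} (h : LinearIndependent ℝ ![u, v]) :
    gauss g (U.p z) u v = curv U.f z := by
  have := FiniteDimensional.complete ℝ E
  obtain ⟨φ, e⟩ : ∃ φ : ℂ → E, φ = chartAt E (U.p z) ∘ U.p ∘ UpperHalfPlane.ofComplex := ⟨_, rfl⟩
  obtain ⟨h1, h2, h3, h4, h5⟩ := U.tra_phi z e
  have n := tra_gram (g := g) (U.p z) h
  obtain ⟨u, rfl⟩ := (U.dif_inv z).surjective u
  obtain ⟨v, rfl⟩ := (U.dif_inv z).surjective v
  have k := riem_law (h1.of_le (tra_le 3)) (h2 ▸ U.dif_inv z) h4 h5 u v v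
  rw [h2, h3] at k
  simp only [U.tra_ip] at n
  rw [gauss, sec, ← k, coef_self]
  simp only [U.tra_ip]
  rw [riem_cm ((U.tra_lam z).of_le (tra_le 2)), mul_div_cancel_right₀ _ n, curv]

theorem velo_eq {c : ℝ → ℍ} (hc : Differentiable ℝ fun s => (c s : ℂ)) (t : ℝ) :
    velo E (U.p ∘ c) t = dif E (U.p ∘ UpperHalfPlane.ofComplex) (c t) (vel c t) := by
  have e : U.p ∘ c = (U.p ∘ UpperHalfPlane.ofComplex) ∘ fun s => (c s : ℂ) :=
    funext fun s => (U.tra_p (c s)).symm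
  rw [velo, e, dif_comp (φ := fun s => (c s : ℂ)) (U.tra_md (c t)) (hc t)]
  rfl

/-- hint: `c` is `C^2` because `vel c` has a continuous derivative by the equation; `chr_law`,
`chr_cm` -/
theorem mag (hb : ContMDiff 𝓘(ℝ, E) 𝓘(ℝ, ℝ) ∞ b) {c : ℝ → ℍ}
    (h : IsMagGeodesic U.f (b ∘ U.p) k c) : IsMag g J b k (U.p ∘ c) := by
  have := FiniteDimensional.complete ℝ E
  obtain ⟨h1, h2, h3⟩ := h
  have e : U.p ∘ c = (U.p ∘ UpperHalfPlane.ofComplex) ∘ fun s => (c s : ℂ) :=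
    funext fun s => (U.tra_p (c s)).symm
  have c0 : Continuous (U.p ∘ c) := e ▸ continuous_iff_continuousAt.2 fun t =>
    ContinuousAt.comp (f := fun s => (c s : ℂ)) (U.sm (c t)).continuousAt (h1 t).continuousAt
  have c1 : Continuous fun t => fderiv ℝ (lam U.f) (c t) := continuous_iff_continuousAt.2 fun t =>
    ContinuousAt.comp (f := fun s => (c s : ℂ)) ((U.tra_lam (c t)).continuousAt_fderiv (by simp))
      (h1 t).continuousAt
  have c2 : Continuous fun t => b (U.p (c t)) := hb.continuous.comp c0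
  have c3 := h2.continuous
  have c4 : Continuous (deriv (vel c)) := by
    refine Continuous.congr ?_ fun t =>
      (eq_sub_of_add_eq (eq_add_of_sub_eq (h3 t).1)).symm
    have r := Complex.continuous_ofReal
    exact (((r.comp c2).mul (continuous_const.mul c3)).add ((r.comp (c3.norm.pow 2)).mul
      ((r.comp (c1.clm_apply continuous_const)).add
        ((r.comp (c1.clm_apply continuous_const)).mul continuous_const)))).sub
      ((continuous_const.mul (r.comp (c1.clm_apply c3))).mul c3)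
  have c5 : ContDiff ℝ 2 fun s => (c s : ℂ) :=
    (contDiff_succ_iff_deriv (n := 1)).2 ⟨h1, by simp, contDiff_one_iff_deriv.2 ⟨h2, c4⟩⟩
  refine ⟨fun t => e ▸ ContMDiffAt.comp (f := fun s => (c s : ℂ)) t
    ((U.sm (c t)).of_le (tra_le 2)) c5.contDiffAt.contMDiffAt, fun t => ⟨?_, ?_⟩⟩
  · obtain ⟨φ, e'⟩ : ∃ φ : ℂ → E, φ = chartAt E (U.p (c t)) ∘ U.p ∘ UpperHalfPlane.ofComplex :=
      ⟨_, rfl⟩
    obtain ⟨k1, k2, k3, k4, k5⟩ := U.tra_phi (c t) e'
    have k2' : ContDiffAt ℝ 2 φ (c t) := k1.of_le (tra_le 2)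
    have k := chr_law k2' (k2 ▸ U.dif_inv (c t)) k4 k5 (vel c t) (vel c t)
    have a : chartAt E (U.p (c t)) ∘ U.p ∘ c = φ ∘ fun s => (c s : ℂ) := by rw [e, e']; rfl
    have d2 : deriv (deriv (φ ∘ fun s => (c s : ℂ))) t = fderiv ℝ (fderiv ℝ φ) (c t) (vel c t)
        (vel c t) + fderiv ℝ φ (c t) (deriv (vel c) t) := tra_dd k2' h1 h2
    have d3 : deriv (vel c) t + chr (cm (lam U.f)) (c t) (vel c t) (vel c t) =
        b (U.p (c t)) • (I * vel c t) := by
      rw [chr_cm ((U.tra_lam (c t)).differentiableAt (by simp)), real_inner_self_eq_norm_sq,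
        Complex.real_smul,
        ← show covAcc U.f c t = b (U.p (c t)) * (I * vel c t) from (h3 t).1, covAcc]
      ring
    rw [acc, U.velo_eq h1, Function.comp_apply, a, d2, ← U.rot, ← map_smul, ← d3,
      map_add, ← k2, k, k3]
    exact add_right_comm _ _ _ |>.trans (add_comm _ _)
  · rw [U.velo_eq h1, Function.comp_apply, U.tra_ip, ← (h3 t).2, energy]
    exact congrArg (Real.exp (2 * lam U.f (c t)) * · / 2) (real_inner_self_eq_norm_sq (vel c t))

end Unif

end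

end Pool.Agent.Lib.MP_21f752_an.U
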