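import Pool.Agent.Lib.MP_21f752_an.U.SDef
import Pool.Agent.Lib.MP_21f752_an.FDef

/-! The output of uniformisation; conformal metrics in the plane. -/

namespace Pool.Agent.Lib.MP_21f752_an.U

open Filter Topology UpperHalfPlane
open scoped Manifold ContDiff MatrixGroups

/-- the coefficients of the metric `exp (2 l) |dz|²` -/
noncomputable def cm (l : ℂ → ℝ) (z : ℂ) : ℂ →L[ℝ] ℂ →L[ℝ] ℝ :=
  Real.exp (2 * l z) • (innerSL ℝ : ℂ →L[ℝ] ℂ →L[ℝ] ℝ)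

/-- smooth, symmetric and invertible near `y` -/
def Good {W : Type} [NormedAddCommGroup W] [NormedSpace ℝ W] (G : W → W →L[ℝ] W →L[ℝ] ℝ)
    (y : W) : Prop :=
  ∀ᶠ x in 𝓝 y, ContDiffAt ℝ ∞ G x ∧ (∀ u v, G x u v = G x v u) ∧ (G x).IsInvertible

variable {E : Type} [NormedAddCommGroup E] [NormedSpace ℝ E]
  {M : Type} [TopologicalSpace M] [ChartedSpace E M] [IsManifold 𝓘(ℝ, E) ∞ M]

/-- a conformal covering of `M` by the upper half-plane, with its deck group -/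
structure Unif (g : Met E M) (J : M → E →L[ℝ] E) where
  Γ : Subgroup SL(2, ℝ)
  p : ℍ → M
  f : ℍ → ℝ
  dim : Module.finrank ℝ E = 2
  disc : DiscreteTopology Γ
  free : ∀ γ ∈ Γ, ∀ z : ℍ, γ • z = z → ∀ w : ℍ, γ • w = w
  coc : ∃ K : Set ℍ, IsCompact K ∧ ∀ z : ℍ, ∃ γ ∈ Γ, γ • z ∈ K
  surj : Function.Surjective p
  inv : ∀ γ ∈ Γ, ∀ z, p (γ • z) = p z
  fib : ∀ z w, p z = p w → ∃ γ ∈ Γ, γ • z = w
  fsm : SmoothH f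
  finv : ∀ γ ∈ Γ, ∀ z, f (γ • z) = f z
  sm : ∀ z : ℍ, ContMDiffAt 𝓘(ℝ, ℂ) 𝓘(ℝ, E) ∞ (p ∘ ofComplex) z
  met : ∀ z : ℍ, pull g (p ∘ ofComplex) z = cm (lam f) z
  rot : ∀ (z : ℍ) (v : ℂ),
    dif E (p ∘ ofComplex) z (Complex.I * v) = J (p z) (dif E (p ∘ ofComplex) z v)
  loc : ∀ z : ℍ, ∃ r : M → ℂ, r (p z) = z ∧
    ∀ᶠ y in 𝓝 (p z), ContMDiffAt 𝓘(ℝ, E) 𝓘(ℝ, ℂ) ∞ r y ∧ p (ofComplex (r y)) = y

end Pool.Agent.Lib.MP_21f752_an.U
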