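import Pool.Agent.Lib.MP_21f752_an.U.Brg
import Pool.Agent.Lib.MP_21f752_an.U.Boch
import Pool.Agent.Lib.MP_21f752_an.U.Non
import Pool.Agent.Lib.MP_21f752_an.U.Dev

/-! Uniformisation. -/

namespace Pool.Agent.Lib.MP_21f752_an.U

open Set Filter Topology Metric MeasureTheory Pool.Agent.Lib.MP_1c0d65_gt
open Complex (I)
open scoped ContDiff Laplacian UpperHalfPlane Manifold MatrixGroups

noncomputable section

variable {E : Type} [NormedAddCommGroup E] [NormedSpace ℝ E] [FiniteDimensional ℝ E]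
  {M : Type} [TopologicalSpace M] [ChartedSpace E M] [IsManifold 𝓘(ℝ, E) ∞ M]
  {V : Type} [NormedAddCommGroup V] [NormedSpace ℝ V] (g : Met E M) {J : M → E →L[ℝ] E}

theorem uni_cont {X : Type} [TopologicalSpace X] {p : ℍ → X} {z : ℍ} (h : ContinuousAt p z) :
    ContinuousAt (p ∘ UpperHalfPlane.ofComplex) z := by
  refine ContinuousAt.comp_of_eq h ?_ (UpperHalfPlane.ofComplex_apply z)
  exact (UpperHalfPlane.contMDiffAt_ofComplex (n := 0) z.im_pos).continuousAt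

theorem uni_cm (l : ℂ → ℝ) (z v w : ℂ) : cm l z v w = Real.exp (2 * l z) * inner ℝ v w := rfl

theorem exists_unif [CompactSpace M] [T2Space M] [ConnectedSpace M]
    (hE : Module.finrank ℝ E = 2) (hJ : IsRot g J)
    (h : 4 ≤ betti1 M) : Nonempty (Unif g J) := by
  obtain ⟨A, hA⟩ := exists_atl g hE hJ
  obtain ⟨w, c, hw, hc, hK⟩ := A.exists_neg h
  obtain ⟨u, hu, hK'⟩ := A.exists_hyp hw hc hK
  obtain ⟨Γ, p, h1, h2, h3, h4, h5, h6, h7⟩ := Atl.exists_dev hK'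
  have o := fun z : ℍ => UpperHalfPlane.ofComplex_apply z
  -- local form
  have key : ∀ z : ℍ, ∃ (i : A.ι) (τ : ℂ → ℂ), p z ∈ (A.e i).source ∧ AnalyticAt ℂ τ z ∧
      τ z = A.e i (p z) ∧ ‖deriv τ z‖ * Real.exp (A.lam i (τ z) + u (p z)) * z.im = 1 ∧
      p ∘ UpperHalfPlane.ofComplex =ᶠ[𝓝 (z : ℂ)] (A.e i).symm ∘ τ := fun z => by
    have hi := (A.idx_mem (p z)).1
    obtain ⟨a1, a2⟩ := (h4 z).2 (A.idx (p z)) hi
    have e : (A.e (A.idx (p z)) ∘ p ∘ UpperHalfPlane.ofComplex) z = A.e (A.idx (p z)) (p z) := by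
      simp only [Function.comp_apply, o]
    refine ⟨_, A.e (A.idx (p z)) ∘ p ∘ UpperHalfPlane.ofComplex, hi, a1, e, ?_, ?_⟩
    · rw [e]
      have a3 : ‖deriv (A.e (A.idx (p z)) ∘ p ∘ UpperHalfPlane.ofComplex) z‖ *
        Real.exp (A.lam _ (A.e (A.idx (p z)) (p z)) +
          u ((A.e (A.idx (p z))).symm (A.e (A.idx (p z)) (p z)))) * z.im = 1 := a2
      rwa [(A.e _).left_inv hi] at a3
    · have := (uni_cont (h4 z).1).eventually (p := fun y => (A.e _).symm (A.e (A.idx (p z)) y) = y)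
        (by rw [Function.comp_apply, o]; exact (A.e _).eventually_left_inverse hi)
      exact this.mono fun y hy => hy.symm
  have hd : ∀ (z : ℍ) (i : A.ι) (τ : ℂ → ℂ), p z ∈ (A.e i).source → AnalyticAt ℂ τ z →
      τ z = A.e i (p z) → p ∘ UpperHalfPlane.ofComplex =ᶠ[𝓝 (z : ℂ)] (A.e i).symm ∘ τ → ∀ v,
      dif E (p ∘ UpperHalfPlane.ofComplex) z v = dif E (A.e i).symm (τ z) (deriv τ z * v) :=
    fun z i τ a1 a2 a3 a5 v => by
      rw [dif_congr a5, dif_comp (((hA i).2 _ (a3 ▸ Atl.map_mem a1)).1.mdifferentiableAt (by simp))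
        (a2.differentiableAt.restrictScalars ℝ), ContinuousLinearMap.comp_apply,
        (a2.differentiableAt.hasDerivAt.hasFDerivAt.restrictScalars ℝ).fderiv, mul_comm]
      rfl
  refine ⟨⟨Γ, p, fun z => -u (p z), hE, h1, h2, h3, h5, h6, h7, fun y hy => ?_,
    fun γ hγ z => by rw [h6 γ hγ], fun z => ?_, fun z => ?_, fun z v => ?_, fun z => ?_⟩⟩
  · obtain ⟨i, τ, a1, a2, a3, -, a5⟩ := key ⟨y, hy⟩
    refine ContDiffAt.contDiffWithinAt (ContDiffAt.neg ?_)
    refine ContDiffAt.congr_of_eventuallyEq ((a3 ▸ hu _ i a1).comp y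
      (a2.contDiffAt.restrict_scalars ℝ)) (a5.mono fun y hy => congrArg u hy)
  · obtain ⟨i, τ, a1, a2, a3, -, a5⟩ := key z
    exact (((hA i).2 _ (a3 ▸ Atl.map_mem a1)).1.comp _
      (a2.contDiffAt.restrict_scalars ℝ).contMDiffAt).congr_of_eventuallyEq a5
  · obtain ⟨i, τ, a1, a2, a3, a4, a5⟩ := key z
    ext1 v
    ext1 w
    have b := congrArg (fun B : ℂ →L[ℝ] ℂ →L[ℝ] ℝ => B (deriv τ z * v) (deriv τ z * w))
      ((hA i).2 _ (a3 ▸ Atl.map_mem a1)).2.1
    simp only [pull, ContinuousLinearMap.bilinearComp_apply, uni_cm] at b ⊢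
    rw [hd z i τ a1 a2 a3 a5, hd z i τ a1 a2 a3 a5, a5.self_of_nhds, Function.comp_apply, b, lam, o]
    have e1 : inner ℝ (deriv τ z * v) (deriv τ z * w) = ‖deriv τ z‖ ^ 2 * inner ℝ v w := by
      rw [Complex.sq_norm]
      simp [Complex.inner, Complex.normSq_apply]
      ring
    have e2 : Real.exp (2 * (-u (p z) - Real.log (z : ℂ).im)) =
        Real.exp (2 * A.lam i (τ z)) * ‖deriv τ z‖ ^ 2 := by
      have z0 : 0 < (z : ℂ).im := z.im_pos
      have e3 : Real.exp (-u (p z) - Real.log (z : ℂ).im) =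
          Real.exp (A.lam i (τ z)) * ‖deriv τ z‖ := by
        rw [Real.exp_sub, Real.exp_log z0, Real.exp_neg, div_eq_iff z0.ne',
          inv_eq_iff_eq_inv, eq_comm, inv_eq_iff_eq_inv, eq_comm]
        rw [Real.exp_add] at a4
        exact inv_eq_of_mul_eq_one_left (by rw [← a4, UpperHalfPlane.coe_im]; ring)
      rw [two_mul, Real.exp_add, e3, two_mul, Real.exp_add]
      ring
    rw [e1, e2, mul_assoc]
  · obtain ⟨i, τ, a1, a2, a3, -, a5⟩ := key z
    rw [hd z i τ a1 a2 a3 a5, hd z i τ a1 a2 a3 a5, mul_left_comm,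
      ((hA i).2 _ (a3 ▸ Atl.map_mem a1)).2.2, a3, (A.e i).left_inv a1]
  · have hi := (A.idx_mem (p z)).1
    obtain ⟨s, s1, s2, s3, -⟩ := Atl.IsoAt.inv (A := A.conf u hu) (i := A.idx (p z)) (h4 z) hi
    refine ⟨s ∘ A.e (A.idx (p z)), s1, ?_⟩
    filter_upwards [s3, (A.e _).open_source.mem_nhds hi,
      ((A.e _).continuousAt hi).eventually s2.eventually_analyticAt] with y b1 b2 b3
    exact ⟨(b3.contDiffAt.restrict_scalars ℝ).contMDiffAt.comp y ((hA _).1 y b2), b1⟩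

end

end Pool.Agent.Lib.MP_21f752_an.U
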